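import Pool.Agent.Lib_MP_95a0ff_lc.Defs
import Pool.Agent.Lib_MP_33ea09_lc.Code

/-!
# The encoding of instances is injective
-/

namespace Pool.Agent.Psp81

open Pool.Agent.Bx81

theorem bits_inj {a b : ℕ} (h : Nat.bits a = Nat.bits b) : a = b := by
  have := congrArg bval h
  rwa [bval_bits, bval_bits] at this

theorem split_none {u u' : List Bool} {w w' : List (Option Bool)}
    (h : u.map some ++ none :: w = u'.map some ++ none :: w') : u = u' ∧ w = w' := by
  induction u generalizing u' with
  | nil =>
    cases u' with
    | nil => simpa using h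
    | cons b u' => simp at h
  | cons a u ih =>
    cases u' with
    | nil => simp at h
    | cons b u' =>
      simp only [List.map_cons, List.cons_append, List.cons.injEq, Option.some.injEq] at h
      obtain ⟨h1, h2⟩ := ih h.2
      exact ⟨by rw [h.1, h1], h2⟩

theorem encQ_append_inj {q q' : ℚ} {w w' : List (Option Bool)}
    (h : encQ q ++ w = encQ q' ++ w') : q = q' ∧ w = w' := by
  unfold encQ at h
  simp only [List.cons_append, List.append_assoc, List.cons.injEq, Option.some.injEq] at h
  obtain ⟨hs, h⟩ := h
  obtain ⟨h1, h⟩ := split_none h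
  rw [List.nil_append, List.nil_append] at h
  obtain ⟨h2, h⟩ := split_none h
  refine ⟨?_, h⟩
  have e1 := bits_inj h1
  have e2 := bits_inj h2
  have hs' : q < 0 ↔ q' < 0 := by
    rw [← decide_eq_decide]; exact hs
  have e3 : q.num = q'.num := by
    rw [← Rat.num_neg, ← Rat.num_neg] at hs'
    omega
  exact Rat.ext e3 e2

theorem encQ_ne_nil (q : ℚ) : encQ q ≠ [] := by
  unfold encQ; simp

theorem flat_encQ_inj {l l' : List ℚ} (h : l.flatMap encQ = l'.flatMap encQ) : l = l' := by
  induction l generalizing l' with
  | nil =>
    cases l' with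
    | nil => rfl
    | cons a l' =>
      exfalso
      rw [List.flatMap_nil, List.flatMap_cons] at h
      have := congrArg List.length h
      have h2 := List.length_pos_of_ne_nil (encQ_ne_nil a)
      rw [List.length_append] at this
      simp only [List.length_nil] at this
      omega
  | cons a l ih =>
    cases l' with
    | nil =>
      exfalso
      rw [List.flatMap_nil, List.flatMap_cons] at h
      simp at h
      exact encQ_ne_nil a h.1
    | cons b l' =>
      rw [List.flatMap_cons, List.flatMap_cons] at h
      obtain ⟨h1, h2⟩ := encQ_append_inj h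
      rw [h1, ih h2]

/-- All the numbers of an instance. -/
def nums {n s : ℕ} (P : Fin n → Fin s → ℚ) (L : ℚ) : List ℚ :=
  (List.finRange n).flatMap (fun i => (List.finRange s).map fun k => P i k) ++ [L]

theorem encode_eq {n s : ℕ} (P : Fin n → Fin s → ℚ) (L : ℚ) :
    encode P L = (nums P L).flatMap encQ := by
  unfold encode nums
  rw [List.flatMap_append, List.flatMap_assoc]
  simp only [List.flatMap_map, List.flatMap_singleton]

theorem flat_block {ι α : Type} (l : List ι) (f g : ι → List α)
    (hl : ∀ i, (f i).length = (g i).length) (h : l.flatMap f = l.flatMap g) :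
    ∀ i ∈ l, f i = g i := by
  induction l with
  | nil => simp
  | cons a l ih =>
    rw [List.flatMap_cons, List.flatMap_cons] at h
    obtain ⟨h1, h2⟩ := List.append_inj h (hl a)
    intro i hi
    rcases List.mem_cons.1 hi with rfl | hi
    · exact h1
    · exact ih h2 i hi

theorem encode_inj {n n' s : ℕ} (hs : 1 ≤ s) {P : Fin n → Fin s → ℚ} {P' : Fin n' → Fin s → ℚ}
    {L L' : ℚ} (h : encode P L = encode P' L') : ∃ e : n = n', (∀ i, P i = P' (Fin.cast e i)) ∧
      L = L' := by
  rw [encode_eq, encode_eq] at h
  have h := flat_encQ_inj h
  unfold nums at h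
  have hl : ∀ (m : ℕ) (Q : Fin m → Fin s → ℚ),
      ((List.finRange m).flatMap (fun i => (List.finRange s).map fun k => Q i k)).length = m * s := by
    intro m Q
    simp [List.length_flatMap]
  have h2 := congrArg List.length h
  rw [List.length_append, List.length_append, hl, hl] at h2
  simp only [List.length_singleton, Nat.add_right_cancel_iff] at h2
  have h3 : n = n' := Nat.eq_of_mul_eq_mul_right hs h2
  subst h3
  obtain ⟨h4, h5⟩ := List.append_inj h (by rw [hl, hl])
  refine ⟨rfl, ?_, by simpa using h5⟩
  intro i
  have h6 := flat_block (List.finRange n) (fun i => (List.finRange s).map fun k => P i k)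
    (fun i => (List.finRange s).map fun k => P' i k) (by simp) h4 i (List.mem_finRange i)
  funext k
  have h7 := congrArg (fun l : List ℚ => l[k.val]?) h6
  simp only [List.getElem?_map] at h7
  have e1 : (List.finRange s)[k.val]? = some k := by
    rw [List.getElem?_eq_getElem (by simp)]
    simp
  rw [e1] at h7
  simpa using h7

end Pool.Agent.Psp81
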