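import Pool.Agent.Lib_MP_95a0ff_lc.Stmts
import Pool.Agent.Lib_MP_95a0ff_lc.Code

/-!
# The instance of the reduction and its correctness
-/

namespace Pool.Agent.Psp81

open Pool.Agent.Bx81

/-! ### Transport of tours along equivalences -/

theorem isTour_comap {V W : Type} (e : V ≃ W) (H : SimpleGraph W) :
    IsTour (H.comap e) ↔ IsTour H := by
  have hiso : H.comap e ≃g H := SimpleGraph.Iso.comap e H
  unfold IsTour
  rw [hiso.connected_iff]
  refine and_congr Iff.rfl ?_
  have key : ∀ v, ((H.comap e).neighborSet v).ncard = (H.neighborSet (e v)).ncard := by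
    intro v
    rw [← Set.ncard_image_of_injective _ e.injective]
    congr 1
    ext w
    simp only [Set.mem_image, SimpleGraph.mem_neighborSet, SimpleGraph.comap_adj]
    constructor
    · rintro ⟨u, h, rfl⟩; exact h
    · intro h; exact ⟨e.symm w, by simpa using h, by simp⟩
  constructor
  · intro h w
    have := h (e.symm w)
    rw [key] at this
    simpa using this
  · intro h v
    rw [key]
    exact h _

theorem comap_symm {V W : Type} (e : V ≃ W) (H : SimpleGraph V) :
    (H.comap e.symm).comap e = H := by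
  ext a b
  simp [SimpleGraph.comap_adj]

/-! ### The cells as a list -/

/-- The last row. -/
def Ymax (J : Ins) : ℕ := 9 * (J.n + 1) + 6

/-- The list of the cells. -/
def cells (J : Ins) : List (ℕ × ℕ) :=
  (List.range (8 * J.M + 3)).flatMap fun X =>
    ((List.range (Ymax J + 1)).filter fun Y => cell J X Y).map fun Y => (X, Y)

theorem cell_bounds {J : Ins} {X Y : ℕ} (h : cell J X Y = true) :
    X ≤ 8 * J.M + 2 ∧ Y ≤ Ymax J := by
  unfold cell at h
  simp only [Bool.and_eq_true, decide_eq_true_eq] at h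
  refine ⟨h.1, ?_⟩
  by_contra hY
  unfold Ymax at hY
  have h := h.2
  rw [if_neg (by omega), if_neg (by omega), if_neg (by omega), if_neg (by omega),
    if_neg (by omega), if_neg (by omega), if_pos (by omega)] at h
  simp at h

theorem mem_cells (J : Ins) (p : ℕ × ℕ) : p ∈ cells J ↔ cell J p.1 p.2 = true := by
  obtain ⟨X, Y⟩ := p
  unfold cells
  simp only [List.mem_flatMap, List.mem_range, List.mem_map, List.mem_filter, Prod.mk.injEq]
  constructor
  · rintro ⟨X', h1, Y', ⟨h2, h3⟩, rfl, rfl⟩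
    exact h3
  · intro h
    have := cell_bounds h
    exact ⟨X, by omega, Y, ⟨by omega, h⟩, rfl, rfl⟩

theorem cells_nodup (J : Ins) : (cells J).Nodup := by
  unfold cells
  rw [List.nodup_flatMap]
  refine ⟨?_, ?_⟩
  · intro X _
    exact ((List.nodup_range).filter _).map (fun a b h => by simpa using h)
  · refine List.nodup_range.imp ?_
    intro a b hab
    simp only [Function.onFun]
    rw [List.disjoint_left]
    intro p hp hp'
    simp only [List.mem_map] at hp hp'
    obtain ⟨_, _, rfl⟩ := hp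
    obtain ⟨_, _, h⟩ := hp'
    simp only [Prod.mk.injEq] at h
    exact hab h.1.symm

/-- The number of cells. -/
abbrev NN (J : Ins) : ℕ := (cells J).length

/-- The horizontal position of a cell after the rotation of the grid. -/
def posD (J : Ins) (p : ℕ × ℕ) : ℕ := p.1 + (Ymax J - p.2)
/-- The level of a cell after the rotation of the grid. -/
def posS (p : ℕ × ℕ) : ℕ := p.1 + p.2

/-- The bound on the positions. -/
def BB (J : Ins) : ℕ := 8 * J.M + 2 + Ymax J

/-- The horizontal positions of the bars. -/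
def cD (J : Ins) (a : Fin (NN J)) : ℕ := posD J ((cells J).get a)
/-- The levels of the bars. -/
def cS (J : Ins) (a : Fin (NN J)) : ℕ := posS ((cells J).get a)

theorem get_cell (J : Ins) (a : Fin (NN J)) :
    cell J ((cells J).get a).1 ((cells J).get a).2 = true :=
  (mem_cells J _).1 (List.get_mem _ _)

theorem cD_le (J : Ins) (a : Fin (NN J)) : cD J a ≤ BB J := by
  have := cell_bounds (get_cell J a)
  unfold cD posD BB
  omega

theorem cS_le (J : Ins) (a : Fin (NN J)) : cS J a ≤ BB J := by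
  have := cell_bounds (get_cell J a)
  unfold cS posS BB
  omega

theorem c_inj (J : Ins) (a b : Fin (NN J)) (h1 : cD J a = cD J b) (h2 : cS J a = cS J b) :
    a = b := by
  have e1 := cell_bounds (get_cell J a)
  have e2 := cell_bounds (get_cell J b)
  unfold cD posD at h1
  unfold cS posS at h2
  have : (cells J).get a = (cells J).get b := Prod.ext (by omega) (by omega)
  exact (List.nodup_iff_injective_get.1 (cells_nodup J)) this

theorem c_par (J : Ins) (a b : Fin (NN J)) :
    (cD J a + cS J a) % 2 = (cD J b + cS J b) % 2 := by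
  have e1 := cell_bounds (get_cell J a)
  have e2 := cell_bounds (get_cell J b)
  unfold cD posD cS posS
  omega

/-- Bars and cells. -/
noncomputable def eqv (J : Ins) : Fin (NN J) ≃ {p : ℕ × ℕ // cell J p.1 p.2 = true} :=
  Equiv.ofBijective (fun a => ⟨(cells J).get a, get_cell J a⟩) (by
    constructor
    · intro a b h
      simp only [Subtype.mk.injEq] at h
      exact (List.nodup_iff_injective_get.1 (cells_nodup J)) h
    · rintro ⟨p, hp⟩
      obtain ⟨a, ha⟩ := List.get_of_mem ((mem_cells J p).2 hp)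
      exact ⟨a, by simp only [Subtype.mk.injEq]; exact ha⟩)

theorem eqv_val (J : Ins) (a : Fin (NN J)) : (eqv J a).1 = (cells J).get a := rfl

theorem tie_iff (J : Ins) (a b : Fin (NN J)) :
    (tieG (cD J) (cS J)).Adj a b ↔ (gridG J).Adj (eqv J a) (eqv J b) := by
  have e1 := cell_bounds (get_cell J a)
  have e2 := cell_bounds (get_cell J b)
  simp only [tieG, gridG, eqv_val, cD, cS, posD, posS]
  omega

theorem tieG_eq (J : Ins) : tieG (cD J) (cS J) = (gridG J).comap (eqv J) := by
  ext a b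
  exact tie_iff J a b

theorem grid_tie (J : Ins) : (∃ F : SimpleGraph _, F ≤ gridG J ∧ IsTour F) ↔
    ∃ F : SimpleGraph _, F ≤ tieG (cD J) (cS J) ∧ IsTour F := by
  constructor
  · rintro ⟨F, h1, h2⟩
    refine ⟨F.comap (eqv J), ?_, (isTour_comap _ _).2 h2⟩
    rw [tieG_eq]
    intro a b h
    exact h1 h
  · rintro ⟨F, h1, h2⟩
    refine ⟨F.comap (eqv J).symm, ?_, (isTour_comap _ _).2 h2⟩
    intro a b h
    have := h1 h
    rw [tie_iff] at this
    simpa using this

/-! ### The points -/

/-- The indices of the points. -/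
def idx (N : ℕ) : List (Fin N × Fin 9) :=
  (List.finRange N).flatMap fun a => (List.finRange 9).map fun q => (a, q)

theorem mem_idx {N : ℕ} (x : Fin N × Fin 9) : x ∈ idx N := by
  unfold idx
  rw [List.mem_flatMap]
  exact ⟨x.1, List.mem_finRange _, List.mem_map.2 ⟨x.2, List.mem_finRange _, rfl⟩⟩

theorem idx_nodup (N : ℕ) : (idx N).Nodup := by
  unfold idx
  rw [List.nodup_flatMap]
  refine ⟨?_, ?_⟩
  · intro a _
    exact (List.nodup_finRange 9).map (fun a b h => by simpa using h)
  · refine (List.nodup_finRange N).imp ?_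
    intro a b hab
    simp only [Function.onFun]
    rw [List.disjoint_left]
    intro p hp hp'
    simp only [List.mem_map] at hp hp'
    obtain ⟨_, _, rfl⟩ := hp
    obtain ⟨_, _, h⟩ := hp'
    simp only [Prod.mk.injEq] at h
    exact hab h.1.symm

/-- The numbering of the points. -/
noncomputable def e9 (N : ℕ) : Fin (idx N).length ≃ Fin N × Fin 9 :=
  Equiv.ofBijective (fun i => (idx N).get i) (by
    constructor
    · exact List.nodup_iff_injective_get.1 (idx_nodup N)
    · intro x
      obtain ⟨a, ha⟩ := List.get_of_mem (mem_idx x)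
      exact ⟨a, ha⟩)

/-- The points in the plane. -/
def Zp (J : Ins) (p : ℕ × ℕ) (q : Fin 9) : ℤ × ℤ :=
  Zc (NN J) (BB J) (col (posD J p) q) (lev (NN J) (posS p) q)

/-- The potentials. -/
def lp (J : Ins) (p : ℕ × ℕ) (q : Fin 9) : ℕ :=
  lamc (NN J) (BB J) (col (posD J p) q) (lev (NN J) (posS p) q)

/-- The points of the instance. -/
noncomputable def PP (s : ℕ) (J : Ins) (i : Fin (idx (NN J)).length) (k : Fin s) : ℚ :=
  let z := Zp J ((cells J).get (e9 _ i).1) (e9 _ i).2
  if k.val = 0 then (z.1 : ℚ) else if k.val = 1 then (z.2 : ℚ) else 0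

/-- The sum of the potentials. -/
def lamSum (J : Ins) : ℕ := ((cells J).map fun p => ((List.finRange 9).map fun q => lp J p q).sum).sum

/-- The bound of the instance. -/
def LL (J : Ins) : ℕ := 4 * lamSum J - (20000 * NN J ^ 3 + 5000 * NN J ^ 2)

theorem dist_pt {s : ℕ} (hs : 2 ≤ s) (J : Ins) (i j : Fin (idx (NN J)).length) :
    dist (pt (PP s J i)) (pt (PP s J j)) =
      dst (Zp J ((cells J).get (e9 _ i).1) (e9 _ i).2)
        (Zp J ((cells J).get (e9 _ j).1) (e9 _ j).2) := by
  obtain ⟨s, rfl⟩ : ∃ t, s = t + 2 := ⟨s - 2, by omega⟩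
  rw [EuclideanSpace.dist_eq]
  unfold dst pt
  congr 1
  rw [Fin.sum_univ_succ, Fin.sum_univ_succ]
  have h0 : ∀ k : Fin s, dist ((PP (s + 2) J i (k.succ.succ) : ℚ) : ℝ)
      ((PP (s + 2) J j (k.succ.succ) : ℚ) : ℝ) ^ 2 = 0 := by
    intro k
    simp [PP]
  simp only [h0, Finset.sum_const_zero, add_zero]
  simp [PP, Real.dist_eq, sq_abs]

theorem PP_inj {s : ℕ} (hs : 2 ≤ s) (J : Ins)
    (h : Function.Injective (fun x : Fin (NN J) × Fin 9 => Zp J ((cells J).get x.1) x.2)) :
    Function.Injective (PP s J) := by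
  intro i j hij
  have h0 := congrFun hij ⟨0, by omega⟩
  have h1 := congrFun hij ⟨1, by omega⟩
  simp [PP] at h0 h1
  have h2 : e9 _ i = e9 _ j := by
    apply h
    simp only
    exact Prod.ext h0 h1
  exact (e9 _).injective h2

open Classical in
theorem len_eq {s : ℕ} (hs : 2 ≤ s) (J : Ins) (H : SimpleGraph (Fin (NN J) × Fin 9)) :
    len (fun i => pt (PP s J i)) (H.comap (e9 _)) =
      wt (fun x y => dst (Zp J ((cells J).get x.1) x.2) (Zp J ((cells J).get y.1) y.2)) H := by
  unfold len wt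
  congr 1
  rw [← Equiv.sum_comp (e9 (NN J))]
  refine Finset.sum_congr rfl fun i _ => ?_
  rw [← Equiv.sum_comp (e9 (NN J))]
  refine Finset.sum_congr rfl fun j _ => ?_
  simp only [SimpleGraph.comap_adj, dist_pt hs]

theorem lamSum_eq (J : Ins) : (lamSum J : ℝ) =
    ∑ x : Fin (NN J) × Fin 9, (lp J ((cells J).get x.1) x.2 : ℝ) := by
  rw [Fintype.sum_prod_type]
  unfold lamSum
  have h1 : ∀ p : ℕ × ℕ, ((List.finRange 9).map fun q => lp J p q).sum = ∑ q : Fin 9, lp J p q := by
    intro p
    rw [← List.sum_ofFn, List.ofFn_eq_map]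
  simp only [h1]
  have h2 : ∀ (l : List (ℕ × ℕ)) (f : ℕ × ℕ → ℕ), (l.map f).sum = ∑ a : Fin l.length, f (l.get a) := by
    intro l f
    rw [← List.sum_ofFn]
    congr 1
    apply List.ext_getElem
    · simp
    · intro i h1 h2
      simp
  rw [h2]
  push_cast
  rfl

theorem NN_ge (J : Ins) : 3 ≤ NN J := by
  have h : ([(0, 0), (0, 1), (0, 2)] : List (ℕ × ℕ)) ⊆ cells J := by
    intro p hp
    rw [mem_cells]
    simp only [List.mem_cons, List.not_mem_nil, or_false] at hp
    rcases hp with rfl | rfl | rfl <;> simp [cell]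
  have := (List.Nodup.subperm (by decide) h).length_le
  simpa using this

theorem lp_ge (J : Ins) (p : ℕ × ℕ) (hp : p ∈ cells J) (q : Fin 9) :
    1000000000 * NN J ^ 3 ≤ lp J p q := by
  have hN := NN_ge J
  have hS : posS p ≤ BB J := by
    have := cell_bounds ((mem_cells J p).1 hp)
    unfold posS BB
    omega
  have hk : kk q ≤ 3 := by
    fin_cases q <;> decide
  have hl : lev (NN J) (posS p) q ≤ Lm (NN J) (BB J) := by
    unfold lev Lm dl
    nlinarith
  have hL : 100 * NN J ≤ Lm (NN J) (BB J) := by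
    unfold Lm dl
    nlinarith [Nat.zero_le (NN J * BB J)]
  have hW : 1000000000 * NN J ^ 3 ≤ Wp (NN J) (BB J) := by
    unfold Wp
    have := Nat.pow_le_pow_left hL 3
    nlinarith
  have hWL : Lm (NN J) (BB J) + 1 ≤ Wp (NN J) (BB J) := by
    unfold Wp
    have h1 : 1 ≤ Lm (NN J) (BB J) := by omega
    have h2 : Lm (NN J) (BB J) ^ 1 ≤ Lm (NN J) (BB J) ^ 3 := Nat.pow_le_pow_right h1 (by omega)
    rw [pow_one] at h2
    omega
  have hT : 1 ≤ Tp (NN J) (BB J) := by
    unfold Tp Gm
    have : 1 ≤ Wp (NN J) (BB J) := by omega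
    nlinarith
  have hr : 1 ≤ rad (NN J) (BB J) (col (posD J p) q) (lev (NN J) (posS p) q) := by
    unfold rad
    split_ifs <;> omega
  have hT2 : 1 ≤ Tp (NN J) (BB J) ^ 2 := Nat.one_le_pow _ _ hT
  have hc : Wp (NN J) (BB J) ≤ 4 * Tp (NN J) (BB J) ^ 2 * Wp (NN J) (BB J) - 2 * Wp (NN J) (BB J) := by
    have : 4 * Wp (NN J) (BB J) ≤ 4 * Tp (NN J) (BB J) ^ 2 * Wp (NN J) (BB J) := by nlinarith
    omega
  unfold lp lamc
  calc 1000000000 * NN J ^ 3 ≤ Wp (NN J) (BB J) * 1 := by omega
    _ ≤ (4 * Tp (NN J) (BB J) ^ 2 * Wp (NN J) (BB J) - 2 * Wp (NN J) (BB J)) *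
        rad (NN J) (BB J) (col (posD J p) q) (lev (NN J) (posS p) q) := Nat.mul_le_mul hc hr
    _ ≤ _ := Nat.le_add_right _ _

theorem LL_cast (J : Ins) : (LL J : ℝ) = thr (N := NN J) (fun x => (lp J ((cells J).get x.1) x.2 : ℝ)) := by
  have h1 : 20000 * NN J ^ 3 + 5000 * NN J ^ 2 ≤ 4 * lamSum J := by
    have h2 : ∀ l : List (ℕ × ℕ), (∀ p ∈ l, p ∈ cells J) → l.length * (1000000000 * NN J ^ 3) ≤
        (l.map fun p => ((List.finRange 9).map fun q => lp J p q).sum).sum := by
      intro l
      induction l with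
      | nil => simp
      | cons a l ih =>
        intro h
        have h3 := ih (fun p hp => h p (List.mem_cons_of_mem _ hp))
        have h4 := lp_ge J a (h a List.mem_cons_self) 0
        have h5 : lp J a 0 ≤ ((List.finRange 9).map fun q => lp J a q).sum :=
          List.single_le_sum (by simp) _ (List.mem_map.2 ⟨0, List.mem_finRange _, rfl⟩)
        rw [List.map_cons, List.sum_cons, List.length_cons]
        nlinarith
    have h3 := h2 (cells J) (fun p hp => hp)
    have h4 := NN_ge J
    have h5 : NN J ^ 2 ≤ NN J ^ 3 := Nat.pow_le_pow_right (by omega) (by omega)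
    have h6 : 1000000000 * NN J ^ 3 ≤ lamSum J := by
      refine le_trans ?_ h3
      have : 1 ≤ (cells J).length := by have := h4; unfold NN at this; omega
      nlinarith [Nat.zero_le (NN J ^ 3)]
    omega
  unfold LL thr
  rw [Nat.cast_sub h1]
  push_cast
  rw [lamSum_eq]
  ring

/-- Correctness of the reduction. -/
theorem reduction_correct (hSA : StmtSoundA) (hCA : StmtCompA) (hG : StmtGeo)
    (hGS : StmtGridSound) (hGC : StmtGridComp) {s : ℕ} (hs : 2 ≤ s) (J : Ins) :
    encode (PP s J) (LL J : ℚ) ∈ Max2PSP s ↔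
      ∃ a : ℕ → Bool, ∀ k < J.M, ∃ i < J.n, J.lit i (a i) k = true := by
  have hN := NN_ge J
  obtain ⟨geo, hinj⟩ := hG (NN J) (BB J) (cD J) (cS J) (by omega) (cD_le J) (cS_le J) (c_inj J)
    (c_par J)
  have key : (∃ H₁ H₂ : SimpleGraph (Fin (NN J) × Fin 9), IsTour H₁ ∧ IsTour H₂ ∧
      (∀ x y, H₁.Adj x y → ¬ H₂.Adj x y) ∧
      thr (N := NN J) (fun x => (lp J ((cells J).get x.1) x.2 : ℝ)) ≤
        wt (fun x y => dst (Zp J ((cells J).get x.1) x.2) (Zp J ((cells J).get y.1) y.2)) H₁ +
        wt (fun x y => dst (Zp J ((cells J).get x.1) x.2) (Zp J ((cells J).get y.1) y.2)) H₂) ↔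
      ∃ a : ℕ → Bool, ∀ k < J.M, ∃ i < J.n, J.lit i (a i) k = true := by
    constructor
    · intro h
      exact hGS J ((grid_tie J).2 (hSA _ _ _ _ _ hN geo h))
    · intro h
      exact hCA _ _ _ _ _ geo ((grid_tie J).1 (hGC J h))
  rw [← key]
  constructor
  · rintro ⟨n, P, L, he, _, H₁, H₂, t1, t2, hd, hL⟩
    obtain ⟨rfl, hP, hL'⟩ := encode_inj (by omega) he
    have hP' : PP s J = P := funext fun i => by rw [hP i]; rfl
    subst hP'
    subst hL'
    refine ⟨H₁.comap (e9 _).symm, H₂.comap (e9 _).symm, (isTour_comap _ _).2 t1,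
      (isTour_comap _ _).2 t2, fun x y h => hd _ _ h, ?_⟩
    rw [← len_eq hs, ← len_eq hs, comap_symm, comap_symm, ← LL_cast]
    simpa using hL
  · rintro ⟨H₁, H₂, t1, t2, hd, hL⟩
    refine ⟨_, PP s J, (LL J : ℚ), rfl, PP_inj hs J hinj, H₁.comap (e9 _), H₂.comap (e9 _),
      (isTour_comap _ _).2 t1, (isTour_comap _ _).2 t2, fun x y h => hd _ _ h, ?_⟩
    rw [len_eq hs, len_eq hs]
    rw [← LL_cast] at hL
    simpa using hL

end Pool.Agent.Psp81
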