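import Pool.Agent.Lib_MP_95a0ff_lc.Stmts
import Mathlib.Tactic

/-!
# Module CompA: from a Hamiltonian cycle of the tie graph to two edge-disjoint tours
-/

namespace Pool.Agent.Psp81

namespace CompA

/-- The red (`false`) and blue (`true`) Hamiltonian paths of a cluster. -/
def P : Bool → Fin 3 → Fin 9 → Fin 9
  | false => ![![0, 2, 6, 3, 7, 4, 8, 5, 1], ![0, 2, 1, 3, 6, 4, 7, 5, 8],
      ![6, 2, 0, 3, 1, 4, 7, 5, 8]]
  | true => ![![1, 4, 6, 5, 7, 2, 8, 3, 0], ![1, 4, 0, 5, 6, 2, 8, 3, 7],
      ![7, 2, 1, 5, 0, 4, 8, 3, 6]]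

/-- Consecutive points of the path. -/
def con (c : Bool) (t : Fin 3) (q r : Fin 9) : Bool :=
  decide (∃ i : Fin 8, (P c t i.castSucc = q ∧ P c t i.succ = r) ∨
    (P c t i.castSucc = r ∧ P c t i.succ = q))

theorem con_symm : ∀ c t q r, con c t q r = con c t r q := by decide +kernel

theorem con_irrefl : ∀ c t q, con c t q q = false := by decide +kernel

theorem con_role : ∀ c t q r, con c t q r = true →
    (role q = role r + 1 ∨ role r = role q + 1) := by decide +kernel

theorem con_disj : ∀ t q r, con false t q r = true → con true t q r = false := by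
  decide +kernel

theorem con_deg : ∀ c t q, ((∑ r, if con c t q r = true then 1 else 0) +
    ((if q = P c t 0 then 1 else 0) + (if q = P c t 8 then 1 else 0)) : ℕ) = 2 := by
  decide +kernel

theorem con_tot : ∀ c t, (∑ q, ∑ r, if con c t q r = true then 1 else 0 : ℕ) = 16 := by
  decide +kernel

theorem P_ne : ∀ c t, P c t 0 ≠ P c t 8 := by decide +kernel

theorem P_ne0 : ∀ t, P false t 0 ≠ P true t 0 := by decide +kernel

theorem P_ne8 : ∀ t, P false t 8 ≠ P true t 8 := by decide +kernel

theorem P_surj : ∀ c t q, ∃ i, P c t i = q := by decide +kernel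

theorem P_con : ∀ c t (i : Fin 8), con c t (P c t i.castSucc) (P c t i.succ) = true := by
  decide +kernel

theorem role0 : ∀ c, role (P c 0 0) = 0 ∧ role (P c 0 8) = 0 ∧ role (P c 1 0) = 0 ∧
    role (P c 1 8) = 2 ∧ role (P c 2 0) = 2 ∧ role (P c 2 8) = 2 := by decide +kernel

open Classical in
theorem ncard_nb {V : Type} [Fintype V] (H : SimpleGraph V) (x : V) :
    (H.neighborSet x).ncard = ∑ y, if H.Adj x y then 1 else 0 := by
  rw [Set.ncard_eq_toFinset_card', Finset.sum_boole]
  simp only [Nat.cast_id]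
  congr 1
  ext y
  simp [SimpleGraph.mem_neighborSet]

/-! ## Graphs in which all degrees are two -/

open Classical in
theorem wt_eq {V : Type} [Fintype V] (d : V → V → ℝ) (lam : V → ℝ) (H : SimpleGraph V)
    (hH : ∀ v, (H.neighborSet v).ncard = 2) :
    wt d H = 2 * ∑ x, lam x - (∑ x, ∑ y, if H.Adj x y then lam x + lam y - d x y else 0) / 2 := by
  have h1 : ∑ x, ∑ y, (if H.Adj x y then lam x else 0) = 2 * ∑ x, lam x := by
    rw [Finset.mul_sum]
    refine Finset.sum_congr rfl fun x _ => ?_
    have : ∀ y, (if H.Adj x y then lam x else 0) =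
        lam x * ((if H.Adj x y then 1 else 0 : ℕ) : ℝ) := by
      intro y; split_ifs <;> simp
    simp_rw [this]
    rw [← Finset.mul_sum, ← Nat.cast_sum, ← ncard_nb, hH]
    push_cast; ring
  have h2 : ∑ x, ∑ y, (if H.Adj x y then lam y else 0) = 2 * ∑ x, lam x := by
    rw [← h1, Finset.sum_comm]
    refine Finset.sum_congr rfl fun x _ => Finset.sum_congr rfl fun y _ => ?_
    simp only [H.adj_comm]
  have h3 : ∑ x, ∑ y, (if H.Adj x y then lam x + lam y - d x y else 0) =
      ∑ x, ∑ y, (if H.Adj x y then lam x else 0) + ∑ x, ∑ y, (if H.Adj x y then lam y else 0) -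
        ∑ x, ∑ y, (if H.Adj x y then d x y else 0) := by
    rw [← Finset.sum_add_distrib, ← Finset.sum_sub_distrib]
    refine Finset.sum_congr rfl fun x _ => ?_
    rw [← Finset.sum_add_distrib, ← Finset.sum_sub_distrib]
    refine Finset.sum_congr rfl fun y _ => ?_
    split_ifs <;> simp
  unfold wt
  rw [h3, h1, h2]
  ring

/-! ## The construction -/

section
variable {N : ℕ} (F : SimpleGraph (Fin N)) (b1 b2 : Fin N → Fin N) (ty : Fin N → Fin 3)

/-- The port of the bar `a` for the neighbour `b`. -/
def port (c : Bool) (a b : Fin N) : Fin 9 := if b = b1 a then P c (ty a) 0 else P c (ty a) 8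

/-- The tour of colour `c`. -/
def HG (c : Bool) : SimpleGraph (Fin N × Fin 9) where
  Adj x y := (x.1 = y.1 ∧ con c (ty x.1) x.2 y.2 = true) ∨
    (F.Adj x.1 y.1 ∧ x.2 = port b1 ty c x.1 y.1 ∧ y.2 = port b1 ty c y.1 x.1)
  symm := ⟨fun x y h => by
    rcases h with ⟨h1, h2⟩ | ⟨h1, h2, h3⟩
    · left
      refine ⟨h1.symm, ?_⟩
      rw [con_symm, ← h1]; exact h2
    · right
      exact ⟨h1.symm, h3, h2⟩⟩
  loopless := ⟨fun x h => by
    rcases h with ⟨h1, h2⟩ | ⟨h1, h2, h3⟩
    · rw [con_irrefl] at h2; exact Bool.noConfusion h2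
    · exact F.loopless.irrefl _ h1⟩

variable (hne : ∀ a, b1 a ≠ b2 a) (hnb : ∀ a b, F.Adj a b ↔ b = b1 a ∨ b = b2 a)
include hne hnb

open Classical in
theorem sumF (a : Fin N) (g : Fin N → ℝ) :
    ∑ b, (if F.Adj a b then g b else 0) = g (b1 a) + g (b2 a) := by
  have : ∀ b, (if F.Adj a b then g b else 0) =
      (if b = b1 a then g b else 0) + (if b = b2 a then g b else 0) := by
    intro b
    by_cases h1 : b = b1 a
    · have h2 : b ≠ b2 a := fun h => hne a (h1.symm.trans h)
      have h3 : F.Adj a b := (hnb a b).2 (Or.inl h1)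
      rw [if_pos h3, if_pos h1, if_neg h2, add_zero]
    · by_cases h2 : b = b2 a
      · have h3 : F.Adj a b := (hnb a b).2 (Or.inr h2)
        rw [if_pos h3, if_neg h1, if_pos h2, zero_add]
      · have h3 : ¬ F.Adj a b := fun h => by
          rcases (hnb a b).1 h with h | h
          · exact h1 h
          · exact h2 h
        rw [if_neg h3, if_neg h1, if_neg h2, add_zero]
  simp_rw [this]
  rw [Finset.sum_add_distrib]
  simp

open Classical in
theorem sumH (c : Bool) (a : Fin N) (q : Fin 9) (f : Fin N × Fin 9 → ℝ) :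
    ∑ y, (if (HG F b1 ty c).Adj (a, q) y then f y else 0) =
      ∑ r, (if con c (ty a) q r = true then f (a, r) else 0) +
      ((if q = P c (ty a) 0 then f (b1 a, port b1 ty c (b1 a) a) else 0) +
        (if q = P c (ty a) 8 then f (b2 a, port b1 ty c (b2 a) a) else 0)) := by
  rw [Fintype.sum_prod_type]
  have key : ∀ b, ∑ r, (if (HG F b1 ty c).Adj (a, q) (b, r) then f (b, r) else 0) =
      (if b = a then ∑ r, (if con c (ty a) q r = true then f (a, r) else 0) else 0) +
      (if F.Adj a b then (if q = port b1 ty c a b then f (b, port b1 ty c b a) else 0) else 0) := by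
    intro b
    by_cases hab : b = a
    · subst hab
      have h3 : ¬ F.Adj b b := F.loopless.irrefl _
      rw [if_pos rfl, if_neg h3, add_zero]
      refine Finset.sum_congr rfl fun r _ => ?_
      simp [HG]
    · rw [if_neg hab, zero_add]
      by_cases h3 : F.Adj a b
      · rw [if_pos h3]
        by_cases h4 : q = port b1 ty c a b
        · rw [if_pos h4]
          rw [Finset.sum_eq_single (port b1 ty c b a)]
          · rw [if_pos]
            right
            exact ⟨h3, h4, rfl⟩
          · intro r _ hr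
            rw [if_neg]
            rintro (⟨h, _⟩ | ⟨_, _, h⟩)
            · exact hab h.symm
            · exact hr h
          · intro h; exact absurd (Finset.mem_univ _) h
        · rw [if_neg h4]
          refine Finset.sum_eq_zero fun r _ => ?_
          rw [if_neg]
          rintro (⟨h, _⟩ | ⟨_, h, _⟩)
          · exact hab h.symm
          · exact h4 h
      · rw [if_neg h3]
        refine Finset.sum_eq_zero fun r _ => ?_
        rw [if_neg]
        rintro (⟨h, _⟩ | ⟨h, _, _⟩)
        · exact hab h.symm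
        · exact h3 h
  rw [Finset.sum_congr rfl fun b _ => key b, Finset.sum_add_distrib,
    sumF F b1 b2 hne hnb a]
  congr 1
  · simp
  · have e1 : port b1 ty c a (b1 a) = P c (ty a) 0 := by simp [port]
    have e2 : port b1 ty c a (b2 a) = P c (ty a) 8 := by simp [port, (hne a).symm]
    rw [e1, e2]

theorem degH (c : Bool) (v : Fin N × Fin 9) :
    ((HG F b1 ty c).neighborSet v).ncard = 2 := by
  classical
  obtain ⟨a, q⟩ := v
  have h := sumH F b1 b2 ty hne hnb c a q (fun _ => (1 : ℝ))
  have h2 := con_deg c (ty a) q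
  rw [ncard_nb]
  have h3 : ((∑ y, if (HG F b1 ty c).Adj (a, q) y then 1 else 0 : ℕ) : ℝ) = 2 := by
    push_cast
    rw [h]
    have h4 : (((∑ r, if con c (ty a) q r = true then 1 else 0) +
      ((if q = P c (ty a) 0 then 1 else 0) + (if q = P c (ty a) 8 then 1 else 0)) : ℕ) : ℝ) = 2 := by
      rw [h2]; norm_num
    push_cast at h4
    exact h4
  exact_mod_cast h3

omit hne hnb in
theorem reach_in (c : Bool) (a : Fin N) (i : Fin 9) :
    (HG F b1 ty c).Reachable (a, P c (ty a) 0) (a, P c (ty a) i) := by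
  induction i using Fin.induction with
  | zero => exact SimpleGraph.Reachable.refl _
  | succ i ih =>
    refine ih.trans (SimpleGraph.Adj.reachable ?_)
    left
    exact ⟨rfl, P_con c (ty a) i⟩

omit hne hnb in
theorem reach_in' (c : Bool) (a : Fin N) (q r : Fin 9) :
    (HG F b1 ty c).Reachable (a, q) (a, r) := by
  obtain ⟨i, rfl⟩ := P_surj c (ty a) q
  obtain ⟨j, rfl⟩ := P_surj c (ty a) r
  exact (reach_in F b1 ty c a i).symm.trans (reach_in F b1 ty c a j)

omit hne hnb in
theorem reach_F (c : Bool) (a b : Fin N) (h : F.Reachable a b) (q r : Fin 9) :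
    (HG F b1 ty c).Reachable (a, q) (b, r) := by
  obtain ⟨w⟩ := h
  induction w generalizing q with
  | nil => exact reach_in' F b1 ty c _ q r
  | @cons u v w hadj p ih =>
    have h1 : (HG F b1 ty c).Adj (u, port b1 ty c u v) (v, port b1 ty c v u) :=
      Or.inr ⟨hadj, rfl, rfl⟩
    exact ((reach_in' F b1 ty c u q _).trans h1.reachable).trans (ih _)

theorem tourH (hF : F.Connected) (c : Bool) : IsTour (HG F b1 ty c) := by
  refine ⟨?_, degH F b1 b2 ty hne hnb c⟩
  have := hF.nonempty
  obtain ⟨a⟩ := this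
  have : Nonempty (Fin N × Fin 9) := ⟨(a, 0)⟩
  refine SimpleGraph.Connected.mk ?_
  rintro ⟨a, q⟩ ⟨b, r⟩
  exact reach_F F b1 ty c a b (hF.preconnected a b) q r

omit hne hnb in
theorem disjH (x y : Fin N × Fin 9) (h : (HG F b1 ty false).Adj x y) :
    ¬ (HG F b1 ty true).Adj x y := by
  rintro h'
  rcases h with ⟨h1, h2⟩ | ⟨h1, h2, h3⟩
  · rcases h' with ⟨h4, h5⟩ | ⟨h4, h5, h6⟩
    · rw [con_disj _ _ _ h2] at h5; exact Bool.noConfusion h5
    · rw [h1] at h4
      exact F.loopless.irrefl _ h4
  · rcases h' with ⟨h4, h5⟩ | ⟨h4, h5, h6⟩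
    · rw [h4] at h1
      exact F.loopless.irrefl _ h1
    · have h7 : port b1 ty false x.1 y.1 = port b1 ty true x.1 y.1 := h2.symm.trans h5
      unfold port at h7
      split_ifs at h7
      · exact P_ne0 _ h7
      · exact P_ne8 _ h7

/-- The cost of a tour. -/
theorem costH (c : Bool) (e : Fin N × Fin 9 → Fin N × Fin 9 → ℝ) (A C : ℝ)
    (hA : ∀ a q r, con c (ty a) q r = true → e (a, q) (a, r) ≤ A)
    (hC : ∀ a b, F.Adj a b → e (a, port b1 ty c a b) (b, port b1 ty c b a) ≤ C) :
    (∑ x, ∑ y, open Classical in if (HG F b1 ty c).Adj x y then e x y else 0) ≤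
      N * (16 * A + 2 * C) := by
  classical
  rw [Fintype.sum_prod_type]
  have hb : ∀ a : Fin N, ∑ q, ∑ y, (if (HG F b1 ty c).Adj (a, q) y then e (a, q) y else 0) ≤
      16 * A + 2 * C := by
    intro a
    have e1 : port b1 ty c a (b1 a) = P c (ty a) 0 := by simp [port]
    have e2 : port b1 ty c a (b2 a) = P c (ty a) 8 := by simp [port, (hne a).symm]
    have h1 : ∀ q, ∑ y, (if (HG F b1 ty c).Adj (a, q) y then e (a, q) y else 0) =
        ∑ r, (if con c (ty a) q r = true then e (a, q) (a, r) else 0) +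
        ((if q = P c (ty a) 0 then e (a, q) (b1 a, port b1 ty c (b1 a) a) else 0) +
        (if q = P c (ty a) 8 then e (a, q) (b2 a, port b1 ty c (b2 a) a) else 0)) := fun q =>
      sumH F b1 b2 ty hne hnb c a q (e (a, q))
    rw [Finset.sum_congr rfl fun q _ => h1 q, Finset.sum_add_distrib, Finset.sum_add_distrib]
    have h2 : ∑ q, ∑ r, (if con c (ty a) q r = true then e (a, q) (a, r) else 0) ≤ 16 * A := by
      have h3 : ∀ q r, (if con c (ty a) q r = true then e (a, q) (a, r) else 0) ≤
          A * ((if con c (ty a) q r = true then 1 else 0 : ℕ) : ℝ) := by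
        intro q r
        by_cases h : con c (ty a) q r = true
        · rw [if_pos h, if_pos h]; simpa using hA a q r h
        · rw [if_neg h, if_neg h]; simp
      calc ∑ q, ∑ r, (if con c (ty a) q r = true then e (a, q) (a, r) else 0)
          ≤ ∑ q, ∑ r, A * ((if con c (ty a) q r = true then 1 else 0 : ℕ) : ℝ) :=
            Finset.sum_le_sum fun q _ => Finset.sum_le_sum fun r _ => h3 q r
        _ = A * ((∑ q, ∑ r, if con c (ty a) q r = true then 1 else 0 : ℕ) : ℝ) := by
            push_cast
            rw [Finset.mul_sum]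
            refine Finset.sum_congr rfl fun q _ => ?_
            rw [Finset.mul_sum]
        _ = 16 * A := by rw [con_tot]; push_cast; ring
    have h4 : ∑ q, (if q = P c (ty a) 0 then e (a, q) (b1 a, port b1 ty c (b1 a) a) else 0) ≤
        C := by
      rw [Finset.sum_ite_eq' Finset.univ (P c (ty a) 0)]
      rw [if_pos (Finset.mem_univ _), ← e1]
      exact hC a (b1 a) ((hnb a _).2 (Or.inl rfl))
    have h5 : ∑ q, (if q = P c (ty a) 8 then e (a, q) (b2 a, port b1 ty c (b2 a) a) else 0) ≤
        C := by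
      rw [Finset.sum_ite_eq' Finset.univ (P c (ty a) 8)]
      rw [if_pos (Finset.mem_univ _), ← e2]
      exact hC a (b2 a) ((hnb a _).2 (Or.inr rfl))
    linarith
  calc _ ≤ ∑ _a : Fin N, (16 * A + 2 * C) := Finset.sum_le_sum fun a _ => hb a
    _ = N * (16 * A + 2 * C) := by simp; ring

end

end CompA

open CompA in
theorem compA : StmtCompA := by
  classical
  intro N D S d lam hG ⟨F, hFt, hFc, hFd⟩
  -- the neighbours
  have hex : ∀ a, ∃ b c, b ≠ c ∧ (∀ x, F.Adj a x ↔ x = b ∨ x = c) ∧
      (D b = D a + 1 → D c = D a + 1) := by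
    intro a
    obtain ⟨x, y, hxy, hs⟩ := Set.ncard_eq_two.1 (hFd a)
    have hm : ∀ z, F.Adj a z ↔ z = x ∨ z = y := by
      intro z
      rw [← SimpleGraph.mem_neighborSet, hs]
      simp
    by_cases h : D x = D a + 1 → D y = D a + 1
    · exact ⟨x, y, hxy, hm, h⟩
    · push Not at h
      refine ⟨y, x, hxy.symm, fun z => by rw [hm z]; exact Or.comm, fun h' => absurd h' h.2⟩
  choose b1 b2 hne hnb hord using hex
  set ty : Fin N → Fin 3 := fun a => if D (b1 a) = D a + 1 then 2 else
    if D (b2 a) = D a + 1 then 1 else 0 with hty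
  have hN : 1 ≤ N := by
    obtain ⟨a⟩ := hFc.nonempty
    exact Nat.one_le_iff_ne_zero.2 (fun h => by subst h; exact a.elim0)
  refine ⟨HG F b1 ty false, HG F b1 ty true, tourH F b1 b2 ty hne hnb hFc false,
    tourH F b1 b2 ty hne hnb hFc true, disjH F b1 ty, ?_⟩
  -- roles of the ports
  have hrole : ∀ c a b, F.Adj a b → role (port b1 ty c a b) = if D b = D a + 1 then 2 else 0 := by
    intro c a b hab
    obtain ⟨r1, r2, r3, r4, r5, r6⟩ := role0 c
    rcases (hnb a b).1 hab with h | h
    · subst h
      have e1 : port b1 ty c a (b1 a) = P c (ty a) 0 := by simp [port]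
      rw [e1]
      by_cases h1 : D (b1 a) = D a + 1
      · have : ty a = 2 := by simp [hty, h1]
        rw [this, if_pos h1, r5]
      · rw [if_neg h1]
        by_cases h2 : D (b2 a) = D a + 1
        · have : ty a = 1 := by simp [hty, h1, h2]
          rw [this, r3]
        · have : ty a = 0 := by simp [hty, h1, h2]
          rw [this, r1]
    · subst h
      have e2 : port b1 ty c a (b2 a) = P c (ty a) 8 := by simp [port, (hne a).symm]
      rw [e2]
      by_cases h2 : D (b2 a) = D a + 1
      · rw [if_pos h2]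
        by_cases h1 : D (b1 a) = D a + 1
        · have : ty a = 2 := by simp [hty, h1]
          rw [this, r6]
        · have : ty a = 1 := by simp [hty, h1, h2]
          rw [this, r4]
      · rw [if_neg h2]
        have h1 : ¬ D (b1 a) = D a + 1 := fun h => h2 (hord a h)
        have : ty a = 0 := by simp [hty, h1, h2]
        rw [this, r2]
  -- the costs
  have hcost : ∀ c, (∑ x, ∑ y, if (HG F b1 ty c).Adj x y then lam x + lam y - d x y else 0) ≤
      N * (16 * 20 + 2 * ((100 * N + 3 : ℝ) ^ 2 + 5)) := by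
    intro c
    refine costH F b1 b2 ty hne hnb c (fun x y => lam x + lam y - d x y) 20 _ ?_ ?_
    · intro a q r h
      exact hG.int (a, q) (a, r) rfl (con_role _ _ _ _ h)
    · intro a b hab
      have htie := hFt hab
      have h1 := hrole c a b hab
      have h2 := hrole c b a hab.symm
      rcases htie.1 with h | h
      · -- `D a = D b + 1`
        rw [if_neg (by omega)] at h1
        rw [if_pos h] at h2
        have := hG.tie (b, port b1 ty c b a) (a, port b1 ty c a b)
          (hFt hab.symm) h h2 h1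
        rw [hG.symm] at this
        show lam (a, port b1 ty c a b) + lam (b, port b1 ty c b a) -
          d (a, port b1 ty c a b) (b, port b1 ty c b a) ≤ _
        linarith
      · rw [if_pos h] at h1
        rw [if_neg (by omega)] at h2
        exact hG.tie (a, port b1 ty c a b) (b, port b1 ty c b a) htie h h1 h2
  have w1 := wt_eq d lam (HG F b1 ty false) (degH F b1 b2 ty hne hnb false)
  have w2 := wt_eq d lam (HG F b1 ty true) (degH F b1 b2 ty hne hnb true)
  have c1 := hcost false
  have c2 := hcost true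
  have hNr : (1 : ℝ) ≤ N := by exact_mod_cast hN
  unfold thr
  rw [w1, w2]
  nlinarith [c1, c2, hNr, mul_self_nonneg ((N : ℝ) - 1)]

end Pool.Agent.Psp81
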