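import Mathlib.Analysis.InnerProductSpace.PiL2
import Mathlib.Combinatorics.SimpleGraph.Connectivity.Connected
import Mathlib.Data.Nat.Bits
import Mathlib.Data.List.FinRange
import Mathlib.Data.Set.Card
import Pool.Agent.Lib_MP_33ea09_lc.Defs

/-!
# The Euclidean maximum 2-peripatetic salesman problem
-/

namespace Pool.Agent.Psp81

/-- A Hamiltonian cycle of the complete graph on the vertex set `V`, given as the graph formed by
its edges: it is connected and every vertex has degree two. -/
def IsTour {V : Type} (H : SimpleGraph V) : Prop :=
  H.Connected ∧ ∀ v, (H.neighborSet v).ncard = 2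

open Classical in
/-- The length of a set of edges between the points `P 0, …, P (n - 1)` of `ℝ^s`. -/
noncomputable def len {n s : ℕ} (P : Fin n → EuclideanSpace ℝ (Fin s)) (H : SimpleGraph (Fin n)) :
    ℝ :=
  (∑ x, ∑ y, if H.Adj x y then dist (P x) (P y) else 0) / 2

/-- The point of `ℝ^s` with given rational coordinates. -/
noncomputable def pt {s : ℕ} (p : Fin s → ℚ) : EuclideanSpace ℝ (Fin s) :=
  WithLp.toLp 2 fun i => (p i : ℝ)

/-- A rational number in binary: the sign, the numerator, a separator, the denominator, and a
separator. -/
def encQ (q : ℚ) : List (Option Bool) :=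
  some (decide (q < 0)) :: ((Nat.bits q.num.natAbs).map some ++ none ::
    ((Nat.bits q.den).map some ++ [none]))

/-- An instance as a string: the coordinates of the points, and then the bound. -/
def encode {n s : ℕ} (P : Fin n → Fin s → ℚ) (L : ℚ) : List (Option Bool) :=
  (List.finRange n).flatMap (fun i => (List.finRange s).flatMap fun k => encQ (P i k)) ++ encQ L

/-- The decision version of the Euclidean Max-2-PSP in `ℝ^s`: given distinct points with rational
coordinates and a rational number `L`, are there two Hamiltonian cycles without common edges and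
of total length at least `L`? -/
def Max2PSP (s : ℕ) : Set (List (Option Bool)) :=
  {w | ∃ (n : ℕ) (P : Fin n → Fin s → ℚ) (L : ℚ), w = encode P L ∧ Function.Injective P ∧
    ∃ H₁ H₂ : SimpleGraph (Fin n), IsTour H₁ ∧ IsTour H₂ ∧ (∀ x y, H₁.Adj x y → ¬ H₂.Adj x y) ∧
      (L : ℝ) ≤ len (fun i => pt (P i)) H₁ + len (fun i => pt (P i)) H₂}

end Pool.Agent.Psp81
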