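import Pool.Agent.Lib_MP_95a0ff_lc.Stmts

namespace Pool.Agent.Psp81

/-- The parameters over the reals. -/
structure Par (L g W T : ℝ) : Prop where
  hL : 100 ≤ L
  hg : 3 ≤ g
  hW : W = 1000 * L ^ 3
  hT : T = 100 * W * g

namespace Par

variable {L g W T : ℝ} (h : Par L g W T)
include h

theorem W_ge : 10000000 * L ≤ W := by
  have := h.hL
  rw [h.hW]
  nlinarith [mul_nonneg (sub_nonneg.2 this) (sub_nonneg.2 this), mul_nonneg (mul_nonneg (sub_nonneg.2 this) (sub_nonneg.2 this)) (by linarith : (0:ℝ) ≤ L)]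

theorem L2 : 100000 * L ^ 2 ≤ W := by
  have := h.hL
  rw [h.hW]
  nlinarith [mul_nonneg (sub_nonneg.2 this) (sq_nonneg L)]

theorem Wpos : 1000000000 ≤ W := by have := h.W_ge; have := h.hL; linarith

theorem Lpos : 0 < L := by have := h.hL; linarith

theorem T_ge : 300 * W ≤ T := by
  rw [h.hT]
  nlinarith [mul_nonneg (by linarith [h.hg] : (0:ℝ) ≤ g - 3) (by linarith [h.Wpos] : (0:ℝ) ≤ W)]

theorem Tpos : 0 < T := by linarith [h.T_ge, h.Wpos]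

theorem T2 : T ^ 2 = 10000 * W ^ 2 * g ^ 2 := by rw [h.hT]; ring

theorem gT : g * 10000000 ≤ T := by
  rw [h.hT]
  have hg := h.hg
  nlinarith [mul_nonneg (by linarith [h.hg] : (0:ℝ) ≤ g) (by linarith [h.Wpos] : (0:ℝ) ≤ W - 1000000000)]

theorem T2W : 90000 * W ^ 2 ≤ T ^ 2 := by
  have := h.T_ge
  have h1 := h.Wpos
  nlinarith

/-- The upper bound for adjacent columns. -/
theorem up (θ m σ R : ℝ) (h0 : T ^ 2 * (1 - θ) ≤ 2 * g ^ 2) (hm : -L ≤ m) (hm' : m ≤ L)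
    (hs : 0 ≤ σ) (hs' : σ ≤ 2 * L) (hR : R = 2 * W + m) :
    16 * T ^ 4 * W ^ 2 * R ^ 2 - 16 * T ^ 2 * W ^ 2 * θ * (R ^ 2 - σ ^ 2) ≤
      (4 * T ^ 2 * W * R - 2 * W * R + σ ^ 2 + 1) ^ 2 := by
  have hW := h.Wpos
  have hWL := h.W_ge
  have hL := h.hL
  have hT2 := h.T2
  have hTW := h.T2W
  have hLW := h.hW
  have hL2 := h.L2
  have hT0 : 0 < T ^ 2 := by have := h.Tpos; positivity
  have hR1 : 19 / 10 * W ≤ R := by linarith
  have hR2 : R ≤ 21 / 10 * W := by linarith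
  have hσ : σ ^ 2 ≤ 4 * L ^ 2 := by nlinarith
  have hσ' : σ ^ 2 ≤ W := by linarith [sq_nonneg L]
  have hRR : R ^ 2 ≤ 5 * W ^ 2 := by nlinarith
  have hσR : σ ^ 2 ≤ R ^ 2 := by nlinarith
  -- the main comparison
  have e1 : T ^ 2 * (R ^ 2 - θ * (R ^ 2 - σ ^ 2)) ≤ 2 * g ^ 2 * R ^ 2 + T ^ 2 * σ ^ 2 := by
    have : T ^ 2 * (1 - θ) * (R ^ 2 - σ ^ 2) ≤ 2 * g ^ 2 * (R ^ 2 - σ ^ 2) :=
      mul_le_mul_of_nonneg_right h0 (by linarith)
    nlinarith [mul_nonneg (sq_nonneg g) (sq_nonneg σ)]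
  have e2 : 16 * T ^ 2 * W ^ 2 * σ ^ 2 - 8 * T ^ 2 * W * (L * (4 * L ^ 2)) ≤ 8 * T ^ 2 * W * R * σ ^ 2 := by
    have : -(L * (4 * L ^ 2)) ≤ m * σ ^ 2 := by nlinarith [sq_nonneg σ, mul_nonneg (sub_nonneg.2 hm) (sq_nonneg σ)]
    have h2 : 0 ≤ 8 * T ^ 2 * W := by positivity
    have h3 := mul_le_mul_of_nonneg_left this h2
    rw [hR]
    nlinarith
  have e3 : 8 * T ^ 2 * W * (L * (4 * L ^ 2)) = 32 / 1000 * (T ^ 2 * W ^ 2) := by
    have : L ^ 3 = W / 1000 := by linarith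
    calc 8 * T ^ 2 * W * (L * (4 * L ^ 2)) = 32 * T ^ 2 * W * L ^ 3 := by ring
      _ = _ := by rw [this]; ring
  have e4 : 15 * (T ^ 2 * W ^ 2) ≤ 8 * T ^ 2 * W * R := by
    have h2 : 0 ≤ 8 * T ^ 2 * W := by positivity
    nlinarith [mul_le_mul_of_nonneg_left hR1 h2]
  have e5 : 32 * W ^ 2 * (g ^ 2 * R ^ 2) ≤ 2 / 100 * (T ^ 2 * W ^ 2) := by
    have : g ^ 2 * R ^ 2 ≤ g ^ 2 * (5 * W ^ 2) := mul_le_mul_of_nonneg_left hRR (sq_nonneg g)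
    have h2 : 0 ≤ 32 * W ^ 2 := by positivity
    have h3 := mul_le_mul_of_nonneg_left this h2
    rw [hT2]
    nlinarith [mul_nonneg (mul_nonneg (sq_nonneg W) (sq_nonneg g)) (sq_nonneg W)]
  have e6 : 4 * W * R * (σ ^ 2 + 1) ≤ 1 * (T ^ 2 * W ^ 2) := by
    have a1 : σ ^ 2 + 1 ≤ 2 * W := by linarith
    have a2 : W * R ≤ W * (21 / 10 * W) := mul_le_mul_of_nonneg_left hR2 (by linarith)
    have a3 : 4 * (W * R) * (σ ^ 2 + 1) ≤ 4 * (W * (21 / 10 * W)) * (2 * W) := by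
      apply mul_le_mul _ a1 (by positivity) (by positivity)
      linarith
    have a4 : 1 ≤ W := by linarith
    have a5 : W ^ 2 * (90000 * W ^ 2) ≤ W ^ 2 * T ^ 2 := mul_le_mul_of_nonneg_left hTW (sq_nonneg W)
    have a6 : W ^ 3 ≤ W ^ 4 := pow_le_pow_right₀ a4 (by norm_num)
    nlinarith
  have key : 16 * W ^ 2 * (T ^ 2 * (R ^ 2 - θ * (R ^ 2 - σ ^ 2))) ≤
      4 * W ^ 2 * R ^ 2 + (σ ^ 2 + 1) ^ 2 + (8 * T ^ 2 * W * R - 4 * W * R) * (σ ^ 2 + 1) := by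
    have k1 := mul_le_mul_of_nonneg_left e1 (by positivity : 0 ≤ 16 * W ^ 2)
    have k2 : 0 ≤ 4 * W ^ 2 * R ^ 2 := by positivity
    have k3 : 0 ≤ (σ ^ 2 + 1) ^ 2 := by positivity
    have k4 : 0 ≤ T ^ 2 * W ^ 2 := by positivity
    have k5 : 16 * W ^ 2 * (2 * g ^ 2 * R ^ 2 + T ^ 2 * σ ^ 2) =
      32 * W ^ 2 * (g ^ 2 * R ^ 2) + 16 * T ^ 2 * W ^ 2 * σ ^ 2 := by ring
    have k6 : (8 * T ^ 2 * W * R - 4 * W * R) * (σ ^ 2 + 1) =
      8 * T ^ 2 * W * R * σ ^ 2 + 8 * T ^ 2 * W * R - 4 * W * R * (σ ^ 2 + 1) := by ring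
    rw [k6]
    linarith
  nlinarith [key]

/-- The lower bound for adjacent columns. -/
theorem lo (θ m σ R : ℝ) (h1 : θ ≤ 1) (hm : -L ≤ m) (hm' : m ≤ L)
    (hs : 0 ≤ σ) (hs' : σ ≤ 2 * L) (hR : R = 2 * W + m) :
    (4 * T ^ 2 * W * R - 2 * W * R + σ ^ 2 - 1) ^ 2 ≤
    16 * T ^ 4 * W ^ 2 * R ^ 2 - 16 * T ^ 2 * W ^ 2 * θ * (R ^ 2 - σ ^ 2) := by
  have hW := h.Wpos
  have hWL := h.W_ge
  have hL := h.hL
  have hT2 := h.T2
  have hTW := h.T2W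
  have hLW := h.hW
  have hL2 := h.L2
  have hT0 : 0 < T ^ 2 := by have := h.Tpos; positivity
  have hR1 : 19 / 10 * W ≤ R := by linarith
  have hR2 : R ≤ 21 / 10 * W := by linarith
  have hσ : σ ^ 2 ≤ 4 * L ^ 2 := by nlinarith
  have hσ' : σ ^ 2 ≤ W := by linarith [sq_nonneg L]
  have hRR : R ^ 2 ≤ 5 * W ^ 2 := by nlinarith
  have hσR : σ ^ 2 ≤ R ^ 2 := by nlinarith
  have e1 : 16 * T ^ 2 * W ^ 2 * σ ^ 2 ≤ 16 * T ^ 2 * W ^ 2 * (R ^ 2 - θ * (R ^ 2 - σ ^ 2)) := by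
    have : 0 ≤ (1 - θ) * (R ^ 2 - σ ^ 2) := mul_nonneg (by linarith) (by linarith)
    have h2 : 0 ≤ 16 * T ^ 2 * W ^ 2 := by positivity
    nlinarith [mul_nonneg h2 this]
  have e2 : 8 * T ^ 2 * W * R * σ ^ 2 ≤ 16 * T ^ 2 * W ^ 2 * σ ^ 2 + 8 * T ^ 2 * W * (L * (4 * L ^ 2)) := by
    have : m * σ ^ 2 ≤ L * (4 * L ^ 2) := by nlinarith [sq_nonneg σ, mul_nonneg (sub_nonneg.2 hm') (sq_nonneg σ)]
    have h2 : 0 ≤ 8 * T ^ 2 * W := by positivity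
    have h3 := mul_le_mul_of_nonneg_left this h2
    rw [hR]
    nlinarith
  have e3 : 8 * T ^ 2 * W * (L * (4 * L ^ 2)) = 32 / 1000 * (T ^ 2 * W ^ 2) := by
    have : L ^ 3 = W / 1000 := by linarith
    calc 8 * T ^ 2 * W * (L * (4 * L ^ 2)) = 32 * T ^ 2 * W * L ^ 3 := by ring
      _ = _ := by rw [this]; ring
  have e4 : 15 * (T ^ 2 * W ^ 2) ≤ 8 * T ^ 2 * W * R := by
    have h2 : 0 ≤ 8 * T ^ 2 * W := by positivity
    nlinarith [mul_le_mul_of_nonneg_left hR1 h2]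
  have e5 : 4 * W ^ 2 * R ^ 2 ≤ 1 / 100 * (T ^ 2 * W ^ 2) := by
    have := mul_le_mul_of_nonneg_left hRR (sq_nonneg W)
    have a5 : W ^ 2 * (90000 * W ^ 2) ≤ W ^ 2 * T ^ 2 := mul_le_mul_of_nonneg_left hTW (sq_nonneg W)
    nlinarith
  have e6 : (σ ^ 2 - 1) ^ 2 ≤ 1 / 100 * (T ^ 2 * W ^ 2) := by
    have a1 : (σ ^ 2 - 1) ^ 2 ≤ (2 * W) ^ 2 := by
      apply sq_le_sq'
      · linarith [sq_nonneg σ]
      · linarith
    have a5 : W ^ 2 * (90000 * W ^ 2) ≤ W ^ 2 * T ^ 2 := mul_le_mul_of_nonneg_left hTW (sq_nonneg W)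
    have a6 : W ^ 2 ≤ W ^ 4 := pow_le_pow_right₀ (by linarith) (by norm_num)
    nlinarith
  have e7 : -(4 * W * R * (σ ^ 2 - 1)) ≤ 1 / 100 * (T ^ 2 * W ^ 2) := by
    have hR0 : 0 ≤ R := by linarith
    have a1 : 0 ≤ 4 * W * R := by positivity
    have a2 : W * R ≤ W * (21 / 10 * W) := mul_le_mul_of_nonneg_left hR2 (by linarith)
    have a5 : W ^ 2 * (90000 * W ^ 2) ≤ W ^ 2 * T ^ 2 := mul_le_mul_of_nonneg_left hTW (sq_nonneg W)
    have a6 : W ^ 2 ≤ W ^ 4 := pow_le_pow_right₀ (by linarith) (by norm_num)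
    nlinarith [mul_nonneg a1 (sq_nonneg σ)]
  have k6 : (4 * T ^ 2 * W * R - 2 * W * R + σ ^ 2 - 1) ^ 2 =
      16 * T ^ 4 * W ^ 2 * R ^ 2 - 16 * T ^ 2 * W ^ 2 * R ^ 2 + 4 * W ^ 2 * R ^ 2 + (σ ^ 2 - 1) ^ 2 +
      8 * T ^ 2 * W * R * σ ^ 2 - 8 * T ^ 2 * W * R - 4 * W * R * (σ ^ 2 - 1) := by ring
  rw [k6]
  have k7 : 16 * T ^ 2 * W ^ 2 * (R ^ 2 - θ * (R ^ 2 - σ ^ 2)) =
    16 * T ^ 2 * W ^ 2 * R ^ 2 - 16 * T ^ 2 * W ^ 2 * θ * (R ^ 2 - σ ^ 2) := by ring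
  have k4 : 0 ≤ T ^ 2 * W ^ 2 := by positivity
  linarith

/-- Opposite parity, not adjacent: the distance is small. -/
theorem far1 (θ k m σ R : ℝ) (h1 : 8 ≤ θ * k ^ 2) (hm : -L ≤ m) (hm' : m ≤ L)
    (hs : 0 ≤ σ) (hs' : σ ≤ 2 * L) (hR : R = 2 * W + m) :
    16 * T ^ 4 * W ^ 2 * R ^ 2 - 16 * T ^ 2 * W ^ 2 * θ * k ^ 2 * (R ^ 2 - σ ^ 2) ≤
      (4 * T ^ 2 * W * R - 12 * W * R) ^ 2 := by
  have hW := h.Wpos
  have hWL := h.W_ge
  have hL := h.hL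
  have hT0 : 0 < T ^ 2 := by have := h.Tpos; positivity
  have hR1 : 19 / 10 * W ≤ R := by linarith
  have hσR : 4 * σ ^ 2 ≤ R ^ 2 := by nlinarith
  have e1 : 16 * T ^ 2 * W ^ 2 * (8 * (R ^ 2 - σ ^ 2)) ≤
      16 * T ^ 2 * W ^ 2 * (θ * k ^ 2 * (R ^ 2 - σ ^ 2)) := by
    apply mul_le_mul_of_nonneg_left _ (by positivity)
    exact mul_le_mul_of_nonneg_right h1 (by linarith [sq_nonneg σ])
  have e2 : 16 * T ^ 2 * W ^ 2 * (6 * R ^ 2) ≤ 16 * T ^ 2 * W ^ 2 * (8 * (R ^ 2 - σ ^ 2)) := by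
    apply mul_le_mul_of_nonneg_left _ (by positivity)
    linarith
  have e3 : 0 ≤ 144 * W ^ 2 * R ^ 2 := by positivity
  nlinarith

/-- Same parity: the distance is small. -/
theorem far2 (C S ρ τ : ℝ) (hC : C ≤ 1) (hS : T ^ 2 * S ≤ g ^ 2)
    (hρ : ρ ^ 2 ≤ L ^ 2) (hτ : τ ^ 2 ≤ 5 * W ^ 2) :
    16 * T ^ 4 * W ^ 2 * (C * ρ ^ 2 + S * τ ^ 2) ≤ (2 * T ^ 2 * W ^ 2) ^ 2 := by
  have hW := h.Wpos
  have hL2 := h.L2
  have hT2 := h.T2
  have hT0 : 0 < T ^ 2 := by have := h.Tpos; positivity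
  have e1 : C * ρ ^ 2 ≤ W := by nlinarith [sq_nonneg ρ, sq_nonneg L]
  have e2 : T ^ 2 * S * τ ^ 2 ≤ g ^ 2 * (5 * W ^ 2) := by
    apply mul_le_mul hS hτ (sq_nonneg τ) (sq_nonneg g)
  have e3 : 16 * T ^ 4 * W ^ 2 * (C * ρ ^ 2) ≤ 16 * T ^ 4 * W ^ 2 * W := 
    mul_le_mul_of_nonneg_left e1 (by positivity)
  have e4 : 16 * T ^ 4 * W ^ 2 * (S * τ ^ 2) ≤ 1 / 100 * (T ^ 4 * W ^ 2) := by
    calc 16 * T ^ 4 * W ^ 2 * (S * τ ^ 2) = 16 * T ^ 2 * W ^ 2 * (T ^ 2 * S * τ ^ 2) := by ring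
      _ ≤ 16 * T ^ 2 * W ^ 2 * (g ^ 2 * (5 * W ^ 2)) := mul_le_mul_of_nonneg_left e2 (by positivity)
      _ = 80 * (W ^ 2 * g ^ 2) * (T ^ 2 * W ^ 2) := by ring
      _ = 80 * (T ^ 2 / 10000) * (T ^ 2 * W ^ 2) := by rw [hT2]; ring
      _ ≤ _ := by nlinarith [mul_pos (mul_pos hT0 hT0) (by positivity : 0 < W ^ 2)]
  have e5 : T ^ 4 * W ^ 3 ≤ T ^ 4 * W ^ 4 * (1 / 1000) := by
    have : W ^ 3 ≤ W ^ 4 * (1 / 1000) := by nlinarith [pow_pos (by linarith : 0 < W) 3]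
    nlinarith [mul_le_mul_of_nonneg_left this (by positivity : 0 ≤ T ^ 4)]
  have e6 : T ^ 4 * W ^ 2 ≤ T ^ 4 * W ^ 4 := by
    apply mul_le_mul_of_nonneg_left _ (by positivity)
    exact pow_le_pow_right₀ (by linarith) (by norm_num)
  nlinarith

end Par


/-! ## Distances -/

/-- The formula for distances. -/
theorem dist_formula (G T c c' r r' : ℝ) (hT : 0 < T) :
    (G * r * ((T ^ 2 - c ^ 2) / (T ^ 2 + c ^ 2)) - G * r' * ((T ^ 2 - c' ^ 2) / (T ^ 2 + c' ^ 2))) ^ 2 +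
    (G * r * (2 * c * T / (T ^ 2 + c ^ 2)) - G * r' * (2 * c' * T / (T ^ 2 + c' ^ 2))) ^ 2 =
    G ^ 2 * ((T ^ 2 + c * c') ^ 2 / ((T ^ 2 + c ^ 2) * (T ^ 2 + c' ^ 2)) * (r - r') ^ 2 +
      T ^ 2 * (c - c') ^ 2 / ((T ^ 2 + c ^ 2) * (T ^ 2 + c' ^ 2)) * (r + r') ^ 2) := by
  have h1 : T ^ 2 + c ^ 2 ≠ 0 := by positivity
  have h2 : T ^ 2 + c' ^ 2 ≠ 0 := by positivity
  field_simp
  ring

theorem sum_one (T c c' : ℝ) (hT : 0 < T) :
    (T ^ 2 + c * c') ^ 2 / ((T ^ 2 + c ^ 2) * (T ^ 2 + c' ^ 2)) =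
      1 - T ^ 2 * (c - c') ^ 2 / ((T ^ 2 + c ^ 2) * (T ^ 2 + c' ^ 2)) := by
  have h1 : T ^ 2 + c ^ 2 ≠ 0 := by positivity
  have h2 : T ^ 2 + c' ^ 2 ≠ 0 := by positivity
  field_simp
  ring

/-- Perturbation of distances. -/
theorem sqrt_perturb (x y u v : ℝ) (huv : u ^ 2 + v ^ 2 ≤ 9) :
    √((x + u) ^ 2 + (y + v) ^ 2) ≤ √(x ^ 2 + y ^ 2) + 3 := by
  have h0 : 0 ≤ √(x ^ 2 + y ^ 2) := Real.sqrt_nonneg _
  have h1 : √(x ^ 2 + y ^ 2) ^ 2 = x ^ 2 + y ^ 2 := Real.sq_sqrt (by positivity)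
  rw [Real.sqrt_le_left (by linarith)]
  have h2 : x * u + y * v ≤ 3 * √(x ^ 2 + y ^ 2) := by
    apply abs_le_of_sq_le_sq' _ (by positivity) |>.2
    rw [mul_pow, h1]
    nlinarith [sq_nonneg (x * v - y * u), mul_nonneg (sub_nonneg.2 huv) (add_nonneg (sq_nonneg x) (sq_nonneg y))]
  nlinarith

/-- Rounding of the coordinates. -/
theorem round_dist (X Y X' Y' px py px' py' : ℝ) (h1 : |X - px| ≤ 1) (h2 : |Y - py| ≤ 1)
    (h3 : |X' - px'| ≤ 1) (h4 : |Y' - py'| ≤ 1) :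
    |√((X - X') ^ 2 + (Y - Y') ^ 2) - √((px - px') ^ 2 + (py - py') ^ 2)| ≤ 3 := by
  rw [abs_le] at *
  have a : ((X - px) - (X' - px')) ^ 2 + ((Y - py) - (Y' - py')) ^ 2 ≤ 9 := by
    have b1 : ((X - px) - (X' - px')) ^ 2 ≤ 2 ^ 2 := by apply sq_le_sq' <;> linarith
    have b2 : ((Y - py) - (Y' - py')) ^ 2 ≤ 2 ^ 2 := by apply sq_le_sq' <;> linarith
    linarith
  have c1 := sqrt_perturb (px - px') (py - py') _ _ a
  have c2 := sqrt_perturb (X - X') (Y - Y') (-((X - px) - (X' - px'))) (-((Y - py) - (Y' - py')))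
    (by rw [neg_sq, neg_sq]; exact a)
  have d1 : px - px' + ((X - px) - (X' - px')) = X - X' := by ring
  have d2 : py - py' + ((Y - py) - (Y' - py')) = Y - Y' := by ring
  have d3 : X - X' + -((X - px) - (X' - px')) = px - px' := by ring
  have d4 : Y - Y' + -((Y - py) - (Y' - py')) = py - py' := by ring
  rw [d1, d2] at c1
  rw [d3, d4] at c2
  constructor <;> linarith

theorem div_near (a b : ℕ) (hb : 0 < b) : |(((a / b : ℕ) : ℝ)) - (a : ℝ) / b| ≤ 1 := by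
  have h1 : ((a / b : ℕ) : ℝ) ≤ (a : ℝ) / b := Nat.cast_div_le
  have hb' : (0 : ℝ) < b := by exact_mod_cast hb
  have h2 : (a : ℝ) / b ≤ ((a / b : ℕ) : ℝ) + 1 := by
    rw [div_le_iff₀ hb']
    have := Nat.lt_div_mul_add (a := a) hb
    have h3 : (a : ℝ) < ((a / b : ℕ) : ℝ) * b + b := by exact_mod_cast this
    linarith
  rw [abs_le]
  constructor <;> linarith

section
variable {N B : ℕ}

theorem par (hN : 1 ≤ N) : Par (Lm N B : ℝ) (Gm B : ℝ) (Wp N B : ℝ) (Tp N B : ℝ) where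
  hL := by
    have : 100 ≤ Lm N B := by
      unfold Lm dl
      nlinarith
    exact_mod_cast this
  hg := by
    have : 3 ≤ Gm B := by unfold Gm; omega
    exact_mod_cast this
  hW := by unfold Wp; push_cast; ring
  hT := by unfold Tp; push_cast; ring

theorem Gm_le_Tp (hN : 1 ≤ N) : Gm B ≤ Tp N B := by
  have := (par (B := B) hN).gT
  have h2 : (3 : ℝ) ≤ (Gm B : ℝ) := (par (B := B) hN).hg
  have h3 : (Gm B : ℝ) ≤ Tp N B := by linarith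
  exact_mod_cast h3

theorem Lm_le_Wp (hN : 1 ≤ N) : Lm N B ≤ Wp N B := by
  have := (par (B := B) hN).W_ge
  have h2 : (100 : ℝ) ≤ (Lm N B : ℝ) := (par (B := B) hN).hL
  have h3 : (Lm N B : ℝ) ≤ Wp N B := by linarith
  exact_mod_cast h3

/-- The signed radius. -/
noncomputable def sr (N B c l : ℕ) : ℝ := if c % 2 = 0 then (Wp N B : ℝ) + l else l - (Wp N B : ℝ)

theorem rad_cast (hN : 1 ≤ N) {c l : ℕ} (hl : l ≤ Lm N B) :
    (rad N B c l : ℝ) = if c % 2 = 0 then (Wp N B : ℝ) + l else (Wp N B : ℝ) - l := by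
  unfold rad
  split_ifs
  · push_cast; ring
  · rw [Nat.cast_sub (hl.trans (Lm_le_Wp hN))]

theorem near (hN : 1 ≤ N) {c l : ℕ} (hc : c ≤ Gm B) (hl : l ≤ Lm N B) :
    |((Zc N B c l).1 : ℝ) - (4 * (Tp N B : ℝ) ^ 2 * Wp N B) * sr N B c l *
      (((Tp N B : ℝ) ^ 2 - (c : ℝ) ^ 2) / ((Tp N B : ℝ) ^ 2 + (c : ℝ) ^ 2))| ≤ 1 ∧
    |((Zc N B c l).2 : ℝ) - (4 * (Tp N B : ℝ) ^ 2 * Wp N B) * sr N B c l *
      (2 * (c : ℝ) * (Tp N B : ℝ) / ((Tp N B : ℝ) ^ 2 + (c : ℝ) ^ 2))| ≤ 1 := by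
  have hcT : c ≤ Tp N B := hc.trans (Gm_le_Tp hN)
  have hT0 : 0 < Tp N B := by
    have := (par (B := B) hN).Tpos
    exact_mod_cast this
  have hpos : 0 < Tp N B ^ 2 + c ^ 2 := by positivity
  have h1 := div_near (Gp N B * rad N B c l * (Tp N B ^ 2 - c ^ 2)) (Tp N B ^ 2 + c ^ 2) hpos
  have h2 := div_near (Gp N B * rad N B c l * (2 * c * Tp N B)) (Tp N B ^ 2 + c ^ 2) hpos
  rw [Nat.cast_mul, Nat.cast_mul, Nat.cast_sub (Nat.pow_le_pow_left hcT 2), rad_cast hN hl] at h1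
  rw [Nat.cast_mul, Nat.cast_mul, rad_cast hN hl] at h2
  have hG : (Gp N B : ℝ) = 4 * (Tp N B : ℝ) ^ 2 * Wp N B := by unfold Gp; push_cast; ring
  rw [hG] at h1 h2
  unfold Zc sr
  split_ifs at h1 h2 ⊢
  · refine ⟨?_, ?_⟩
    · push_cast at h1
      rw [mul_div_assoc] at h1
      exact h1
    · push_cast at h2
      rw [mul_div_assoc] at h2
      exact h2
  · refine ⟨?_, ?_⟩
    · push_cast at h1 ⊢
      rw [mul_div_assoc] at h1
      rw [← abs_neg]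
      refine le_of_eq_of_le ?_ h1
      congr 1
      unfold absX
      ring
    · push_cast at h2 ⊢
      rw [mul_div_assoc] at h2
      rw [← abs_neg]
      refine le_of_eq_of_le ?_ h2
      congr 1
      unfold absY
      ring

/-- The exact distance of the real points. -/
noncomputable def ex (N B c c' l l' : ℕ) : ℝ :=
  √((4 * (Tp N B : ℝ) ^ 2 * Wp N B) ^ 2 *
    ((1 - (Tp N B : ℝ) ^ 2 * ((c : ℝ) - c') ^ 2 / (((Tp N B : ℝ) ^ 2 + (c : ℝ) ^ 2) *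
      ((Tp N B : ℝ) ^ 2 + (c' : ℝ) ^ 2))) * (sr N B c l - sr N B c' l') ^ 2 +
      (Tp N B : ℝ) ^ 2 * ((c : ℝ) - c') ^ 2 / (((Tp N B : ℝ) ^ 2 + (c : ℝ) ^ 2) *
      ((Tp N B : ℝ) ^ 2 + (c' : ℝ) ^ 2)) * (sr N B c l + sr N B c' l') ^ 2))

theorem dst_near (hN : 1 ≤ N) {c c' l l' : ℕ} (hc : c ≤ Gm B) (hl : l ≤ Lm N B) (hc' : c' ≤ Gm B)
    (hl' : l' ≤ Lm N B) : |dst (Zc N B c l) (Zc N B c' l') - ex N B c c' l l'| ≤ 3 := by
  have a := near hN hc hl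
  have b := near hN hc' hl'
  have := round_dist _ _ _ _ _ _ _ _ a.1 a.2 b.1 b.2
  rw [dist_formula _ _ _ _ _ _ (par (B := B) hN).Tpos, sum_one _ _ _ (par (B := B) hN).Tpos] at this
  exact this

/-- The bounds for the angle. -/
theorem theta (hN : 1 ≤ N) {c c' : ℕ} (hc : c ≤ Gm B) (hc' : c' ≤ Gm B) :
    ∃ θ : ℝ, (Tp N B : ℝ) ^ 2 * (1 - θ) ≤ 2 * (Gm B : ℝ) ^ 2 ∧ θ ≤ 1 ∧
      (Tp N B : ℝ) ^ 2 * ((c : ℝ) - c') ^ 2 / (((Tp N B : ℝ) ^ 2 + (c : ℝ) ^ 2) *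
      ((Tp N B : ℝ) ^ 2 + (c' : ℝ) ^ 2)) = θ * ((c : ℝ) - c') ^ 2 / (Tp N B : ℝ) ^ 2 ∧ 9 / 10 ≤ θ := by
  have hT := (par (B := B) hN).Tpos
  have hg := (par (B := B) hN).hg
  have hgT := (par (B := B) hN).gT
  have hcr : (c : ℝ) ≤ Gm B := by exact_mod_cast hc
  have hcr' : (c' : ℝ) ≤ Gm B := by exact_mod_cast hc'
  have hc0 : (0 : ℝ) ≤ c := Nat.cast_nonneg c
  have hc0' : (0 : ℝ) ≤ c' := Nat.cast_nonneg c'
  generalize (c : ℝ) = x at *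
  generalize (c' : ℝ) = y at *
  generalize (Gm B : ℝ) = g at *
  generalize (Tp N B : ℝ) = T at *
  have hx : x ^ 2 ≤ g ^ 2 := by nlinarith
  have hy : y ^ 2 ≤ g ^ 2 := by nlinarith
  have hA : 0 < T ^ 2 + x ^ 2 := by positivity
  have hA' : 0 < T ^ 2 + y ^ 2 := by positivity
  have key : T ^ 2 * (1 - T ^ 4 / ((T ^ 2 + x ^ 2) * (T ^ 2 + y ^ 2))) ≤ 2 * g ^ 2 := by
    have : T ^ 2 * (1 - T ^ 4 / ((T ^ 2 + x ^ 2) * (T ^ 2 + y ^ 2))) =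
      T ^ 2 * (T ^ 2 * (x ^ 2 + y ^ 2) + x ^ 2 * y ^ 2) / ((T ^ 2 + x ^ 2) * (T ^ 2 + y ^ 2)) := by
      field_simp
      ring
    rw [this, div_le_iff₀ (mul_pos hA hA')]
    have e1 : T ^ 4 * (x ^ 2 + y ^ 2) ≤ T ^ 4 * (2 * g ^ 2) :=
      mul_le_mul_of_nonneg_left (by linarith) (by positivity)
    have e2 : T ^ 2 * (x ^ 2 * y ^ 2) ≤ T ^ 2 * (g ^ 2 * y ^ 2) :=
      mul_le_mul_of_nonneg_left (mul_le_mul_of_nonneg_right hx (sq_nonneg y)) (by positivity)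
    have e3 : 0 ≤ g ^ 2 * T ^ 2 * x ^ 2 := by positivity
    have e4 : 0 ≤ g ^ 2 * T ^ 2 * y ^ 2 := by positivity
    have e5 : 0 ≤ g ^ 2 * (x ^ 2 * y ^ 2) := by positivity
    nlinarith
  refine ⟨T ^ 4 / ((T ^ 2 + x ^ 2) * (T ^ 2 + y ^ 2)), key, ?_, ?_, ?_⟩
  · rw [div_le_one (mul_pos hA hA')]
    have e3 : 0 ≤ T ^ 2 * x ^ 2 := by positivity
    have e4 : 0 ≤ T ^ 2 * y ^ 2 := by positivity
    have e5 : 0 ≤ (x ^ 2 * y ^ 2) := by positivity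
    nlinarith
  · field_simp
  · have h1 : 20 * g ^ 2 ≤ T ^ 2 := by nlinarith
    have hT2 : 0 < T ^ 2 := by positivity
    by_contra hcon
    rw [not_le] at hcon
    have : T ^ 2 * (1 / 10) < T ^ 2 * (1 - T ^ 4 / ((T ^ 2 + x ^ 2) * (T ^ 2 + y ^ 2))) := by
      apply mul_lt_mul_of_pos_left _ hT2
      linarith
    linarith

theorem lamc_cast (hN : 1 ≤ N) {c l : ℕ} (hl : l ≤ Lm N B) :
    (lamc N B c l : ℝ) = (4 * (Tp N B : ℝ) ^ 2 * Wp N B - 2 * Wp N B) *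
      (if c % 2 = 0 then (Wp N B : ℝ) + l else (Wp N B : ℝ) - l) + 2 * (l : ℝ) ^ 2 := by
  unfold lamc
  have hT : 1 ≤ Tp N B := by
    have := (par (B := B) hN).Tpos
    have : 0 < Tp N B := by exact_mod_cast this
    omega
  have h1 : 2 * Wp N B ≤ 4 * Tp N B ^ 2 * Wp N B := by
    apply Nat.mul_le_mul_right
    nlinarith
  rw [Nat.cast_add, Nat.cast_mul, Nat.cast_sub h1, rad_cast hN hl]
  push_cast
  ring

/-- Adjacent columns. -/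
theorem adj_even (hN : 1 ≤ N) {c c' l l' : ℕ} (hc : c ≤ Gm B) (hl : l ≤ Lm N B) (hc' : c' ≤ Gm B)
    (hl' : l' ≤ Lm N B) (h0 : c % 2 = 0) (h1 : c = c' + 1 ∨ c' = c + 1) :
    |(lamc N B c l : ℝ) + lamc N B c' l' - dst (Zc N B c l) (Zc N B c' l') - ((l : ℝ) - l') ^ 2| ≤ 4 := by
  have hd := dst_near hN hc hl hc' hl'
  have hp := par (B := B) hN
  obtain ⟨θ, t1, t2, t3, -⟩ := theta hN hc hc'
  have h0' : ¬ c' % 2 = 0 := by omega
  have hsq : ((c : ℝ) - c') ^ 2 = 1 := by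
    rcases h1 with h1 | h1 <;> · rw [h1]; push_cast; ring
  have hex : ex N B c c' l l' = √(16 * (Tp N B : ℝ) ^ 4 * (Wp N B : ℝ) ^ 2 *
      (2 * (Wp N B : ℝ) + (l - l')) ^ 2 - 16 * (Tp N B : ℝ) ^ 2 * (Wp N B : ℝ) ^ 2 * θ *
      ((2 * (Wp N B : ℝ) + (l - l')) ^ 2 - ((l : ℝ) + l') ^ 2)) := by
    unfold ex
    congr 1
    rw [t3, hsq]
    have hT : (Tp N B : ℝ) ≠ 0 := hp.Tpos.ne'
    unfold sr
    rw [if_pos h0, if_neg h0']
    field_simp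
    ring
  have hl0 : (l : ℝ) ≤ Lm N B := by exact_mod_cast hl
  have hl0' : (l' : ℝ) ≤ Lm N B := by exact_mod_cast hl'
  have hln : (0 : ℝ) ≤ l := Nat.cast_nonneg l
  have hln' : (0 : ℝ) ≤ l' := Nat.cast_nonneg l'
  have hup := hp.up θ ((l : ℝ) - l') ((l : ℝ) + l') _ t1 (by linarith) (by linarith) (by linarith)
    (by linarith) rfl
  have hlo := hp.lo θ ((l : ℝ) - l') ((l : ℝ) + l') _ t2 (by linarith) (by linarith) (by linarith)
    (by linarith) rfl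
  have hR : 0 ≤ (2 * (Wp N B : ℝ) + (l - l')) := by linarith [hp.W_ge, hp.Wpos]
  have hP : 0 ≤ 4 * (Tp N B : ℝ) ^ 2 * (Wp N B) * (2 * (Wp N B : ℝ) + (l - l')) -
      2 * (Wp N B : ℝ) * (2 * (Wp N B : ℝ) + (l - l')) := by
    have : 1 ≤ (Tp N B : ℝ) ^ 2 := by nlinarith [hp.T_ge, hp.Wpos]
    have h2 : 0 ≤ (Wp N B : ℝ) * (2 * (Wp N B : ℝ) + (l - l')) := mul_nonneg (by linarith [hp.Wpos]) hR
    nlinarith
  have b1 : ex N B c c' l l' ≤ 4 * (Tp N B : ℝ) ^ 2 * (Wp N B) * (2 * (Wp N B : ℝ) + (l - l')) -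
      2 * (Wp N B : ℝ) * (2 * (Wp N B : ℝ) + (l - l')) + ((l : ℝ) + l') ^ 2 + 1 := by
    rw [hex]
    apply Real.sqrt_le_iff.2 ⟨by nlinarith [sq_nonneg ((l : ℝ) + l')], hup⟩
  have b2 : 4 * (Tp N B : ℝ) ^ 2 * (Wp N B) * (2 * (Wp N B : ℝ) + (l - l')) -
      2 * (Wp N B : ℝ) * (2 * (Wp N B : ℝ) + (l - l')) + ((l : ℝ) + l') ^ 2 - 1 ≤ ex N B c c' l l' := by
    rw [hex]
    exact Real.le_sqrt_of_sq_le hlo
  rw [lamc_cast hN hl, lamc_cast hN hl', if_pos h0, if_neg h0']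
  rw [abs_le] at hd ⊢
  constructor <;> nlinarith

theorem dst_symm (x y : ℤ × ℤ) : dst x y = dst y x := by
  unfold dst
  congr 1
  ring

theorem adj_all (hN : 1 ≤ N) {c c' l l' : ℕ} (hc : c ≤ Gm B) (hl : l ≤ Lm N B) (hc' : c' ≤ Gm B)
    (hl' : l' ≤ Lm N B) (h1 : c = c' + 1 ∨ c' = c + 1) :
    |(lamc N B c l : ℝ) + lamc N B c' l' - dst (Zc N B c l) (Zc N B c' l') - ((l : ℝ) - l') ^ 2| ≤ 4 := by
  by_cases h0 : c % 2 = 0
  · exact adj_even hN hc hl hc' hl' h0 h1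
  · have := adj_even hN hc' hl' hc hl (by omega) h1.symm
    rw [dst_symm] at this
    rw [abs_le] at this ⊢
    constructor <;> nlinarith

theorem far_even (hN : 1 ≤ N) {c c' l l' : ℕ} (hc : c ≤ Gm B) (hl : l ≤ Lm N B) (hc' : c' ≤ Gm B)
    (hl' : l' ≤ Lm N B) (h0 : c % 2 = 0) (h0' : ¬ c' % 2 = 0) (h1 : ¬ (c = c' + 1 ∨ c' = c + 1)) :
    4 * (Lm N B : ℝ) ^ 2 ≤ (lamc N B c l : ℝ) + lamc N B c' l' - dst (Zc N B c l) (Zc N B c' l') := by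
  have hd := dst_near hN hc hl hc' hl'
  have hp := par (B := B) hN
  obtain ⟨θ, t1, t2, t3, t4⟩ := theta hN hc hc'
  have hsq : 9 ≤ ((c : ℝ) - c') ^ 2 := by
    rcases Nat.lt_or_ge c c' with h | h
    · have : c + 3 ≤ c' := by omega
      have : (c : ℝ) + 3 ≤ c' := by exact_mod_cast this
      nlinarith
    · have : c' + 3 ≤ c := by omega
      have : (c' : ℝ) + 3 ≤ c := by exact_mod_cast this
      nlinarith
  have hex : ex N B c c' l l' = √(16 * (Tp N B : ℝ) ^ 4 * (Wp N B : ℝ) ^ 2 *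
      (2 * (Wp N B : ℝ) + (l - l')) ^ 2 - 16 * (Tp N B : ℝ) ^ 2 * (Wp N B : ℝ) ^ 2 * θ *
      ((c : ℝ) - c') ^ 2 * ((2 * (Wp N B : ℝ) + (l - l')) ^ 2 - ((l : ℝ) + l') ^ 2)) := by
    unfold ex
    congr 1
    rw [t3]
    have hT : (Tp N B : ℝ) ≠ 0 := hp.Tpos.ne'
    unfold sr
    rw [if_pos h0, if_neg h0']
    field_simp
    ring
  have hl0 : (l : ℝ) ≤ Lm N B := by exact_mod_cast hl
  have hl0' : (l' : ℝ) ≤ Lm N B := by exact_mod_cast hl'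
  have hln : (0 : ℝ) ≤ l := Nat.cast_nonneg l
  have hln' : (0 : ℝ) ≤ l' := Nat.cast_nonneg l'
  have hup := hp.far1 θ ((c : ℝ) - c') ((l : ℝ) - l') ((l : ℝ) + l') _ (by nlinarith) (by linarith)
    (by linarith) (by linarith) (by linarith) rfl
  have hR : (Wp N B : ℝ) ≤ (2 * (Wp N B : ℝ) + (l - l')) := by linarith [hp.W_ge, hp.Wpos]
  have hW := hp.Wpos
  have hP : 0 ≤ 4 * (Tp N B : ℝ) ^ 2 * (Wp N B) * (2 * (Wp N B : ℝ) + (l - l')) -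
      12 * (Wp N B : ℝ) * (2 * (Wp N B : ℝ) + (l - l')) := by
    have : 3 ≤ (Tp N B : ℝ) ^ 2 := by nlinarith [hp.T_ge, hp.Wpos]
    have h2 : 0 ≤ (Wp N B : ℝ) * (2 * (Wp N B : ℝ) + (l - l')) :=
      mul_nonneg (by linarith [hp.Wpos]) (by linarith)
    nlinarith
  have b1 : ex N B c c' l l' ≤ 4 * (Tp N B : ℝ) ^ 2 * (Wp N B) * (2 * (Wp N B : ℝ) + (l - l')) -
      12 * (Wp N B : ℝ) * (2 * (Wp N B : ℝ) + (l - l')) := by
    rw [hex]
    apply Real.sqrt_le_iff.2 ⟨hP, hup⟩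
  rw [lamc_cast hN hl, lamc_cast hN hl', if_pos h0, if_neg h0']
  rw [abs_le] at hd
  have h5 := hp.L2
  have h6 : (Wp N B : ℝ) * Wp N B ≤ Wp N B * (2 * (Wp N B : ℝ) + (l - l')) :=
    mul_le_mul_of_nonneg_left hR (by linarith)
  nlinarith [sq_nonneg (l : ℝ), sq_nonneg (l' : ℝ), sq_nonneg (Lm N B : ℝ)]

theorem far_same (hN : 1 ≤ N) {c c' l l' : ℕ} (hc : c ≤ Gm B) (hl : l ≤ Lm N B) (hc' : c' ≤ Gm B)
    (hl' : l' ≤ Lm N B) (h0 : c % 2 = c' % 2) :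
    4 * (Lm N B : ℝ) ^ 2 ≤ (lamc N B c l : ℝ) + lamc N B c' l' - dst (Zc N B c l) (Zc N B c' l') := by
  have hd := dst_near hN hc hl hc' hl'
  have hp := par (B := B) hN
  obtain ⟨θ, t1, t2, t3, t4⟩ := theta hN hc hc'
  have hl0 : (l : ℝ) ≤ Lm N B := by exact_mod_cast hl
  have hl0' : (l' : ℝ) ≤ Lm N B := by exact_mod_cast hl'
  have hln : (0 : ℝ) ≤ l := Nat.cast_nonneg l
  have hln' : (0 : ℝ) ≤ l' := Nat.cast_nonneg l'
  have hcr : (c : ℝ) ≤ Gm B := by exact_mod_cast hc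
  have hcr' : (c' : ℝ) ≤ Gm B := by exact_mod_cast hc'
  have hc0 : (0 : ℝ) ≤ c := Nat.cast_nonneg c
  have hc0' : (0 : ℝ) ≤ c' := Nat.cast_nonneg c'
  have hW := hp.Wpos
  have hWL := hp.W_ge
  have hT2 : 0 < (Tp N B : ℝ) ^ 2 := by have := hp.Tpos; positivity
  have hS0 : 0 ≤ θ * ((c : ℝ) - c') ^ 2 / (Tp N B : ℝ) ^ 2 := by positivity
  have hS : (Tp N B : ℝ) ^ 2 * (θ * ((c : ℝ) - c') ^ 2 / (Tp N B : ℝ) ^ 2) ≤ (Gm B : ℝ) ^ 2 := by
    rw [mul_div_cancel₀ _ hT2.ne']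
    have : ((c : ℝ) - c') ^ 2 ≤ (Gm B : ℝ) ^ 2 := by
      apply sq_le_sq' <;> linarith
    nlinarith [sq_nonneg ((c : ℝ) - c')]
  have hρ : (sr N B c l - sr N B c' l') ^ 2 ≤ (Lm N B : ℝ) ^ 2 := by
    unfold sr
    rw [← h0]
    split_ifs
    · apply sq_le_sq' <;> linarith
    · apply sq_le_sq' <;> linarith
  have hτ : (sr N B c l + sr N B c' l') ^ 2 ≤ 5 * (Wp N B : ℝ) ^ 2 := by
    have : (sr N B c l + sr N B c' l') ^ 2 ≤ (21 / 10 * Wp N B : ℝ) ^ 2 := by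
      unfold sr
      rw [← h0]
      split_ifs
      · apply sq_le_sq' <;> linarith
      · apply sq_le_sq' <;> linarith
    nlinarith
  have b1 : ex N B c c' l l' ≤ 2 * (Tp N B : ℝ) ^ 2 * (Wp N B : ℝ) ^ 2 := by
    unfold ex
    rw [t3]
    apply Real.sqrt_le_iff.2 ⟨by positivity, ?_⟩
    refine le_trans (le_of_eq ?_) (hp.far2 (1 - θ * ((c : ℝ) - c') ^ 2 / (Tp N B : ℝ) ^ 2) _ _ _
      (by linarith) hS hρ hτ)
    ring
  have hlam : ∀ {c l : ℕ}, l ≤ Lm N B → (3 * (Tp N B : ℝ) ^ 2 * (Wp N B : ℝ)) * (9 / 10 * Wp N B) ≤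
      (lamc N B c l : ℝ) := by
    intro c l hl
    have hl0 : (l : ℝ) ≤ Lm N B := by exact_mod_cast hl
    have hln : (0 : ℝ) ≤ l := Nat.cast_nonneg l
    rw [lamc_cast hN hl]
    have hT3 : 2 ≤ (Tp N B : ℝ) ^ 2 := by nlinarith [hp.T_ge, hp.Wpos]
    have a1 : 9 / 10 * (Wp N B : ℝ) ≤ (if c % 2 = 0 then (Wp N B : ℝ) + l else (Wp N B : ℝ) - l) := by
      split_ifs <;> linarith
    have a2 : 3 * (Tp N B : ℝ) ^ 2 * (Wp N B : ℝ) ≤ 4 * (Tp N B : ℝ) ^ 2 * Wp N B - 2 * Wp N B := by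
      nlinarith
    have a3 : (3 * (Tp N B : ℝ) ^ 2 * (Wp N B : ℝ)) * (9 / 10 * Wp N B) ≤
      (4 * (Tp N B : ℝ) ^ 2 * Wp N B - 2 * Wp N B) *
        (if c % 2 = 0 then (Wp N B : ℝ) + l else (Wp N B : ℝ) - l) := by
      apply mul_le_mul a2 a1 (by positivity)
      exact le_trans (by positivity) a2
    nlinarith [sq_nonneg (l : ℝ)]
  have e1 := hlam (c := c) hl
  have e2 := hlam (c := c') hl'
  rw [abs_le] at hd
  have h5 := hp.L2
  have h7 : 1 ≤ (Tp N B : ℝ) ^ 2 := by nlinarith [hp.T_ge, hp.Wpos]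
  have h8 : (Wp N B : ℝ) ^ 2 ≤ (Tp N B : ℝ) ^ 2 * (Wp N B : ℝ) ^ 2 := by nlinarith [sq_nonneg (Wp N B : ℝ)]
  nlinarith

theorem far_all (hN : 1 ≤ N) {c c' l l' : ℕ} (hc : c ≤ Gm B) (hl : l ≤ Lm N B) (hc' : c' ≤ Gm B)
    (hl' : l' ≤ Lm N B) (h1 : ¬ (c = c' + 1 ∨ c' = c + 1)) :
    4 * (Lm N B : ℝ) ^ 2 ≤ (lamc N B c l : ℝ) + lamc N B c' l' - dst (Zc N B c l) (Zc N B c' l') := by
  by_cases h : c % 2 = c' % 2
  · exact far_same hN hc hl hc' hl' h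
  · by_cases h0 : c % 2 = 0
    · exact far_even hN hc hl hc' hl' h0 (by omega) h1
    · have := far_even hN hc' hl' hc hl (by omega) h0 (fun h => h1 h.symm)
      rw [dst_symm] at this
      linarith

end

section
variable {N B : ℕ}

theorem zc_sign (hN : 1 ≤ N) {c l : ℕ} (hc : c ≤ Gm B) (hl : l ≤ Lm N B) :
    (c % 2 = 0 → 0 < ((Zc N B c l).1 : ℝ)) ∧ (¬ c % 2 = 0 → ((Zc N B c l).1 : ℝ) < 0) := by
  have hp := par (B := B) hN
  have hn := (near hN hc hl).1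
  have hl0 : (l : ℝ) ≤ Lm N B := by exact_mod_cast hl
  have hln : (0 : ℝ) ≤ l := Nat.cast_nonneg l
  have hcr : (c : ℝ) ≤ Gm B := by exact_mod_cast hc
  have hc0 : (0 : ℝ) ≤ c := Nat.cast_nonneg c
  have hW := hp.Wpos
  have hWL := hp.W_ge
  have hT := hp.Tpos
  have hgT := hp.gT
  have hX : 1 / 2 ≤ ((Tp N B : ℝ) ^ 2 - (c : ℝ) ^ 2) / ((Tp N B : ℝ) ^ 2 + (c : ℝ) ^ 2) := by
    rw [div_le_div_iff₀ (by norm_num) (by positivity)]
    have h1 : (c : ℝ) * 10 ≤ Tp N B := by linarith [hp.hg]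
    nlinarith
  have hG : 4 ≤ 4 * (Tp N B : ℝ) ^ 2 * Wp N B := by
    have : 1 ≤ (Tp N B : ℝ) ^ 2 := by nlinarith [hp.T_ge, hp.Wpos]
    nlinarith
  rw [abs_le] at hn
  constructor
  · intro h0
    have hs : 1 ≤ sr N B c l := by unfold sr; rw [if_pos h0]; linarith
    have h2 : 4 * 1 ≤ (4 * (Tp N B : ℝ) ^ 2 * Wp N B) * sr N B c l :=
      mul_le_mul hG hs (by norm_num) (by linarith)
    have h3 : 4 * 1 * (1 / 2) ≤ (4 * (Tp N B : ℝ) ^ 2 * Wp N B) * sr N B c l *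
      (((Tp N B : ℝ) ^ 2 - (c : ℝ) ^ 2) / ((Tp N B : ℝ) ^ 2 + (c : ℝ) ^ 2)) :=
      mul_le_mul h2 hX (by norm_num) (by linarith)
    linarith
  · intro h0
    have hs : 1 ≤ -sr N B c l := by unfold sr; rw [if_neg h0]; linarith [hp.hL]
    have h2 : 4 * 1 ≤ (4 * (Tp N B : ℝ) ^ 2 * Wp N B) * (-sr N B c l) :=
      mul_le_mul hG hs (by norm_num) (by linarith)
    have h3 : 4 * 1 * (1 / 2) ≤ (4 * (Tp N B : ℝ) ^ 2 * Wp N B) * (-sr N B c l) *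
      (((Tp N B : ℝ) ^ 2 - (c : ℝ) ^ 2) / ((Tp N B : ℝ) ^ 2 + (c : ℝ) ^ 2)) :=
      mul_le_mul h2 hX (by norm_num) (by linarith)
    linarith

theorem zc_inj (hN : 1 ≤ N) {c c' l l' : ℕ} (hc : c ≤ Gm B) (hl : l ≤ Lm N B) (hc' : c' ≤ Gm B)
    (hl' : l' ≤ Lm N B) (h : Zc N B c l = Zc N B c' l') : c = c' ∧ l = l' := by
  have hp := par (B := B) hN
  have hW := hp.Wpos
  have hWL := hp.W_ge
  have hT := hp.Tpos
  have s1 := zc_sign hN hc hl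
  have s2 := zc_sign hN hc' hl'
  have hpar : c % 2 = c' % 2 := by
    by_contra hcon
    by_cases h0 : c % 2 = 0
    · have a := s1.1 h0
      have b := s2.2 (by omega)
      rw [h] at a
      linarith
    · have a := s1.2 h0
      have b := s2.1 (by omega)
      rw [h] at a
      linarith
  have hd := dst_near hN hc hl hc' hl'
  have hz : dst (Zc N B c l) (Zc N B c' l') = 0 := by
    rw [h]
    unfold dst
    simp
  rw [hz, zero_sub, abs_neg, abs_of_nonneg (show 0 ≤ ex N B c c' l l' from Real.sqrt_nonneg _)] at hd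
  have hex : (ex N B c c' l l') ^ 2 ≤ 9 := by
    have : 0 ≤ ex N B c c' l l' := Real.sqrt_nonneg _
    nlinarith
  obtain ⟨θ, t1, t2, t3, t4⟩ := theta hN hc hc'
  have hl0 : (l : ℝ) ≤ Lm N B := by exact_mod_cast hl
  have hl0' : (l' : ℝ) ≤ Lm N B := by exact_mod_cast hl'
  have hln : (0 : ℝ) ≤ l := Nat.cast_nonneg l
  have hln' : (0 : ℝ) ≤ l' := Nat.cast_nonneg l'
  have hcr : (c : ℝ) ≤ Gm B := by exact_mod_cast hc
  have hcr' : (c' : ℝ) ≤ Gm B := by exact_mod_cast hc'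
  have hc0 : (0 : ℝ) ≤ c := Nat.cast_nonneg c
  have hc0' : (0 : ℝ) ≤ c' := Nat.cast_nonneg c'
  have hT2 : 0 < (Tp N B : ℝ) ^ 2 := by positivity
  have hTbig : 1 ≤ (Tp N B : ℝ) ^ 2 := by nlinarith [hp.T_ge, hp.Wpos]
  have hS0 : 0 ≤ θ * ((c : ℝ) - c') ^ 2 / (Tp N B : ℝ) ^ 2 := by positivity
  have hS1 : θ * ((c : ℝ) - c') ^ 2 / (Tp N B : ℝ) ^ 2 ≤ 1 := by
    rw [div_le_one hT2]
    have h1 : ((c : ℝ) - c') ^ 2 ≤ (Gm B : ℝ) ^ 2 := by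
      apply sq_le_sq' <;> linarith
    have h2 : (Gm B : ℝ) ^ 2 ≤ (Tp N B : ℝ) ^ 2 := by
      apply pow_le_pow_left₀ (Nat.cast_nonneg _)
      linarith [hp.gT, hp.hg]
    nlinarith [sq_nonneg ((c : ℝ) - c')]
  unfold ex at hex
  rw [t3] at hex
  have hin : 0 ≤ (1 - θ * ((c : ℝ) - c') ^ 2 / (Tp N B : ℝ) ^ 2) * (sr N B c l - sr N B c' l') ^ 2 +
      θ * ((c : ℝ) - c') ^ 2 / (Tp N B : ℝ) ^ 2 * (sr N B c l + sr N B c' l') ^ 2 := by
    have : 0 ≤ 1 - θ * ((c : ℝ) - c') ^ 2 / (Tp N B : ℝ) ^ 2 := by linarith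
    positivity
  rw [Real.sq_sqrt (by positivity)] at hex
  by_cases hcc : c = c'
  · refine ⟨hcc, ?_⟩
    subst hcc
    by_contra hll
    have h1 : 1 ≤ (sr N B c l - sr N B c l') ^ 2 := by
      have : (sr N B c l - sr N B c l') = (l : ℝ) - l' := by
        unfold sr
        split_ifs <;> ring
      rw [this]
      rcases Nat.lt_or_ge l l' with h | h
      · have : l + 1 ≤ l' := by omega
        have : (l : ℝ) + 1 ≤ l' := by exact_mod_cast this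
        nlinarith
      · have : l' + 1 ≤ l := by omega
        have : (l' : ℝ) + 1 ≤ l := by exact_mod_cast this
        nlinarith
    rw [sub_self] at hex
    norm_num at hex
    have hG : 4 ≤ 4 * (Tp N B : ℝ) ^ 2 * Wp N B := by nlinarith
    have hG2 : 16 ≤ (4 * (Tp N B : ℝ) ^ 2 * Wp N B) ^ 2 := by nlinarith
    nlinarith
  · exfalso
    have hsq : 1 ≤ ((c : ℝ) - c') ^ 2 := by
      rcases Nat.lt_or_ge c c' with h | h
      · have : c + 1 ≤ c' := by omega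
        have : (c : ℝ) + 1 ≤ c' := by exact_mod_cast this
        nlinarith
      · have : c' + 1 ≤ c := by omega
        have : (c' : ℝ) + 1 ≤ c := by exact_mod_cast this
        nlinarith
    have h2 : (Wp N B : ℝ) ^ 2 ≤ (sr N B c l + sr N B c' l') ^ 2 := by
      unfold sr
      rw [← hpar]
      split_ifs
      · apply pow_le_pow_left₀ (by linarith)
        linarith
      · rw [← neg_sq ((l : ℝ) - (Wp N B : ℝ) + _)]
        apply pow_le_pow_left₀ (by linarith)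
        linarith
    have h3 : 9 / 10 / (Tp N B : ℝ) ^ 2 ≤ θ * ((c : ℝ) - c') ^ 2 / (Tp N B : ℝ) ^ 2 := by
      apply div_le_div_of_nonneg_right _ hT2.le
      nlinarith
    have h4 : (9 / 10 / (Tp N B : ℝ) ^ 2) * (Wp N B : ℝ) ^ 2 ≤
      θ * ((c : ℝ) - c') ^ 2 / (Tp N B : ℝ) ^ 2 * (sr N B c l + sr N B c' l') ^ 2 :=
      mul_le_mul h3 h2 (sq_nonneg _) hS0
    have h5 : 0 ≤ (1 - θ * ((c : ℝ) - c') ^ 2 / (Tp N B : ℝ) ^ 2) *
        (sr N B c l - sr N B c' l') ^ 2 := mul_nonneg (by linarith) (sq_nonneg _)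
    have h6 : (4 * (Tp N B : ℝ) ^ 2 * Wp N B) ^ 2 * ((9 / 10 / (Tp N B : ℝ) ^ 2) * (Wp N B : ℝ) ^ 2) ≤
        9 := by
      refine le_trans ?_ hex
      apply mul_le_mul_of_nonneg_left _ (by positivity)
      linarith
    have h7 : (4 * (Tp N B : ℝ) ^ 2 * Wp N B) ^ 2 * ((9 / 10 / (Tp N B : ℝ) ^ 2) * (Wp N B : ℝ) ^ 2) =
      144 / 10 * (Tp N B : ℝ) ^ 2 * (Wp N B : ℝ) ^ 4 := by
      field_simp
      ring
    rw [h7] at h6
    have h8 : 1 ≤ (Wp N B : ℝ) ^ 4 := one_le_pow₀ (by linarith)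
    have h9 : 144 / 10 * 1 * 1 ≤ 144 / 10 * (Tp N B : ℝ) ^ 2 * (Wp N B : ℝ) ^ 4 := by
      apply mul_le_mul _ h8 (by norm_num) (by positivity)
      linarith
    linarith

theorem role_le (q : Fin 9) : role q ≤ 2 := by revert q; decide
theorem kk_le (q : Fin 9) : kk q ≤ 3 := by revert q; decide
theorem role_kk_inj : ∀ p q : Fin 9, role p = role q → kk p = kk q → p = q := by decide

theorem col_le {D : ℕ} (hD : D ≤ B) (q : Fin 9) : col D q ≤ Gm B := by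
  have := role_le q
  unfold col Gm
  omega

theorem lev_le (hN : 1 ≤ N) {S : ℕ} (hS : S ≤ B) (q : Fin 9) : lev N S q ≤ Lm N B := by
  have := kk_le q
  unfold lev Lm dl
  nlinarith

/-- Differences of levels. -/
theorem lev_diff (hN : 1 ≤ N) (S S' t : ℕ) (q q' : Fin 9) (ht : 1 ≤ t)
    (h : S + t ≤ S' ∨ S' + t ≤ S) :
    (100 * N * t - 3 : ℝ) ^ 2 ≤ ((lev N S q : ℝ) - lev N S' q') ^ 2 := by
  have h1 : (kk q : ℝ) ≤ 3 := by exact_mod_cast kk_le q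
  have h2 : (kk q' : ℝ) ≤ 3 := by exact_mod_cast kk_le q'
  have h3 : (0 : ℝ) ≤ kk q := Nat.cast_nonneg _
  have h4 : (0 : ℝ) ≤ kk q' := Nat.cast_nonneg _
  have hNr : (1 : ℝ) ≤ N := by exact_mod_cast hN
  have htr : (1 : ℝ) ≤ t := by exact_mod_cast ht
  have h5 : (1 : ℝ) * 1 ≤ N * t := mul_le_mul hNr htr (by norm_num) (by linarith)
  have e1 : (lev N S q : ℝ) = 100 * N * S + kk q := by unfold lev dl; push_cast; ring
  have e2 : (lev N S' q' : ℝ) = 100 * N * S' + kk q' := by unfold lev dl; push_cast; ring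
  rw [e1, e2]
  rcases h with h | h
  · have h' : (S : ℝ) + t ≤ S' := by exact_mod_cast h
    have h6 : (N : ℝ) * (S + t) ≤ N * S' := mul_le_mul_of_nonneg_left h' (by linarith)
    rw [← neg_sq (100 * (N : ℝ) * S + kk q - _)]
    apply pow_le_pow_left₀ (by nlinarith)
    nlinarith
  · have h' : (S' : ℝ) + t ≤ S := by exact_mod_cast h
    have h6 : (N : ℝ) * (S' + t) ≤ N * S := mul_le_mul_of_nonneg_left h' (by linarith)
    apply pow_le_pow_left₀ (by nlinarith)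
    nlinarith

theorem lev_diff_le (hN : 1 ≤ N) (S S' : ℕ) (q q' : Fin 9) (h : S = S' + 1 ∨ S' = S + 1) :
    ((lev N S q : ℝ) - lev N S' q') ^ 2 ≤ (100 * N + 3 : ℝ) ^ 2 := by
  have h1 : (kk q : ℝ) ≤ 3 := by exact_mod_cast kk_le q
  have h2 : (kk q' : ℝ) ≤ 3 := by exact_mod_cast kk_le q'
  have h3 : (0 : ℝ) ≤ kk q := Nat.cast_nonneg _
  have h4 : (0 : ℝ) ≤ kk q' := Nat.cast_nonneg _
  have hNr : (1 : ℝ) ≤ N := by exact_mod_cast hN
  have e1 : (lev N S q : ℝ) = 100 * N * S + kk q := by unfold lev dl; push_cast; ring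
  have e2 : (lev N S' q' : ℝ) = 100 * N * S' + kk q' := by unfold lev dl; push_cast; ring
  rw [e1, e2]
  rcases h with h | h
  · have h' : (S : ℝ) = S' + 1 := by exact_mod_cast h
    rw [h']
    apply sq_le_sq' <;> nlinarith
  · have h' : (S' : ℝ) = S + 1 := by exact_mod_cast h
    rw [h']
    apply sq_le_sq' <;> nlinarith

theorem Lm_big : (100 * N : ℝ) ≤ Lm N B := by
  have : 100 * N ≤ Lm N B := by unfold Lm dl; nlinarith
  exact_mod_cast this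

end

/-- Module Geo. -/
theorem stmtGeo : StmtGeo := by
  intro N B D S hN hD hS hinj hpar
  have hNr : (1 : ℝ) ≤ N := by exact_mod_cast hN
  have hLb := Lm_big (N := N) (B := B)
  have hadj : ∀ x y : Fin N × Fin 9, (col (D x.1) x.2 = col (D y.1) y.2 + 1 ∨
      col (D y.1) y.2 = col (D x.1) x.2 + 1) → _ := fun x y h =>
    adj_all hN (col_le (hD x.1) x.2) (lev_le hN (hS x.1) x.2) (col_le (hD y.1) y.2)
      (lev_le hN (hS y.1) y.2) h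
  have hfar : ∀ x y : Fin N × Fin 9, ¬ (col (D x.1) x.2 = col (D y.1) y.2 + 1 ∨
      col (D y.1) y.2 = col (D x.1) x.2 + 1) → _ := fun x y h =>
    far_all hN (col_le (hD x.1) x.2) (lev_le hN (hS x.1) x.2) (col_le (hD y.1) y.2)
      (lev_le hN (hS y.1) y.2) h
  refine ⟨⟨hinj, fun x y => dst_symm _ _, ?_, ?_, ?_, ?_, ?_⟩, ?_⟩
  · -- low
    intro x y _ _
    by_cases h : (col (D x.1) x.2 = col (D y.1) y.2 + 1 ∨ col (D y.1) y.2 = col (D x.1) x.2 + 1)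
    · have := hadj x y h
      rw [abs_le] at this
      nlinarith [sq_nonneg ((lev N (S x.1) x.2 : ℝ) - lev N (S y.1) y.2)]
    · have := hfar x y h
      nlinarith [sq_nonneg (Lm N B : ℝ)]
  · -- int
    intro x y hxy hr
    have h : (col (D x.1) x.2 = col (D y.1) y.2 + 1 ∨ col (D y.1) y.2 = col (D x.1) x.2 + 1) := by
      unfold col
      rw [hxy]
      omega
    have := hadj x y h
    rw [abs_le] at this
    have h2 : ((lev N (S x.1) x.2 : ℝ) - lev N (S y.1) y.2) ^ 2 ≤ 9 := by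
      have h1 : (kk x.2 : ℝ) ≤ 3 := by exact_mod_cast kk_le x.2
      have h2 : (kk y.2 : ℝ) ≤ 3 := by exact_mod_cast kk_le y.2
      have h3 : (0 : ℝ) ≤ kk x.2 := Nat.cast_nonneg _
      have h4 : (0 : ℝ) ≤ kk y.2 := Nat.cast_nonneg _
      unfold lev
      rw [hxy]
      push_cast
      nlinarith
    linarith
  · -- cross
    intro x y hxy
    by_cases h : (col (D x.1) x.2 = col (D y.1) y.2 + 1 ∨ col (D y.1) y.2 = col (D x.1) x.2 + 1)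
    · have := hadj x y h
      rw [abs_le] at this
      have hp := hpar x.1 y.1
      have hne : D x.1 = D y.1 → S x.1 ≠ S y.1 := fun h1 h2 => hxy (hinj _ _ h1 h2)
      have r1 := role_le x.2
      have r2 := role_le y.2
      have hd := lev_diff hN (S x.1) (S y.1) 1 x.2 y.2 le_rfl (by unfold col at h; omega)
      rw [Nat.cast_one, mul_one] at hd
      linarith
    · have := hfar x y h
      nlinarith
  · -- far
    intro x y hxy htie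
    by_cases h : (col (D x.1) x.2 = col (D y.1) y.2 + 1 ∨ col (D y.1) y.2 = col (D x.1) x.2 + 1)
    · have := hadj x y h
      rw [abs_le] at this
      have hp := hpar x.1 y.1
      have hne : D x.1 = D y.1 → S x.1 ≠ S y.1 := fun h1 h2 => hxy (hinj _ _ h1 h2)
      have r1 := role_le x.2
      have r2 := role_le y.2
      have htie' : ¬ ((D x.1 = D y.1 + 1 ∨ D y.1 = D x.1 + 1) ∧
        (S x.1 = S y.1 + 1 ∨ S y.1 = S x.1 + 1)) := htie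
      have hd := lev_diff hN (S x.1) (S y.1) 2 x.2 y.2 (by norm_num) (by unfold col at h; omega)
      have e : (100 * (N : ℝ) * ((2 : ℕ) : ℝ) - 3) = 200 * N - 3 := by push_cast; ring
      rw [e] at hd
      linarith
    · have := hfar x y h
      nlinarith
  · -- tie
    intro x y htie hD1 hr hr'
    have h : (col (D x.1) x.2 = col (D y.1) y.2 + 1 ∨ col (D y.1) y.2 = col (D x.1) x.2 + 1) := by
      unfold col
      omega
    have := hadj x y h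
    rw [abs_le] at this
    have hd := lev_diff_le hN (S x.1) (S y.1) x.2 y.2 htie.2
    linarith
  · -- injectivity
    intro x y hxy
    have := zc_inj hN (col_le (hD x.1) x.2) (lev_le hN (hS x.1) x.2) (col_le (hD y.1) y.2)
      (lev_le hN (hS y.1) y.2) hxy
    obtain ⟨h1, h2⟩ := this
    have r1 := role_le x.2
    have r2 := role_le y.2
    have k1 := kk_le x.2
    have k2 := kk_le y.2
    unfold col at h1
    unfold lev dl at h2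
    have hD' : D x.1 = D y.1 := by omega
    have hr : role x.2 = role y.2 := by omega
    have hS' : S x.1 = S y.1 := by
      rcases Nat.lt_trichotomy (S x.1) (S y.1) with h | h | h
      · have : 100 * N * (S x.1 + 1) ≤ 100 * N * S y.1 := Nat.mul_le_mul_left _ h
        nlinarith
      · exact h
      · have : 100 * N * (S y.1 + 1) ≤ 100 * N * S x.1 := Nat.mul_le_mul_left _ h
        nlinarith
    have hk : kk x.2 = kk y.2 := by
      rw [hS'] at h2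
      omega
    exact Prod.ext (hinj _ _ hD' hS') (role_kk_inj _ _ hr hk)

end Pool.Agent.Psp81
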