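import Pool.Agent.Lib_MP_95a0ff_lc.Stmts
import Mathlib.Tactic.IntervalCases
import Mathlib.Tactic.Linarith
import Mathlib.Data.Set.Card

/-!
# Module GridComp: a satisfying assignment gives a Hamiltonian cycle of the grid graph
-/

set_option linter.unusedVariables false

namespace Pool.Agent.Psp81

open Pool.Agent.Bx81

namespace GC

/-- The cells of a band: column `c` of the block, row `r`. -/
def cF (c r : ℕ) (b0 bM lT lF : Bool) : Bool :=
  if (b0 && c == 0) || (bM && c == 2) then true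
  else if c % 2 = 0 then r == 1 || r == 8 ||
    (decide (3 ≤ r ∧ r ≤ 5) && ((c == 4 && lT) || (c == 6 && lF)))
  else !(r == 4 && ((c == 3 && lT) || (c == 7 && lF)))

/-- Horizontal edges. -/
def hF (c r : ℕ) (b0 bM lT lF h ex : Bool) : Bool :=
  decide (1 ≤ r) &&
  (if c % 2 = 0 then
    (h && (r == 1 || r == 8)) || (b0 && c == 0 && h) || (c == 6 && lF && (r == 3 || r == 5)) ||
      (c == 4 && ex && h && (r == 4 || r == 5))
  else
    (!h && (r == 1 || r == 8)) || (bM && c == 1 && !h) || (c == 3 && lT && (r == 3 || r == 5)) ||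
      (c == 5 && ex && !h && (r == 4 || r == 5)))

/-- Vertical edges. -/
def vF (c r : ℕ) (b0 bM lT lF h ex : Bool) : Bool :=
  if b0 && c == 0 then (if h then r % 2 == 0 else true)
  else if bM && c == 2 then (if h then true else r % 2 == 0)
  else if c % 2 = 0 then
    r == 0 || r == 8 || (r == 3 && ((c == 4 && lT) || (c == 6 && lF))) ||
      (r == 4 && ((c == 4 && lT && !(ex && h)) || (c == 6 && lF && !(ex && !h))))
  else decide (1 ≤ r ∧ r ≤ 7) &&
    (if (b0 && c == 1 && h) || (bM && c == 1 && !h) then r % 2 == 1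
    else !((r == 3 || r == 4) && ((c == 3 && lT) || (c == 7 && lF))) && !(r == 4 && c == 5 && ex))

/-- admissible data -/
def ok (c : ℕ) (bM lT lF h ex : Bool) : Bool :=
  (!bM || decide (c ≤ 2)) && (bM || !ex || (if h then lT else lF))

/-- local degree condition, columns `1, …, 7` -/
theorem deg_loc : ∀ c < 8, ∀ r < 9, ∀ b0 bM lT lF h ex : Bool,
    (decide (1 ≤ c) && decide (1 ≤ r) && ok c bM lT lF h ex && cF c r b0 bM lT lF) = true →
    (hF (c - 1) r b0 bM lT lF h ex).toNat +
      ((!(bM && c == 2)) && hF c r b0 bM lT lF h ex).toNat +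
      (vF c (r - 1) b0 bM lT lF h ex).toNat + (vF c r b0 bM lT lF h ex).toNat = 2 := by
  decide +kernel

/-- local degree condition, column `0` -/
theorem deg_loc0 : ∀ r < 9, 1 ≤ r → ∀ b0 bM lT lF h ex b0' lT' lF' ex' : Bool,
    cF 0 r b0 bM lT lF = true →
    ((!b0) && (hF 7 r b0' false lT' lF' h ex')).toNat +
      (hF 0 r b0 bM lT lF h ex).toNat +
      (vF 0 (r - 1) b0 bM lT lF h ex).toNat + (vF 0 r b0 bM lT lF h ex).toNat = 2 := by
  decide +kernel

theorem h_loc : ∀ c < 7, ∀ r < 9, ∀ b0 bM lT lF h ex : Bool,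
    ((!bM || decide (c ≤ 1)) && ok c bM lT lF h ex && hF c r b0 bM lT lF h ex) = true →
    (decide (1 ≤ r) && cF c r b0 bM lT lF && cF (c + 1) r b0 bM lT lF) = true := by
  decide +kernel

theorem h_loc7 : ∀ r < 9, ∀ b0 bM lT lF h ex : Bool,
    hF 7 r b0 bM lT lF h ex = true →
    (decide (1 ≤ r) && cF 7 r b0 bM lT lF && (r == 1 || r == 8)) = true := by
  decide +kernel

theorem c_loc0 : ∀ r < 9, ∀ b0 bM lT lF : Bool,
    (r == 1 || r == 8) = true → cF 0 r b0 bM lT lF = true := by
  decide +kernel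

theorem v_loc : ∀ c < 8, ∀ r < 8, ∀ b0 bM lT lF h ex : Bool,
    (decide (1 ≤ r) && (!bM || decide (c ≤ 2)) && vF c r b0 bM lT lF h ex) = true →
    (cF c r b0 bM lT lF && cF c (r + 1) b0 bM lT lF) = true := by
  decide +kernel

theorem v_loc0 : ∀ c < 8, ∀ b0 bM lT lF h ex : Bool,
    vF c 0 b0 bM lT lF h ex = (c % 2 == 0) ∧
      (c % 2 == 0 → cF c 1 b0 bM lT lF = true) := by
  decide +kernel

theorem v_loc8 : ∀ c < 8, ∀ b0 bM lT lF h ex : Bool,
    vF c 8 b0 bM lT lF h ex = (c % 2 == 0) ∧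
      (c % 2 == 0 → cF c 8 b0 bM lT lF = true) := by
  decide +kernel

section
variable (J : Ins) (a : ℕ → Bool) (iv : ℕ → ℕ)

/-- Horizontal edges `(X, Y) - (X + 1, Y)`. -/
def hE (X Y : ℕ) : Bool :=
  decide (X < 8 * J.M + 2) &&
  (if Y = 0 then true
  else if Y = 1 then false
  else if Y = 2 then decide (2 ≤ X % 8)
  else if Y = 3 then false
  else if Y = 4 then decide (X % 8 = 4 ∨ X % 8 = 5)
  else if Y = 9 * (J.n + 1) + 6 then decide (X % 4 ≤ 1)
  else if 9 * (J.n + 1) + 5 ≤ Y then false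
  else hF (X % 8) ((Y - 5) % 9) (decide (X / 8 = 0)) (decide (X / 8 = J.M))
    (J.lit ((Y - 5) / 9) true (X / 8)) (J.lit ((Y - 5) / 9) false (X / 8)) (a ((Y - 5) / 9))
    (decide ((Y - 5) / 9 = iv (X / 8))))

/-- Vertical edges `(X, Y) - (X, Y + 1)`. -/
def vE (X Y : ℕ) : Bool :=
  decide (X ≤ 8 * J.M + 2) &&
  (if Y ≤ 1 then decide (X = 0 ∨ X = 8 * J.M + 2)
  else if Y ≤ 3 then decide (X % 8 = 0 ∨ X % 8 = 2)
  else if Y = 4 then decide (X % 2 = 0)
  else if Y = 9 * (J.n + 1) + 5 then decide (X % 2 = 0)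
  else if 9 * (J.n + 1) + 5 < Y then false
  else vF (X % 8) ((Y - 5) % 9) (decide (X / 8 = 0)) (decide (X / 8 = J.M))
    (J.lit ((Y - 5) / 9) true (X / 8)) (J.lit ((Y - 5) / 9) false (X / 8)) (a ((Y - 5) / 9))
    (decide ((Y - 5) / 9 = iv (X / 8))))

variable {J a iv}

theorem cell_int {j c i r : ℕ} (hc : c < 8) (hX : 8 * j + c ≤ 8 * J.M + 2) (hi : i ≤ J.n)
    (h1 : 1 ≤ r) (h8 : r ≤ 8) : cell J (8 * j + c) (5 + 9 * i + r) =
      cF c r (decide (j = 0)) (decide (j = J.M)) (J.lit i true j) (J.lit i false j) := by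
  have e1 : (5 + 9 * i + r - 5) % 9 = r := by omega
  have e2 : (5 + 9 * i + r - 5) / 9 = i := by omega
  have e3 : (8 * j + c) % 8 = c := by omega
  have e4 : (8 * j + c) / 8 = j := by omega
  have e5 : (8 * j + c) % 2 = c % 2 := by omega
  unfold cell cF
  rw [if_neg (by omega), if_neg (by omega), if_neg (by omega), if_neg (by omega),
    if_neg (by omega), if_neg (by omega), if_neg (by omega), e1, e2, e3, e4, e5,
    if_neg (by omega)]
  have e6 : decide (8 * j + c ≤ 8 * J.M + 2) = true := by simpa using hX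
  rw [e6, Bool.true_and]
  by_cases hK : 8 * j + c = 0 ∨ 8 * j + c = 8 * J.M + 2
  · rw [if_pos hK, if_pos]
    rcases hK with h | h
    · have : j = 0 := by omega
      have : c = 0 := by omega
      simp [*]
    · have : j = J.M := by omega
      have : c = 2 := by omega
      simp [*]
  · have hK' : ¬ (((decide (j = 0) && c == 0) || (decide (j = J.M) && c == 2)) = true) := by
      simp only [Bool.or_eq_true, Bool.and_eq_true, decide_eq_true_eq, beq_iff_eq]
      omega
    rw [if_neg hK, if_neg hK']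
    by_cases hc2 : c % 2 = 0
    · rw [if_pos hc2, if_pos hc2]
      by_cases h5 : 3 ≤ r ∧ r ≤ 5
      · simp [h5, Bool.beq_eq_decide_eq]
      · simp [h5, Bool.beq_eq_decide_eq]
    · rw [if_neg hc2, if_neg hc2]
      simp [Bool.beq_eq_decide_eq]

theorem hE_int {j c i r : ℕ} (hc : c < 8) (hX : 8 * j + c < 8 * J.M + 2) (hi : i ≤ J.n)
    (h8 : r ≤ 8) : hE J a iv (8 * j + c) (5 + 9 * i + r) =
      hF c r (decide (j = 0)) (decide (j = J.M)) (J.lit i true j) (J.lit i false j) (a i)
        (decide (i = iv j)) := by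
  have e1 : (5 + 9 * i + r - 5) % 9 = r := by omega
  have e2 : (5 + 9 * i + r - 5) / 9 = i := by omega
  have e3 : (8 * j + c) % 8 = c := by omega
  have e4 : (8 * j + c) / 8 = j := by omega
  unfold hE
  rw [if_neg (by omega), if_neg (by omega), if_neg (by omega), if_neg (by omega),
    if_neg (by omega), if_neg (by omega), if_neg (by omega), e1, e2, e3, e4]
  have e6 : decide (8 * j + c < 8 * J.M + 2) = true := by simpa using hX
  rw [e6, Bool.true_and]

theorem vE_int {j c i r : ℕ} (hc : c < 8) (hX : 8 * j + c ≤ 8 * J.M + 2) (hi : i ≤ J.n)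
    (h8 : r ≤ 8) : vE J a iv (8 * j + c) (5 + 9 * i + r) =
      vF c r (decide (j = 0)) (decide (j = J.M)) (J.lit i true j) (J.lit i false j) (a i)
        (decide (i = iv j)) := by
  have e1 : (5 + 9 * i + r - 5) % 9 = r := by omega
  have e2 : (5 + 9 * i + r - 5) / 9 = i := by omega
  have e3 : (8 * j + c) % 8 = c := by omega
  have e4 : (8 * j + c) / 8 = j := by omega
  unfold vE
  rw [if_neg (by omega), if_neg (by omega)]
  have e6 : decide (8 * j + c ≤ 8 * J.M + 2) = true := by simpa using hX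
  rw [e6, Bool.true_and]
  by_cases h0 : 5 + 9 * i + r = 4
  · omega
  · rw [if_neg h0, if_neg (by omega), if_neg (by omega), e1, e2, e3, e4]

/-- The hypothesis on the choice of literals. -/
def Hyp (J : Ins) (a : ℕ → Bool) (iv : ℕ → ℕ) : Prop :=
  ∀ k < J.M, iv k < J.n ∧ J.lit (iv k) (a (iv k)) k = true

theorem ok_int (H : Hyp J a iv) {j c i : ℕ} (hc : c < 8) (hX : 8 * j + c ≤ 8 * J.M + 2) :
    ok c (decide (j = J.M)) (J.lit i true j) (J.lit i false j) (a i) (decide (i = iv j)) = true := by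
  unfold ok
  by_cases hj : j = J.M
  · have : c ≤ 2 := by omega
    simp [hj, this]
  · have hj' : j < J.M := by omega
    by_cases hi : i = iv j
    · have := (H j hj').2
      rw [← hi] at this
      cases h : a i
      · rw [h] at this
        simp [hj, this]
      · rw [h] at this
        simp [hj, this]
    · simp [hj, hi]

theorem cell_T {X i : ℕ} (hX : X ≤ 8 * J.M + 2) (h2 : X % 2 = 0) (hi : i ≤ J.n + 1) :
    cell J X (5 + 9 * i) = true := by
  have e1 : (5 + 9 * i - 5) % 9 = 0 := by omega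
  unfold cell
  rw [if_neg (by omega), if_neg (by omega), if_neg (by omega), if_neg (by omega),
    if_neg (by omega), if_neg (by omega), if_neg (by omega), e1, if_pos rfl]
  simp [hX, h2]

theorem cell_T' {X i : ℕ} (hi : i ≤ J.n + 1) (h : cell J X (5 + 9 * i) = true) :
    X ≤ 8 * J.M + 2 ∧ X % 2 = 0 := by
  have e1 : (5 + 9 * i - 5) % 9 = 0 := by omega
  unfold cell at h
  rw [if_neg (by omega), if_neg (by omega), if_neg (by omega), if_neg (by omega),
    if_neg (by omega), if_neg (by omega), if_neg (by omega), e1, if_pos rfl] at h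
  simpa using h

/-- classification of the rows -/
theorem rows (J : Ins) (Y : ℕ) : Y = 0 ∨ Y = 1 ∨ Y = 2 ∨ Y = 3 ∨ Y = 4 ∨
    (∃ i r, i ≤ J.n ∧ r < 9 ∧ Y = 5 + 9 * i + r) ∨ Y = 5 + 9 * (J.n + 1) ∨
    Y = 9 * (J.n + 1) + 6 ∨ 9 * (J.n + 1) + 6 < Y := by
  by_cases h : 5 ≤ Y ∧ Y < 5 + 9 * (J.n + 1)
  · refine Or.inr (Or.inr (Or.inr (Or.inr (Or.inr (Or.inl ⟨(Y - 5) / 9, (Y - 5) % 9, ?_, ?_, ?_⟩)))))
    all_goals omega
  · omega

theorem hE_cell (H : Hyp J a iv) {X Y : ℕ} (h : hE J a iv X Y = true) :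
    cell J X Y = true ∧ cell J (X + 1) Y = true := by
  have hX : X < 8 * J.M + 2 := by
    unfold hE at h
    simp only [Bool.and_eq_true, decide_eq_true_eq] at h
    exact h.1
  rcases rows J Y with rfl | rfl | rfl | rfl | rfl | ⟨i, r, hi, hr, rfl⟩ | rfl | rfl | hY
  · simp [hE, cell] at h ⊢; omega
  · simp [hE] at h
  · simp [hE, cell] at h ⊢; omega
  · simp [hE] at h
  · simp [hE, cell] at h ⊢; omega
  · obtain ⟨j, c, hc, rfl⟩ : ∃ j c, c < 8 ∧ X = 8 * j + c := ⟨X / 8, X % 8, by omega, by omega⟩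
    have hr8 : r ≤ 8 := by omega
    rw [hE_int hc hX hi hr8] at h
    by_cases hc7 : c = 7
    · subst hc7
      have h2 := h_loc7 r hr _ _ _ _ _ _ h
      simp only [Bool.and_eq_true, decide_eq_true_eq] at h2
      refine ⟨?_, ?_⟩
      · rw [cell_int (by omega) hX.le hi h2.1.1 hr8]; exact h2.1.2
      · have e : 8 * j + 7 + 1 = 8 * (j + 1) + 0 := by ring
        rw [e, cell_int (by omega) (by omega) hi h2.1.1 hr8]
        exact c_loc0 r hr _ _ _ _ h2.2
    · have hc' : c < 7 := by omega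
      have hok := ok_int H hc hX.le (i := i)
      have h2 := h_loc c hc' r hr (decide (j = 0)) (decide (j = J.M)) (J.lit i true j)
        (J.lit i false j) (a i) (decide (i = iv j)) (by
          simp only [Bool.and_eq_true, h, hok, and_true]
          by_cases hj : j = J.M
          · have : c ≤ 1 := by omega
            simp [this]
          · simp [hj])
      simp only [Bool.and_eq_true, decide_eq_true_eq] at h2
      refine ⟨?_, ?_⟩
      · rw [cell_int hc hX.le hi h2.1.1 hr8]; exact h2.1.2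
      · rw [add_assoc, cell_int (by omega) (by omega) hi h2.1.1 hr8]; exact h2.2
  · exfalso
    unfold hE at h
    rw [if_neg (by omega), if_neg (by omega), if_neg (by omega), if_neg (by omega),
      if_neg (by omega), if_neg (by omega), if_pos (by omega)] at h
    simp at h
  · unfold hE at h
    rw [if_neg (by omega), if_neg (by omega), if_neg (by omega), if_neg (by omega),
      if_neg (by omega), if_pos rfl] at h
    simp only [Bool.and_eq_true, decide_eq_true_eq] at h
    unfold cell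
    rw [if_neg (by omega), if_neg (by omega), if_neg (by omega), if_neg (by omega),
      if_neg (by omega), if_pos rfl, if_neg (by omega), if_neg (by omega), if_neg (by omega),
      if_neg (by omega), if_neg (by omega), if_pos rfl]
    simp only [Bool.and_eq_true, decide_eq_true_eq]
    omega
  · exfalso
    unfold hE at h
    rw [if_neg (by omega), if_neg (by omega), if_neg (by omega), if_neg (by omega),
      if_neg (by omega), if_neg (by omega), if_pos (by omega)] at h
    simp at h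

theorem vE_T {X i : ℕ} (hX : X ≤ 8 * J.M + 2) (h2 : X % 2 = 0) (hi : i ≤ J.n + 1) :
    vE J a iv X (5 + 9 * i) = true := by
  by_cases hi' : i = J.n + 1
  · subst hi'
    unfold vE
    rw [if_neg (by omega), if_neg (by omega), if_neg (by omega), if_pos (by omega)]
    simp [hX, h2]
  · obtain ⟨j, c, hc, rfl⟩ : ∃ j c, c < 8 ∧ X = 8 * j + c := ⟨X / 8, X % 8, by omega, by omega⟩
    have e : 5 + 9 * i = 5 + 9 * i + 0 := by ring
    rw [e, vE_int hc hX (by omega) (by omega), (v_loc0 c hc _ _ _ _ _ _).1]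
    have : c % 2 = 0 := by omega
    simp [this]

theorem vE_T' {X i : ℕ} (hi : i ≤ J.n + 1) (h : vE J a iv X (5 + 9 * i) = true) :
    X ≤ 8 * J.M + 2 ∧ X % 2 = 0 := by
  have hX : X ≤ 8 * J.M + 2 := by
    unfold vE at h
    simp only [Bool.and_eq_true, decide_eq_true_eq] at h
    exact h.1
  refine ⟨hX, ?_⟩
  by_cases hi' : i = J.n + 1
  · subst hi'
    unfold vE at h
    rw [if_neg (by omega), if_neg (by omega), if_neg (by omega), if_pos (by omega)] at h
    simp only [Bool.and_eq_true, decide_eq_true_eq] at h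
    exact h.2
  · obtain ⟨j, c, hc, rfl⟩ : ∃ j c, c < 8 ∧ X = 8 * j + c := ⟨X / 8, X % 8, by omega, by omega⟩
    have e : 5 + 9 * i = 5 + 9 * i + 0 := by ring
    rw [e, vE_int hc hX (by omega) (by omega), (v_loc0 c hc _ _ _ _ _ _).1] at h
    simp only [beq_iff_eq] at h
    omega

/-- the vertical edge below a T cell -/
theorem vE_B {X i : ℕ} (hX : X ≤ 8 * J.M + 2) (h2 : X % 2 = 0) (hi : i ≤ J.n + 1) :
    vE J a iv X (4 + 9 * i) = true := by
  by_cases hi' : i = 0
  · subst hi'
    unfold vE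
    rw [if_neg (by omega), if_neg (by omega), if_pos (by omega)]
    simp [hX, h2]
  · obtain ⟨j, c, hc, rfl⟩ : ∃ j c, c < 8 ∧ X = 8 * j + c := ⟨X / 8, X % 8, by omega, by omega⟩
    obtain ⟨i', rfl⟩ : ∃ i', i = i' + 1 := ⟨i - 1, by omega⟩
    have e : 4 + 9 * (i' + 1) = 5 + 9 * i' + 8 := by ring
    rw [e, vE_int hc hX (by omega) (by omega), (v_loc8 c hc _ _ _ _ _ _).1]
    have : c % 2 = 0 := by omega
    simp [this]

theorem vE_cell (H : Hyp J a iv) {X Y : ℕ} (h : vE J a iv X Y = true) :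
    cell J X Y = true ∧ cell J X (Y + 1) = true := by
  have hX : X ≤ 8 * J.M + 2 := by
    unfold vE at h
    simp only [Bool.and_eq_true, decide_eq_true_eq] at h
    exact h.1
  rcases rows J Y with rfl | rfl | rfl | rfl | rfl | ⟨i, r, hi, hr, rfl⟩ | rfl | rfl | hY
  · simp [vE, cell] at h ⊢; omega
  · simp [vE, cell] at h ⊢; omega
  · simp [vE, cell] at h ⊢; omega
  · simp [vE, cell] at h ⊢; omega
  · have h2 : X % 2 = 0 := by simp [vE] at h; omega
    refine ⟨?_, ?_⟩
    · simp [cell]; omega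
    · exact cell_T (i := 0) hX h2 (by omega)
  · obtain ⟨j, c, hc, rfl⟩ : ∃ j c, c < 8 ∧ X = 8 * j + c := ⟨X / 8, X % 8, by omega, by omega⟩
    have hr8 : r ≤ 8 := by omega
    rw [vE_int hc hX hi hr8] at h
    by_cases hr0 : r = 0
    · subst hr0
      rw [(v_loc0 c hc _ _ _ _ _ _).1] at h
      have hc2 : c % 2 = 0 := by simpa using h
      refine ⟨cell_T hX (by omega) (by omega), ?_⟩
      rw [add_assoc, cell_int hc hX hi (by omega) (by omega)]
      exact (v_loc0 c hc (decide (j = 0)) (decide (j = J.M)) (J.lit i true j)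
        (J.lit i false j) true true).2 (by simp [hc2])
    · by_cases hr8' : r = 8
      · subst hr8'
        rw [(v_loc8 c hc _ _ _ _ _ _).1] at h
        have hc2 : c % 2 = 0 := by simpa using h
        refine ⟨?_, ?_⟩
        · rw [cell_int hc hX hi (by omega) (by omega)]
          exact (v_loc8 c hc (decide (j = 0)) (decide (j = J.M)) (J.lit i true j)
            (J.lit i false j) true true).2 (by simp [hc2])
        · have e : 5 + 9 * i + 8 + 1 = 5 + 9 * (i + 1) := by ring
          rw [e]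
          exact cell_T hX (by omega) (by omega)
      · have h2 := v_loc c hc r (by omega) (decide (j = 0)) (decide (j = J.M)) (J.lit i true j)
          (J.lit i false j) (a i) (decide (i = iv j)) (by
            simp only [Bool.and_eq_true, h, and_true, decide_eq_true_eq]
            refine ⟨by omega, ?_⟩
            by_cases hj : j = J.M
            · have : c ≤ 2 := by omega
              simp [this]
            · simp [hj])
        simp only [Bool.and_eq_true] at h2
        refine ⟨?_, ?_⟩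
        · rw [cell_int hc hX hi (by omega) (by omega)]; exact h2.1
        · rw [add_assoc, cell_int hc hX hi (by omega) (by omega)]; exact h2.2
  · have h2 := vE_T' (by omega) h
    refine ⟨cell_T hX h2.2 (by omega), ?_⟩
    unfold cell
    rw [if_neg (by omega), if_neg (by omega), if_neg (by omega), if_neg (by omega),
      if_neg (by omega), if_pos (by omega)]
    simp only [Bool.and_eq_true, decide_eq_true_eq]
    omega
  · exfalso
    unfold vE at h
    rw [if_neg (by omega), if_neg (by omega), if_neg (by omega), if_neg (by omega),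
      if_pos (by omega)] at h
    simp at h
  · exfalso
    unfold vE at h
    rw [if_neg (by omega), if_neg (by omega), if_neg (by omega), if_neg (by omega),
      if_pos (by omega)] at h
    simp at h

/-- number of edges at a cell -/
def dg (J : Ins) (a : ℕ → Bool) (iv : ℕ → ℕ) (X Y : ℕ) : ℕ :=
  (decide (0 < X) && hE J a iv (X - 1) Y).toNat + (hE J a iv X Y).toNat +
    (decide (0 < Y) && vE J a iv X (Y - 1)).toNat + (vE J a iv X Y).toNat

theorem tn (p : Prop) [Decidable p] : (decide p).toNat = if p then 1 else 0 := by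
  by_cases h : p <;> simp [h]

theorem dg_eq {X Y : ℕ} (p1 p2 p3 p4 : Prop) [Decidable p1] [Decidable p2] [Decidable p3]
    [Decidable p4] (h1 : hE J a iv (X - 1) Y = decide p1) (h2 : hE J a iv X Y = decide p2)
    (h3 : vE J a iv X (Y - 1) = decide p3) (h4 : vE J a iv X Y = decide p4) :
    dg J a iv X Y = (if 0 < X ∧ p1 then 1 else 0) + (if p2 then 1 else 0) +
      (if 0 < Y ∧ p3 then 1 else 0) + (if p4 then 1 else 0) := by
  unfold dg
  rw [h1, h2, h3, h4, ← Bool.decide_and, ← Bool.decide_and, tn, tn, tn, tn]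

theorem deg (H : Hyp J a iv) {X Y : ℕ} (h : cell J X Y = true) : dg J a iv X Y = 2 := by
  have hX : X ≤ 8 * J.M + 2 := by
    unfold cell at h
    simp only [Bool.and_eq_true, decide_eq_true_eq] at h
    exact h.1
  rcases rows J Y with rfl | rfl | rfl | rfl | rfl | ⟨i, r, hi, hr, rfl⟩ | rfl | rfl | hY
  · rw [dg_eq (X - 1 < 8 * J.M + 2) (X < 8 * J.M + 2) (X = 0 ∨ X = 8 * J.M + 2)
      (X = 0 ∨ X = 8 * J.M + 2) (by simp [hE]) (by simp [hE]) (by simp [vE, hX])
      (by simp [vE, hX])]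
    split_ifs <;> first | omega | tauto
  · have hc : X = 0 ∨ X = 8 * J.M + 2 := by simpa [cell, hX] using h
    rw [dg_eq False False (X = 0 ∨ X = 8 * J.M + 2)
      (X = 0 ∨ X = 8 * J.M + 2) (by simp [hE]) (by simp [hE]) (by simp [vE, hX])
      (by simp [vE, hX])]
    split_ifs <;> first | omega | tauto
  · have hc : X = 0 ∨ X = 8 * J.M + 2 ∨ (2 ≤ X ∧ X ≤ 8 * J.M ∧ X % 8 ≠ 1) := by
      simpa [cell, hX] using h
    rw [dg_eq (X - 1 < 8 * J.M + 2 ∧ 2 ≤ (X - 1) % 8) (X < 8 * J.M + 2 ∧ 2 ≤ X % 8)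
      (X = 0 ∨ X = 8 * J.M + 2) (X % 8 = 0 ∨ X % 8 = 2) (by simp [hE]) (by simp [hE])
      (by simp [vE, hX]) (by simp [vE, hX])]
    split_ifs <;> first | omega | tauto
  · have hc : X = 0 ∨ X = 8 * J.M + 2 ∨ X % 8 = 2 ∨ X % 8 = 0 := by
      simpa [cell, hX] using h
    rw [dg_eq False False (X % 8 = 0 ∨ X % 8 = 2) (X % 8 = 0 ∨ X % 8 = 2) (by simp [hE])
      (by simp [hE]) (by simp [vE, hX]) (by simp [vE, hX])]
    split_ifs <;> first | omega | tauto
  · have hc : X % 8 = 0 ∨ X % 8 = 2 ∨ X % 8 = 4 ∨ X % 8 = 5 ∨ X % 8 = 6 := by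
      simpa [cell, hX] using h
    rw [dg_eq (X - 1 < 8 * J.M + 2 ∧ ((X - 1) % 8 = 4 ∨ (X - 1) % 8 = 5))
      (X < 8 * J.M + 2 ∧ (X % 8 = 4 ∨ X % 8 = 5)) (X % 8 = 0 ∨ X % 8 = 2) (X % 2 = 0)
      (by simp [hE]) (by simp [hE]) (by simp [vE, hX]) (by simp [vE, hX])]
    split_ifs <;> first | omega | tauto
  · by_cases hr0 : r = 0
    · subst hr0
      rw [add_zero] at h
      obtain ⟨-, hc⟩ := cell_T' (by omega) h
      have hz : ∀ x, hE J a iv x (5 + 9 * i) = false := by
        intro x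
        by_cases hx : x < 8 * J.M + 2
        · obtain ⟨j, c, hc, rfl⟩ : ∃ j c, c < 8 ∧ x = 8 * j + c :=
            ⟨x / 8, x % 8, by omega, by omega⟩
          have e : 5 + 9 * i = 5 + 9 * i + 0 := by ring
          rw [e, hE_int hc hx hi (by omega)]
          simp [hF]
        · simp [hE, hx]
      have hB := vE_B (a := a) (iv := iv) hX hc (i := i) (by omega)
      have hT := vE_T (a := a) (iv := iv) hX hc (i := i) (by omega)
      have e : 5 + 9 * i + 0 - 1 = 4 + 9 * i := by omega
      unfold dg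
      rw [e, add_zero, hz, hz, hB, hT]
      simp
    · obtain ⟨j, c, hc, rfl⟩ : ∃ j c, c < 8 ∧ X = 8 * j + c := ⟨X / 8, X % 8, by omega, by omega⟩
      have hr8 : r ≤ 8 := by omega
      rw [cell_int hc hX hi (by omega) hr8] at h
      have hok := ok_int H hc hX (i := i)
      obtain ⟨r', rfl⟩ : ∃ r', r = r' + 1 := ⟨r - 1, by omega⟩
      have e : 5 + 9 * i + (r' + 1) - 1 = 5 + 9 * i + r' := by omega
      have hY0 : 0 < 5 + 9 * i + (r' + 1) := by omega
      by_cases hc0 : c = 0
      · subst hc0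
        have hd := deg_loc0 (r' + 1) hr (by omega) (decide (j = 0)) (decide (j = J.M))
          (J.lit i true j) (J.lit i false j) (a i) (decide (i = iv j)) (decide (j - 1 = 0))
          (J.lit i true (j - 1)) (J.lit i false (j - 1)) (decide (i = iv (j - 1))) h
        unfold dg
        rw [e, vE_int hc hX hi (by omega), vE_int hc hX hi hr8, hE_int hc (by omega) hi hr8]
        by_cases hj : j = 0
        · subst hj
          simpa using hd
        · have e2 : 8 * j + 0 - 1 = 8 * (j - 1) + 7 := by omega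
          have e3 : decide (j - 1 = J.M) = false := by simp; omega
          rw [e2, hE_int (by omega) (by omega) hi hr8, e3]
          have e4 : decide (0 < 8 * j + 0) = !decide (j = 0) := by
            simp [hj]; omega
          rw [e4]
          simpa [hj] using hd
      · have hd := deg_loc c hc (r' + 1) hr (decide (j = 0)) (decide (j = J.M))
          (J.lit i true j) (J.lit i false j) (a i) (decide (i = iv j)) (by
            simp only [Bool.and_eq_true, decide_eq_true_eq]
            exact ⟨⟨⟨by omega, by omega⟩, hok⟩, h⟩)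
        have e2 : 8 * j + c - 1 = 8 * j + (c - 1) := by omega
        unfold dg
        rw [e, e2, vE_int hc hX hi (by omega), vE_int hc hX hi hr8,
          hE_int (by omega) (by omega) hi hr8]
        have e3 : hE J a iv (8 * j + c) (5 + 9 * i + (r' + 1)) =
            ((!(decide (j = J.M) && c == 2)) && hF c (r' + 1) (decide (j = 0)) (decide (j = J.M))
              (J.lit i true j) (J.lit i false j) (a i) (decide (i = iv j))) := by
          by_cases hx : 8 * j + c < 8 * J.M + 2
          · rw [hE_int hc hx hi hr8]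
            have : (decide (j = J.M) && c == 2) = false := by
              simp; omega
            rw [this]; rfl
          · have hj : j = J.M := by omega
            have hc2 : c = 2 := by omega
            simp [hE, hj, hc2]
        rw [e3]
        have e4 : decide (0 < 8 * j + c) = true := by simp; omega
        rw [e4]
        simpa using hd
  · obtain ⟨-, hc⟩ := cell_T' le_rfl h
    have hz : ∀ x, hE J a iv x (5 + 9 * (J.n + 1)) = false := by
      intro x
      unfold hE
      rw [if_neg (by omega), if_neg (by omega), if_neg (by omega), if_neg (by omega),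
        if_neg (by omega), if_neg (by omega), if_pos (by omega)]
      simp
    have hB := vE_B (a := a) (iv := iv) hX hc (i := J.n + 1) (by omega)
    have hT := vE_T (a := a) (iv := iv) hX hc (i := J.n + 1) (by omega)
    have e : 5 + 9 * (J.n + 1) - 1 = 4 + 9 * (J.n + 1) := by omega
    unfold dg
    rw [e, hz, hz, hB, hT]
    simp
  · have hc : X % 4 ≠ 3 := by
      unfold cell at h
      rw [if_neg (by omega), if_neg (by omega), if_neg (by omega), if_neg (by omega),
        if_neg (by omega), if_pos (by omega)] at h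
      simp only [Bool.and_eq_true, decide_eq_true_eq] at h
      exact h.2
    have e1 : ∀ x, hE J a iv x (9 * (J.n + 1) + 6) = decide (x < 8 * J.M + 2 ∧ x % 4 ≤ 1) := by
      intro x
      unfold hE
      rw [if_neg (by omega), if_neg (by omega), if_neg (by omega), if_neg (by omega),
        if_neg (by omega), if_pos rfl]
      simp
    have e2 : vE J a iv X (9 * (J.n + 1) + 6 - 1) = decide (X % 2 = 0) := by
      have e : 9 * (J.n + 1) + 6 - 1 = 9 * (J.n + 1) + 5 := by omega
      unfold vE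
      rw [e, if_neg (by omega), if_neg (by omega), if_neg (by omega), if_pos rfl]
      simp [hX]
    have e3 : vE J a iv X (9 * (J.n + 1) + 6) = decide False := by
      unfold vE
      rw [if_neg (by omega), if_neg (by omega), if_neg (by omega), if_neg (by omega),
        if_pos (by omega)]
      simp
    rw [dg_eq (X - 1 < 8 * J.M + 2 ∧ (X - 1) % 4 ≤ 1) (X < 8 * J.M + 2 ∧ X % 4 ≤ 1)
      (X % 2 = 0) False (e1 _) (e1 _) e2 e3]
    split_ifs <;> first | omega | tauto
  · exfalso
    unfold cell at h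
    rw [if_neg (by omega), if_neg (by omega), if_neg (by omega), if_neg (by omega),
      if_neg (by omega), if_neg (by omega), if_pos (by omega)] at h
    simp at h

/-! ### connectivity -/

variable (J a iv) in
/-- The edges. -/
def E (p q : ℕ × ℕ) : Prop :=
  (p.2 = q.2 ∧ ((q.1 = p.1 + 1 ∧ hE J a iv p.1 p.2 = true) ∨
    (p.1 = q.1 + 1 ∧ hE J a iv q.1 q.2 = true))) ∨
  (p.1 = q.1 ∧ ((q.2 = p.2 + 1 ∧ vE J a iv p.1 p.2 = true) ∨
    (p.2 = q.2 + 1 ∧ vE J a iv q.1 q.2 = true)))

theorem E_symm {p q : ℕ × ℕ} (h : E J a iv p q) : E J a iv q p := by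
  rcases h with ⟨h1, h2 | h2⟩ | ⟨h1, h2 | h2⟩
  · exact Or.inl ⟨h1.symm, Or.inr h2⟩
  · exact Or.inl ⟨h1.symm, Or.inl h2⟩
  · exact Or.inr ⟨h1.symm, Or.inr h2⟩
  · exact Or.inr ⟨h1.symm, Or.inl h2⟩

variable (J a iv) in
/-- Connection. -/
def Con (p q : ℕ × ℕ) : Prop := Relation.ReflTransGen (E J a iv) p q

theorem Con.rfl' {p : ℕ × ℕ} : Con J a iv p p := Relation.ReflTransGen.refl

theorem Con.symm {p q : ℕ × ℕ} (h : Con J a iv p q) : Con J a iv q p := by
  unfold Con at *
  induction h with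
  | refl => exact Relation.ReflTransGen.refl
  | tail _ h2 ih => exact Relation.ReflTransGen.head (E_symm h2) ih

theorem Con.trans {p q r : ℕ × ℕ} (h : Con J a iv p q) (h' : Con J a iv q r) :
    Con J a iv p r := Relation.ReflTransGen.trans h h'

theorem con_h {X Y : ℕ} (h : hE J a iv X Y = true) : Con J a iv (X, Y) (X + 1, Y) :=
  Relation.ReflTransGen.single (Or.inl ⟨rfl, Or.inl ⟨rfl, h⟩⟩)

theorem con_v {X Y : ℕ} (h : vE J a iv X Y = true) : Con J a iv (X, Y) (X, Y + 1) :=
  Relation.ReflTransGen.single (Or.inr ⟨rfl, Or.inl ⟨rfl, h⟩⟩)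

theorem conH {j c i r : ℕ} (hc : c < 8) (hX : 8 * j + c < 8 * J.M + 2) (hi : i ≤ J.n)
    (h8 : r ≤ 8) (h : hF c r (decide (j = 0)) (decide (j = J.M)) (J.lit i true j)
      (J.lit i false j) (a i) (decide (i = iv j)) = true) :
    Con J a iv (8 * j + c, 5 + 9 * i + r) (8 * j + c + 1, 5 + 9 * i + r) :=
  con_h (by rw [hE_int hc hX hi h8]; exact h)

theorem conV {j c i r : ℕ} (hc : c < 8) (hX : 8 * j + c ≤ 8 * J.M + 2) (hi : i ≤ J.n)
    (h8 : r ≤ 8) (h : vF c r (decide (j = 0)) (decide (j = J.M)) (J.lit i true j)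
      (J.lit i false j) (a i) (decide (i = iv j)) = true) :
    Con J a iv (8 * j + c, 5 + 9 * i + r) (8 * j + c, 5 + 9 * i + r + 1) :=
  con_v (by rw [vE_int hc hX hi h8]; exact h)

/-- a strand cell above a T cell -/
theorem con_T {X i : ℕ} (hX : X ≤ 8 * J.M + 2) (h2 : X % 2 = 0) (hi : i ≤ J.n + 1) :
    Con J a iv (X, 5 + 9 * i) (X, 5 + 9 * i + 1) := con_v (vE_T hX h2 hi)

/-- a strand cell below a T cell -/
theorem con_B {X i : ℕ} (hX : X ≤ 8 * J.M + 2) (h2 : X % 2 = 0) (hi : i ≤ J.n) :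
    Con J a iv (X, 5 + 9 * i + 8) (X, 5 + 9 * (i + 1)) := by
  have h := vE_B (J := J) (a := a) (iv := iv) (i := i + 1) hX h2 (by omega)
  have e : 4 + 9 * (i + 1) = 5 + 9 * i + 8 := by ring
  have e' : 5 + 9 * (i + 1) = 5 + 9 * i + 8 + 1 := by ring
  rw [e] at h
  rw [e']
  exact con_v h

theorem v_str : ∀ c < 8, ∀ r < 8, ∀ b0 bM lT lF h ex : Bool,
    (c % 2 == 1 && (r == 1 || r == 2 || r == 5 || r == 6 || r == 7) &&
      !((b0 && c == 1 && h) || (bM && c == 1 && !h))) = true →
    vF c r b0 bM lT lF h ex = true := by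
  decide +kernel

theorem v_mid3 : ∀ c < 8, ∀ b0 bM lT lF h ex : Bool,
    (c % 2 == 1 && !((c == 3 && lT) || (c == 7 && lF)) &&
      !((b0 && c == 1 && h) || (bM && c == 1 && !h))) = true →
    vF c 3 b0 bM lT lF h ex = true := by
  decide +kernel

theorem v_mid4 : ∀ c < 8, ∀ b0 bM lT lF h ex : Bool,
    (c % 2 == 1 && !((c == 3 && lT) || (c == 7 && lF)) && !(c == 5 && ex) &&
      !((b0 && c == 1 && h) || (bM && c == 1 && !h))) = true →
    vF c 4 b0 bM lT lF h ex = true := by
  decide +kernel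

/-- the strand that takes the chain `8 j + c` in band `i` -/
def own (a : ℕ → Bool) (j c i : ℕ) : ℕ := if a i then 8 * j + c - 1 else 8 * j + c + 1

/-- ladder -/
theorem ladder {x o i : ℕ}
    (rung : ∀ r, 1 ≤ r → r ≤ 8 → Con J a iv (x, 5 + 9 * i + r) (o, 5 + 9 * i + r))
    (vx : ∀ r, r ≤ 8 → r % 2 = 1 → Con J a iv (x, 5 + 9 * i + r) (x, 5 + 9 * i + (r + 1)))
    (vo : ∀ r, r ≤ 8 → r % 2 = 0 → Con J a iv (o, 5 + 9 * i + r) (o, 5 + 9 * i + (r + 1)))
    (r : ℕ) : 1 ≤ r → r ≤ 8 → Con J a iv (x, 5 + 9 * i + r) (o, 5 + 9 * i) := by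
  induction r with
  | zero => intro h; omega
  | succ r ih =>
    intro _ h8
    by_cases h0 : r = 0
    · subst h0
      exact (rung 1 le_rfl (by omega)).trans (vo 0 (by omega) rfl).symm
    · have h1 := ih (by omega) (by omega)
      by_cases h2 : r % 2 = 1
      · exact (vx r (by omega) h2).symm.trans h1
      · exact (rung (r + 1) (by omega) h8).trans ((vo r (by omega) (by omega)).symm.trans
          ((rung r (by omega) (by omega)).symm.trans h1))

/-- The chain is a ladder. -/
def Lad (J : Ins) (a : ℕ → Bool) (j c i : ℕ) : Prop :=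
  (j = 0 ∧ c = 1 ∧ a i = true) ∨ (j = J.M ∧ c = 1 ∧ a i = false)

theorem lad_con {j c i : ℕ} (hc : c < 8) (hX : 8 * j + c < 8 * J.M + 2) (hi : i ≤ J.n)
    (hl : Lad J a j c i) :
    (∀ r, 1 ≤ r → r ≤ 8 → Con J a iv (8 * j + c, 5 + 9 * i + r) (own a j c i, 5 + 9 * i)) ∧
    (∀ r, 1 ≤ r → r ≤ 8 → Con J a iv (own a j c i, 5 + 9 * i + r) (own a j c i, 5 + 9 * i)) ∧
    Con J a iv (own a j c i, 5 + 9 * (i + 1)) (own a j c i, 5 + 9 * i) := by
  rcases hl with ⟨rfl, rfl, ha⟩ | ⟨rfl, rfl, ha⟩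
  · have ho : own a 0 1 i = 0 := by simp [own, ha]
    have rung : ∀ r, 1 ≤ r → r ≤ 8 →
        Con J a iv (8 * 0 + 1, 5 + 9 * i + r) (0, 5 + 9 * i + r) := by
      intro r h1 h8
      have := conH (J := J) (a := a) (iv := iv) (j := 0) (c := 0) (i := i) (r := r) (by omega)
        (by omega) hi h8 (by simp [hF, ha, h1])
      exact this.symm
    have vo : ∀ r, r ≤ 8 → r % 2 = 0 →
        Con J a iv (0, 5 + 9 * i + r) (0, 5 + 9 * i + (r + 1)) := by
      intro r h8 h2
      exact conV (J := J) (a := a) (iv := iv) (j := 0) (c := 0) (i := i) (r := r) (by omega)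
        (by omega) hi h8 (by simp [vF, ha, h2])
    have vx : ∀ r, r ≤ 8 → r % 2 = 1 →
        Con J a iv (8 * 0 + 1, 5 + 9 * i + r) (8 * 0 + 1, 5 + 9 * i + (r + 1)) := by
      intro r h8 h2
      exact conV (J := J) (a := a) (iv := iv) (j := 0) (c := 1) (i := i) (r := r) (by omega)
        (by omega) hi h8 (by simp [vF, ha, h2]; omega)
    have main := ladder rung vx vo
    rw [ho]
    refine ⟨main, ?_, ?_⟩
    · intro r h1 h8
      exact (rung r h1 h8).symm.trans (main r h1 h8)
    · exact (vo 8 le_rfl rfl).symm.trans ((rung 8 (by omega) le_rfl).symm.trans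
        (main 8 (by omega) le_rfl))
  · have ho : own a J.M 1 i = 8 * J.M + 2 := by simp [own, ha]
    have rung : ∀ r, 1 ≤ r → r ≤ 8 →
        Con J a iv (8 * J.M + 1, 5 + 9 * i + r) (8 * J.M + 2, 5 + 9 * i + r) := by
      intro r h1 h8
      exact conH (J := J) (a := a) (iv := iv) (j := J.M) (c := 1) (i := i) (r := r) (by omega)
        (by omega) hi h8 (by simp [hF, ha, h1])
    have vo : ∀ r, r ≤ 8 → r % 2 = 0 →
        Con J a iv (8 * J.M + 2, 5 + 9 * i + r) (8 * J.M + 2, 5 + 9 * i + (r + 1)) := by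
      intro r h8 h2
      exact conV (J := J) (a := a) (iv := iv) (j := J.M) (c := 2) (i := i) (r := r) (by omega)
        (by omega) hi h8 (by simp [vF, ha, h2])
    have vx : ∀ r, r ≤ 8 → r % 2 = 1 →
        Con J a iv (8 * J.M + 1, 5 + 9 * i + r) (8 * J.M + 1, 5 + 9 * i + (r + 1)) := by
      intro r h8 h2
      exact conV (J := J) (a := a) (iv := iv) (j := J.M) (c := 1) (i := i) (r := r) (by omega)
        (by omega) hi h8 (by simp [vF, ha, h2]; omega)
    have main := ladder rung vx vo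
    rw [ho]
    refine ⟨main, ?_, ?_⟩
    · intro r h1 h8
      exact (rung r h1 h8).symm.trans (main r h1 h8)
    · exact (vo 8 le_rfl rfl).symm.trans ((rung 8 (by omega) le_rfl).symm.trans
        (main 8 (by omega) le_rfl))

theorem h_r18 : ∀ c < 8, ∀ r < 9, ∀ b0 bM lT lF h ex : Bool,
    ((r == 1 || r == 8) && ((c % 2 == 0 && h) || (c % 2 == 1 && !h))) = true →
    hF c r b0 bM lT lF h ex = true := by
  decide +kernel

/-- the first and last cell of a chain -/
theorem own_con {j c i r : ℕ} (hc : c < 8) (hodd : c % 2 = 1) (hX : 8 * j + c < 8 * J.M + 2)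
    (hi : i ≤ J.n) (hr : r = 1 ∨ r = 8) :
    Con J a iv (8 * j + c, 5 + 9 * i + r) (own a j c i, 5 + 9 * i + r) := by
  have hr8 : r ≤ 8 := by omega
  have hrb : (r == 1 || r == 8) = true := by
    rcases hr with rfl | rfl <;> rfl
  cases ha : a i
  · have ho : own a j c i = 8 * j + c + 1 := by simp [own, ha]
    rw [ho]
    apply conH hc hX hi hr8
    apply h_r18 c hc r (by omega)
    simp [hrb, hodd, ha]
  · have ho : own a j c i = 8 * j + (c - 1) := by simp [own, ha]; omega
    rw [ho]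
    apply Con.symm
    have e : 8 * j + c = 8 * j + (c - 1) + 1 := by omega
    rw [e]
    apply conH (by omega) (by omega) hi hr8
    apply h_r18 (c - 1) (by omega) r (by omega)
    have : (c - 1) % 2 = 0 := by omega
    simp [hrb, this, ha]

theorem own_even {j c i : ℕ} (hc : c < 8) (hodd : c % 2 = 1) : own a j c i % 2 = 0 := by
  unfold own; split_ifs <;> omega

theorem own_le {j c i : ℕ} (hc : c < 8) (hodd : c % 2 = 1) (hX : 8 * j + c < 8 * J.M + 2) :
    own a j c i ≤ 8 * J.M + 2 := by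
  unfold own; split_ifs <;> omega

theorem nlad {j c i : ℕ} (h : ¬ Lad J a j c i) :
    (!((decide (j = 0) && c == 1 && a i) || (decide (j = J.M) && c == 1 && !a i))) = true := by
  unfold Lad at h
  by_cases h1 : j = 0 <;> by_cases h2 : j = J.M <;> by_cases h3 : c = 1 <;> cases h4 : a i <;>
    simp_all

theorem chain_low {j c i : ℕ} (hc : c < 8) (hodd : c % 2 = 1) (hX : 8 * j + c < 8 * J.M + 2)
    (hi : i ≤ J.n) (hl : ¬ Lad J a j c i) :
    ∀ r, 1 ≤ r → r ≤ 3 → Con J a iv (8 * j + c, 5 + 9 * i + r) (own a j c i, 5 + 9 * i) := by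
  have h1 : Con J a iv (8 * j + c, 5 + 9 * i + 1) (own a j c i, 5 + 9 * i) :=
    (own_con hc hodd hX hi (Or.inl rfl)).trans
      (con_T (own_le hc hodd hX) (own_even hc hodd) (by omega)).symm
  have hs : ∀ r, (r == 1 || r == 2 || r == 5 || r == 6 || r == 7) = true → r < 8 →
      Con J a iv (8 * j + c, 5 + 9 * i + r) (8 * j + c, 5 + 9 * i + (r + 1)) := by
    intro r hr hr8
    apply conV hc hX.le hi (by omega)
    apply v_str c hc r hr8
    rw [nlad hl, hr]
    simp [hodd]
  have h2 := (hs 1 rfl (by omega)).symm.trans h1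
  have h3 := (hs 2 rfl (by omega)).symm.trans h2
  intro r hr1 hr3
  interval_cases r
  · exact h1
  · exact h2
  · exact h3

theorem chain_up {j c i : ℕ} (hc : c < 8) (hodd : c % 2 = 1) (hX : 8 * j + c < 8 * J.M + 2)
    (hi : i ≤ J.n) (hl : ¬ Lad J a j c i) :
    ∀ r, 5 ≤ r → r ≤ 8 → Con J a iv (8 * j + c, 5 + 9 * i + r) (own a j c i, 5 + 9 * (i + 1)) := by
  have h1 : Con J a iv (8 * j + c, 5 + 9 * i + 8) (own a j c i, 5 + 9 * (i + 1)) :=
    (own_con hc hodd hX hi (Or.inr rfl)).trans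
      (con_B (own_le hc hodd hX) (own_even hc hodd) (by omega))
  have hs : ∀ r, (r == 1 || r == 2 || r == 5 || r == 6 || r == 7) = true → r < 8 →
      Con J a iv (8 * j + c, 5 + 9 * i + r) (8 * j + c, 5 + 9 * i + (r + 1)) := by
    intro r hr hr8
    apply conV hc hX.le hi (by omega)
    apply v_str c hc r hr8
    rw [nlad hl, hr]
    simp [hodd]
  have h2 := (hs 7 rfl (by omega)).trans h1
  have h3 := (hs 6 rfl (by omega)).trans h2
  have h4 := (hs 5 rfl (by omega)).trans h3
  intro r hr1 hr3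
  interval_cases r
  · exact h4
  · exact h3
  · exact h2
  · exact h1

/-- the middle of a chain that does not bulge -/
theorem mid3 {j c i : ℕ} (hc : c < 8) (hodd : c % 2 = 1) (hX : 8 * j + c < 8 * J.M + 2)
    (hi : i ≤ J.n) (hl : ¬ Lad J a j c i)
    (hb : ¬ ((c = 3 ∧ J.lit i true j = true) ∨ (c = 7 ∧ J.lit i false j = true))) :
    Con J a iv (8 * j + c, 5 + 9 * i + 3) (8 * j + c, 5 + 9 * i + 4) := by
  apply conV hc hX.le hi (by omega)
  apply v_mid3 c hc
  rw [nlad hl]
  have e1 : (!((c == 3 && J.lit i true j) || (c == 7 && J.lit i false j))) = true := by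
    by_cases h3 : c = 3 <;> by_cases h7 : c = 7 <;> cases hT : J.lit i true j <;>
      cases hF' : J.lit i false j <;> simp_all
  rw [e1]
  simp [hodd]

theorem mid4 {j c i : ℕ} (hc : c < 8) (hodd : c % 2 = 1) (hX : 8 * j + c < 8 * J.M + 2)
    (hi : i ≤ J.n) (hl : ¬ Lad J a j c i)
    (hb : ¬ ((c = 3 ∧ J.lit i true j = true) ∨ (c = 7 ∧ J.lit i false j = true)))
    (h5 : ¬ (c = 5 ∧ i = iv j)) :
    Con J a iv (8 * j + c, 5 + 9 * i + 4) (8 * j + c, 5 + 9 * i + 5) := by
  apply conV hc hX.le hi (by omega)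
  apply v_mid4 c hc
  rw [nlad hl]
  have e1 : (!((c == 3 && J.lit i true j) || (c == 7 && J.lit i false j))) = true := by
    by_cases h3 : c = 3 <;> by_cases h7 : c = 7 <;> cases hT : J.lit i true j <;>
      cases hF' : J.lit i false j <;> simp_all
  have e2 : (!(c == 5 && decide (i = iv j))) = true := by
    by_contra hcon
    apply h5
    simpa using hcon
  rw [e1, e2]
  simp [hodd]

/-- a positive bulge -/
theorem bulT {j i : ℕ} (hj : j < J.M) (hi : i ≤ J.n) (hT : J.lit i true j = true) :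
    Con J a iv (8 * j + 3, 5 + 9 * i + 3) (8 * j + 4, 5 + 9 * i + 3) ∧
    Con J a iv (8 * j + 3, 5 + 9 * i + 5) (8 * j + 4, 5 + 9 * i + 5) ∧
    Con J a iv (8 * j + 4, 5 + 9 * i + 3) (8 * j + 4, 5 + 9 * i + 4) ∧
    (¬ (i = iv j ∧ a i = true) →
      Con J a iv (8 * j + 4, 5 + 9 * i + 4) (8 * j + 4, 5 + 9 * i + 5)) := by
  have hjM : decide (j = J.M) = false := by simp; omega
  refine ⟨?_, ?_, ?_, ?_⟩
  · exact conH (c := 3) (by omega) (by omega) hi (by omega) (by simp [hF, hT])
  · exact conH (c := 3) (by omega) (by omega) hi (by omega) (by simp [hF, hT])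
  · exact conV (c := 4) (by omega) (by omega) hi (by omega) (by simp [vF, hT])
  · intro h
    refine conV (c := 4) (by omega) (by omega) hi (by omega) ?_
    simp only [vF, hT]
    simp
    by_cases h' : i = iv j
    · right
      cases ha : a i
      · rfl
      · exact absurd ⟨h', ha⟩ h
    · exact Or.inl h'

/-- a negative bulge -/
theorem bulF {j i : ℕ} (hj : j < J.M) (hi : i ≤ J.n) (hT : J.lit i false j = true) :
    Con J a iv (8 * j + 7, 5 + 9 * i + 3) (8 * j + 6, 5 + 9 * i + 3) ∧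
    Con J a iv (8 * j + 7, 5 + 9 * i + 5) (8 * j + 6, 5 + 9 * i + 5) ∧
    Con J a iv (8 * j + 6, 5 + 9 * i + 3) (8 * j + 6, 5 + 9 * i + 4) ∧
    (¬ (i = iv j ∧ a i = false) →
      Con J a iv (8 * j + 6, 5 + 9 * i + 4) (8 * j + 6, 5 + 9 * i + 5)) := by
  have hjM : decide (j = J.M) = false := by simp; omega
  refine ⟨?_, ?_, ?_, ?_⟩
  · exact (conH (c := 6) (by omega) (by omega) hi (by omega) (by simp [hF, hT])).symm
  · exact (conH (c := 6) (by omega) (by omega) hi (by omega) (by simp [hF, hT])).symm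
  · exact conV (c := 6) (by omega) (by omega) hi (by omega) (by simp [vF, hT])
  · intro h
    refine conV (c := 6) (by omega) (by omega) hi (by omega) ?_
    simp only [vF, hT]
    simp
    by_cases h' : i = iv j
    · right
      cases ha : a i
      · exact absurd ⟨h', ha⟩ h
      · rfl
    · exact Or.inl h'

theorem mid_con {j c i : ℕ} (hc : c < 8) (hodd : c % 2 = 1) (hX : 8 * j + c < 8 * J.M + 2)
    (hi : i ≤ J.n) (hl : ¬ Lad J a j c i) (h5 : ¬ (c = 5 ∧ i = iv j))
    (h3 : ¬ (c = 3 ∧ i = iv j ∧ a i = true)) (h7 : ¬ (c = 7 ∧ i = iv j ∧ a i = false)) :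
    Con J a iv (8 * j + c, 5 + 9 * i + 3) (8 * j + c, 5 + 9 * i + 5) := by
  by_cases hb : (c = 3 ∧ J.lit i true j = true) ∨ (c = 7 ∧ J.lit i false j = true)
  · rcases hb with ⟨rfl, hT⟩ | ⟨rfl, hT⟩
    · obtain ⟨b1, b2, b3, b4⟩ := bulT (a := a) (iv := iv) (by omega : j < J.M) hi hT
      exact b1.trans (b3.trans ((b4 (by tauto)).trans b2.symm))
    · obtain ⟨b1, b2, b3, b4⟩ := bulF (a := a) (iv := iv) (by omega : j < J.M) hi hT
      exact b1.trans (b3.trans ((b4 (by tauto)).trans b2.symm))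
  · exact (mid3 hc hodd hX hi hl hb).trans (mid4 hc hodd hX hi hl hb h5)

/-- straight strands -/
theorem straight {i : ℕ} (hi : i ≤ J.n) {X : ℕ}
    (hX : (X = 0 ∧ a i = false) ∨ (X = 8 * J.M + 2 ∧ a i = true)) :
    ∀ r, r ≤ 9 → Con J a iv (X, 5 + 9 * i + r) (X, 5 + 9 * i) := by
  intro r
  induction r with
  | zero => intro _; exact Con.rfl'
  | succ r ih =>
    intro hr
    refine Con.trans ?_ (ih (by omega))
    apply Con.symm
    rcases hX with ⟨rfl, ha⟩ | ⟨rfl, ha⟩
    · exact conV (j := 0) (c := 0) (by omega) (by omega) hi (by omega) (by simp [vF, ha])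
    · exact conV (j := J.M) (c := 2) (by omega) (by omega) hi (by omega) (by simp [vF, ha])

/-- The T cells of a strand are connected through band `i`, except for an exchange. -/
theorem strand_step {X i : ℕ} (hX : X ≤ 8 * J.M + 2) (h2 : X % 2 = 0) (hi : i ≤ J.n)
    (hex : ∀ j < J.M, i = iv j → a i = true → X ≠ 8 * j + 2 ∧ X ≠ 8 * j + 4)
    (hex' : ∀ j < J.M, i = iv j → a i = false → X ≠ 8 * j + 6 ∧ X ≠ 8 * j + 8) :
    Con J a iv (X, 5 + 9 * i) (X, 5 + 9 * (i + 1)) := by
  have e9 : 5 + 9 * (i + 1) = 5 + 9 * i + 9 := by ring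
  have main : ∀ j c, c < 8 → c % 2 = 1 → 8 * j + c < 8 * J.M + 2 → own a j c i = X →
      Con J a iv (X, 5 + 9 * i) (X, 5 + 9 * (i + 1)) := by
    intro j c hc hodd hXc ho
    by_cases hl : Lad J a j c i
    · have := (lad_con (iv := iv) hc hXc hi hl).2.2
      rw [ho] at this
      exact this.symm
    · have h1 := chain_low (iv := iv) hc hodd hXc hi hl 3 (by omega) (by omega)
      have h5 := chain_up (iv := iv) hc hodd hXc hi hl 5 (by omega) (by omega)
      rw [ho] at h1 h5
      refine h1.symm.trans (Con.trans ?_ h5)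
      unfold own at ho
      apply mid_con hc hodd hXc hi hl
      · rintro ⟨rfl, hv⟩
        cases ha : a i
        · rw [ha] at ho
          exact (hex' j (by omega) hv ha).1 (by simpa using ho.symm)
        · rw [ha] at ho
          exact (hex j (by omega) hv ha).2 (by simpa using ho.symm)
      · rintro ⟨rfl, hv, ha⟩
        rw [ha] at ho
        exact (hex j (by omega) hv ha).1 (by simpa using ho.symm)
      · rintro ⟨rfl, hv, ha⟩
        rw [ha] at ho
        exact (hex' j (by omega) hv ha).2 (by simpa using ho.symm)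
  cases ha : a i
  · by_cases h0 : X = 0
    · rw [e9]
      exact (straight hi (Or.inl ⟨h0, ha⟩) 9 le_rfl).symm
    · exact main ((X - 1) / 8) ((X - 1) % 8) (by omega) (by omega) (by omega) (by
        unfold own
        rw [ha]
        simp
        omega)
  · by_cases h0 : X = 8 * J.M + 2
    · rw [e9]
      exact (straight hi (Or.inr ⟨h0, ha⟩) 9 le_rfl).symm
    · exact main ((X + 1) / 8) ((X + 1) % 8) (by omega) (by omega) (by omega) (by
        unfold own
        rw [ha]
        simp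
        omega)

theorem not_lad {j c i : ℕ} (hc : c ≠ 1) : ¬ Lad J a j c i := by
  rintro (⟨-, h, -⟩ | ⟨-, h, -⟩) <;> exact hc h

/-- the exchange, positive literal -/
theorem exchT (H : Hyp J a iv) {j : ℕ} (hj : j < J.M) (ha : a (iv j) = true) :
    Con J a iv (8 * j + 2, 5 + 9 * iv j) (8 * j + 4, 5 + 9 * iv j) ∧
    Con J a iv (8 * j + 2, 5 + 9 * (iv j + 1)) (8 * j + 4, 5 + 9 * (iv j + 1)) := by
  have hH := H j hj
  rw [ha] at hH
  have hi : iv j ≤ J.n := hH.1.le
  obtain ⟨b1, b2, b3, b4⟩ := bulT (a := a) (iv := iv) hj hi hH.2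
  have o3 : own a j 3 (iv j) = 8 * j + 2 := by simp [own, ha]
  have o5 : own a j 5 (iv j) = 8 * j + 4 := by simp [own, ha]
  have l3 : ¬ Lad J a j 3 (iv j) := not_lad (by omega)
  have l5 : ¬ Lad J a j 5 (iv j) := not_lad (by omega)
  have c3 := chain_low (iv := iv) (by omega) (by omega) (by omega) hi l3 3 (by omega) (by omega)
  have c5 := chain_low (iv := iv) (by omega) (by omega) (by omega) hi l5 3 (by omega) (by omega)
  have u3 := chain_up (iv := iv) (by omega) (by omega) (by omega) hi l3 5 (by omega) (by omega)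
  have u5 := chain_up (iv := iv) (by omega) (by omega) (by omega) hi l5 5 (by omega) (by omega)
  have m5 := mid3 (iv := iv) (by omega) (by omega) (by omega) hi l5 (by omega)
  rw [o3] at c3 u3
  rw [o5] at c5 u5
  have x4 : Con J a iv (8 * j + 4, 5 + 9 * iv j + 4) (8 * j + 5, 5 + 9 * iv j + 4) :=
    conH (c := 4) (by omega) (by omega) hi (by omega) (by simp [hF, ha])
  have x5 : Con J a iv (8 * j + 4, 5 + 9 * iv j + 5) (8 * j + 5, 5 + 9 * iv j + 5) :=
    conH (c := 4) (by omega) (by omega) hi (by omega) (by simp [hF, ha])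
  refine ⟨?_, ?_⟩
  · exact c3.symm.trans (b1.trans (b3.trans (x4.trans (m5.symm.trans c5))))
  · exact u3.symm.trans (b2.trans (x5.trans u5))

/-- the exchange, negative literal -/
theorem exchF (H : Hyp J a iv) {j : ℕ} (hj : j < J.M) (ha : a (iv j) = false) :
    Con J a iv (8 * j + 8, 5 + 9 * iv j) (8 * j + 6, 5 + 9 * iv j) ∧
    Con J a iv (8 * j + 8, 5 + 9 * (iv j + 1)) (8 * j + 6, 5 + 9 * (iv j + 1)) := by
  have hH := H j hj
  rw [ha] at hH
  have hi : iv j ≤ J.n := hH.1.le
  obtain ⟨b1, b2, b3, b4⟩ := bulF (a := a) (iv := iv) hj hi hH.2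
  have o3 : own a j 7 (iv j) = 8 * j + 8 := by simp [own, ha]
  have o5 : own a j 5 (iv j) = 8 * j + 6 := by simp [own, ha]
  have l3 : ¬ Lad J a j 7 (iv j) := not_lad (by omega)
  have l5 : ¬ Lad J a j 5 (iv j) := not_lad (by omega)
  have c3 := chain_low (iv := iv) (by omega) (by omega) (by omega) hi l3 3 (by omega) (by omega)
  have c5 := chain_low (iv := iv) (by omega) (by omega) (by omega) hi l5 3 (by omega) (by omega)
  have u3 := chain_up (iv := iv) (by omega) (by omega) (by omega) hi l3 5 (by omega) (by omega)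
  have u5 := chain_up (iv := iv) (by omega) (by omega) (by omega) hi l5 5 (by omega) (by omega)
  have m5 := mid3 (iv := iv) (by omega) (by omega) (by omega) hi l5 (by omega)
  rw [o3] at c3 u3
  rw [o5] at c5 u5
  have x4 : Con J a iv (8 * j + 5, 5 + 9 * iv j + 4) (8 * j + 6, 5 + 9 * iv j + 4) :=
    conH (c := 5) (by omega) (by omega) hi (by omega) (by simp [hF, ha])
  have x5 : Con J a iv (8 * j + 5, 5 + 9 * iv j + 5) (8 * j + 6, 5 + 9 * iv j + 5) :=
    conH (c := 5) (by omega) (by omega) hi (by omega) (by simp [hF, ha])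
  refine ⟨?_, ?_⟩
  · exact c3.symm.trans (b1.trans (b3.trans (x4.symm.trans (m5.symm.trans c5))))
  · exact u3.symm.trans (b2.trans (x5.symm.trans u5))

/-- every cell of a band is connected to a T cell -/
theorem band_cell (H : Hyp J a iv) {X i r : ℕ} (hi : i ≤ J.n) (h1 : 1 ≤ r) (h8 : r ≤ 8)
    (h : cell J X (5 + 9 * i + r) = true) :
    ∃ X' i', X' ≤ 8 * J.M + 2 ∧ X' % 2 = 0 ∧ i' ≤ J.n + 1 ∧
      Con J a iv (X, 5 + 9 * i + r) (X', 5 + 9 * i') := by
  have hX : X ≤ 8 * J.M + 2 := by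
    unfold cell at h
    simp only [Bool.and_eq_true, decide_eq_true_eq] at h
    exact h.1
  obtain ⟨j, c, hc, rfl⟩ : ∃ j c, c < 8 ∧ X = 8 * j + c := ⟨X / 8, X % 8, by omega, by omega⟩
  rw [cell_int hc hX hi h1 h8] at h
  by_cases hodd : c % 2 = 1
  · have hX' : 8 * j + c < 8 * J.M + 2 := by omega
    by_cases hl : Lad J a j c i
    · exact ⟨own a j c i, i, own_le hc hodd hX', own_even hc hodd, by omega,
        (lad_con hc hX' hi hl).1 r h1 h8⟩
    · by_cases h3 : r ≤ 3
      · exact ⟨own a j c i, i, own_le hc hodd hX', own_even hc hodd, by omega,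
          chain_low hc hodd hX' hi hl r h1 h3⟩
      · by_cases h5 : 5 ≤ r
        · exact ⟨own a j c i, i + 1, own_le hc hodd hX', own_even hc hodd, by omega,
            chain_up hc hodd hX' hi hl r h5 h8⟩
        · have h4 : r = 4 := by omega
          subst h4
          refine ⟨own a j c i, i, own_le hc hodd hX', own_even hc hodd, by omega,
            (mid3 hc hodd hX' hi hl ?_).symm.trans
              (chain_low hc hodd hX' hi hl 3 (by omega) le_rfl)⟩
          intro hb
          unfold cF at h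
          rw [if_neg, if_neg (by omega)] at h
          · rcases hb with ⟨h1, h2⟩ | ⟨h1, h2⟩
            · simp [h1, h2] at h
            · simp [h1, h2] at h
          · simp only [Bool.or_eq_true, Bool.and_eq_true, decide_eq_true_eq, beq_iff_eq]
            omega
  · by_cases h10 : r = 1
    · subst h10
      exact ⟨8 * j + c, i, hX, by omega, by omega, (con_T hX (by omega) (by omega)).symm⟩
    by_cases h80 : r = 8
    · subst h80
      exact ⟨8 * j + c, i + 1, hX, by omega, by omega, con_B hX (by omega) (by omega)⟩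
    by_cases hK : 8 * j + c = 0
    · have hj : j = 0 := by omega
      have hc0 : c = 0 := by omega
      subst hj hc0
      cases ha : a i
      · exact ⟨8 * 0 + 0, i, hX, by omega, by omega, straight hi (Or.inl ⟨hK, ha⟩) r (by omega)⟩
      · have hl : Lad J a 0 1 i := Or.inl ⟨rfl, rfl, ha⟩
        have := (lad_con (iv := iv) (by omega) (by omega) hi hl).2.1 r h1 h8
        have ho : own a 0 1 i = 0 := by simp [own, ha]
        rw [ho] at this
        exact ⟨0, i, by omega, by omega, by omega, this⟩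
    by_cases hK' : 8 * j + c = 8 * J.M + 2
    · have hj : j = J.M := by omega
      have hc0 : c = 2 := by omega
      subst hj hc0
      cases ha : a i
      · have hl : Lad J a J.M 1 i := Or.inr ⟨rfl, rfl, ha⟩
        have := (lad_con (iv := iv) (by omega) (by omega) hi hl).2.1 r h1 h8
        have ho : own a J.M 1 i = 8 * J.M + 2 := by simp [own, ha]
        rw [ho] at this
        exact ⟨8 * J.M + 2, i, by omega, by omega, by omega, this⟩
      · exact ⟨8 * J.M + 2, i, hX, by omega, by omega,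
          straight hi (Or.inr ⟨rfl, ha⟩) r (by omega)⟩
    unfold cF at h
    rw [if_neg, if_pos (by omega)] at h
    · have h' : (3 ≤ r ∧ r ≤ 5) ∧ ((c = 4 ∧ J.lit i true j = true) ∨
          (c = 6 ∧ J.lit i false j = true)) := by
        simpa [h10, h80] using h
      obtain ⟨hr, ⟨rfl, hT⟩ | ⟨rfl, hT⟩⟩ := h'
      · obtain ⟨b1, b2, b3, b4⟩ := bulT (a := a) (iv := iv) (by omega : j < J.M) hi hT
        have l3 : ¬ Lad J a j 3 i := not_lad (by omega)
        have c3 := chain_low (iv := iv) (by omega) (by omega) (by omega) hi l3 3 (by omega) le_rfl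
        have u3 := chain_up (iv := iv) (by omega) (by omega) (by omega) hi l3 5 le_rfl (by omega)
        have g1 := own_le (a := a) (i := i) (J := J) (j := j) (c := 3) (by omega) (by omega)
          (by omega)
        have g2 := own_even (a := a) (i := i) (j := j) (c := 3) (by omega) (by omega)
        by_cases h3 : r = 3
        · subst h3
          exact ⟨_, i, g1, g2, by omega, b1.symm.trans c3⟩
        by_cases h4 : r = 4
        · subst h4
          exact ⟨_, i, g1, g2, by omega, b3.symm.trans (b1.symm.trans c3)⟩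
        · have h5 : r = 5 := by omega
          subst h5
          exact ⟨_, i + 1, g1, g2, by omega, b2.symm.trans u3⟩
      · obtain ⟨b1, b2, b3, b4⟩ := bulF (a := a) (iv := iv) (by omega : j < J.M) hi hT
        have l3 : ¬ Lad J a j 7 i := not_lad (by omega)
        have c3 := chain_low (iv := iv) (by omega) (by omega) (by omega) hi l3 3 (by omega) le_rfl
        have u3 := chain_up (iv := iv) (by omega) (by omega) (by omega) hi l3 5 le_rfl (by omega)
        have g1 := own_le (a := a) (i := i) (J := J) (j := j) (c := 7) (by omega) (by omega)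
          (by omega)
        have g2 := own_even (a := a) (i := i) (j := j) (c := 7) (by omega) (by omega)
        by_cases h3 : r = 3
        · subst h3
          exact ⟨_, i, g1, g2, by omega, b1.symm.trans c3⟩
        by_cases h4 : r = 4
        · subst h4
          exact ⟨_, i, g1, g2, by omega, b3.symm.trans (b1.symm.trans c3)⟩
        · have h5 : r = 5 := by omega
          subst h5
          exact ⟨_, i + 1, g1, g2, by omega, b2.symm.trans u3⟩
    · simp only [Bool.or_eq_true, Bool.and_eq_true, decide_eq_true_eq, beq_iff_eq]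
      omega

/-! ### the joins -/

/-- top join -/
theorem topJ {k : ℕ} (h : 4 * k + 2 ≤ 8 * J.M + 2) :
    Con J a iv (4 * k, 5 + 9 * (J.n + 1)) (4 * k + 2, 5 + 9 * (J.n + 1)) := by
  have e1 : ∀ x, x < 8 * J.M + 2 → x % 4 ≤ 1 → hE J a iv x (5 + 9 * (J.n + 1) + 1) = true := by
    intro x h1 h2
    unfold hE
    rw [if_neg (by omega), if_neg (by omega), if_neg (by omega), if_neg (by omega),
      if_neg (by omega), if_pos (by omega)]
    simp [h1, h2]
  have h1 := con_T (J := J) (a := a) (iv := iv) (X := 4 * k) (i := J.n + 1) (by omega) (by omega)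
    le_rfl
  have h2 := con_T (J := J) (a := a) (iv := iv) (X := 4 * k + 2) (i := J.n + 1) (by omega)
    (by omega) le_rfl
  exact h1.trans ((con_h (e1 (4 * k) (by omega) (by omega))).trans
    ((con_h (e1 (4 * k + 1) (by omega) (by omega))).trans h2.symm))

/-- the cells of the top row -/
theorem top_cell {X : ℕ} (h : cell J X (9 * (J.n + 1) + 6) = true) :
    ∃ X' i', X' ≤ 8 * J.M + 2 ∧ X' % 2 = 0 ∧ i' ≤ J.n + 1 ∧
      Con J a iv (X, 9 * (J.n + 1) + 6) (X', 5 + 9 * i') := by
  have hX : X ≤ 8 * J.M + 2 := by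
    unfold cell at h
    simp only [Bool.and_eq_true, decide_eq_true_eq] at h
    exact h.1
  have hc : X % 4 ≠ 3 := by
    unfold cell at h
    rw [if_neg (by omega), if_neg (by omega), if_neg (by omega), if_neg (by omega),
      if_neg (by omega), if_pos (by omega)] at h
    simp only [Bool.and_eq_true, decide_eq_true_eq] at h
    exact h.2
  have e : 9 * (J.n + 1) + 6 = 5 + 9 * (J.n + 1) + 1 := by ring
  rw [e]
  have e1 : ∀ x, x < 8 * J.M + 2 → x % 4 ≤ 1 → hE J a iv x (5 + 9 * (J.n + 1) + 1) = true := by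
    intro x h1 h2
    unfold hE
    rw [if_neg (by omega), if_neg (by omega), if_neg (by omega), if_neg (by omega),
      if_neg (by omega), if_pos (by omega)]
    simp [h1, h2]
  by_cases h2 : X % 2 = 0
  · exact ⟨X, J.n + 1, hX, h2, le_rfl, (con_T hX h2 le_rfl).symm⟩
  · obtain ⟨x, rfl⟩ : ∃ x, X = x + 1 := ⟨X - 1, by omega⟩
    exact ⟨x, J.n + 1, by omega, by omega, le_rfl,
      (con_h (e1 x (by omega) (by omega))).symm.trans
        (con_T (by omega) (by omega) le_rfl).symm⟩

/-- horizontal runs -/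
theorem run {Y x₀ : ℕ} (m : ℕ) (h : ∀ x, x₀ ≤ x → x < x₀ + m → hE J a iv x Y = true) :
    ∀ d, d ≤ m → Con J a iv (x₀, Y) (x₀ + d, Y) := by
  intro d
  induction d with
  | zero => intro _; exact Con.rfl'
  | succ d ih =>
    intro hd
    exact (ih (by omega)).trans (con_h (h (x₀ + d) (by omega) (by omega)))

theorem bot4 {X : ℕ} (hX : X ≤ 8 * J.M + 2) (h2 : X % 2 = 0) :
    Con J a iv (X, 4) (X, 5) := by
  apply con_v
  simp [vE, hX, h2]

theorem bot23 {X Y : ℕ} (hX : X ≤ 8 * J.M + 2) (h2 : X % 8 = 0 ∨ X % 8 = 2) (hY : Y = 2 ∨ Y = 3) :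
    Con J a iv (X, Y) (X, Y + 1) := by
  apply con_v
  rcases hY with rfl | rfl
  · simp [vE, hX, h2]
  · simp [vE, hX, h2]

theorem bot01 {X Y : ℕ} (h2 : X = 0 ∨ X = 8 * J.M + 2) (hY : Y = 0 ∨ Y = 1) :
    Con J a iv (X, Y) (X, Y + 1) := by
  apply con_v
  rcases hY with rfl | rfl
  · simp [vE, h2]; omega
  · simp [vE, h2]; omega

/-- the middle join of a clause -/
theorem joinC {j : ℕ} (hj : j < J.M) : Con J a iv (8 * j + 4, 5) (8 * j + 6, 5) := by
  have h1 : Con J a iv (8 * j + 4, 4) (8 * j + 5, 4) := con_h (by simp [hE]; omega)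
  have h2 : Con J a iv (8 * j + 5, 4) (8 * j + 6, 4) := con_h (by simp [hE]; omega)
  exact (bot4 (by omega) (by omega)).symm.trans
    (h1.trans (h2.trans (bot4 (by omega) (by omega))))

/-- the outer join of a clause -/
theorem joinW {j : ℕ} (hj : j < J.M) : Con J a iv (8 * j + 2, 5) (8 * j + 8, 5) := by
  have h1 := run (J := J) (a := a) (iv := iv) (Y := 2) (x₀ := 8 * j + 2) 6 (by
    intro x h1 h2
    simp [hE]; omega) 6 le_rfl
  have v1 : ∀ x, x ≤ 8 * J.M + 2 → (x % 8 = 0 ∨ x % 8 = 2) → Con J a iv (x, 2) (x, 5) := by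
    intro x hx h2
    exact (bot23 hx h2 (Or.inl rfl)).trans ((bot23 hx h2 (Or.inr rfl)).trans
      (bot4 hx (by omega)))
  exact (v1 _ (by omega) (by omega)).symm.trans (h1.trans (v1 (8 * j + 8) (by omega) (by omega)))

/-- the cells of the bottom rows -/
theorem bot_cell {X Y : ℕ} (hY : Y ≤ 4) (h : cell J X Y = true) :
    ∃ X', X' ≤ 8 * J.M + 2 ∧ X' % 2 = 0 ∧ Con J a iv (X, Y) (X', 5) := by
  have hX : X ≤ 8 * J.M + 2 := by
    unfold cell at h
    simp only [Bool.and_eq_true, decide_eq_true_eq] at h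
    exact h.1
  have v1 : ∀ x, x ≤ 8 * J.M + 2 → (x % 8 = 0 ∨ x % 8 = 2) → Con J a iv (x, 2) (x, 5) := by
    intro x hx h2
    exact (bot23 hx h2 (Or.inl rfl)).trans ((bot23 hx h2 (Or.inr rfl)).trans
      (bot4 hx (by omega)))
  have v0 : Con J a iv (0, 0) (0, 5) :=
    (bot01 (Or.inl rfl) (Or.inl rfl)).trans ((bot01 (Or.inl rfl) (Or.inr rfl)).trans
      (v1 0 (by omega) (by omega)))
  interval_cases Y
  · have h1 := run (J := J) (a := a) (iv := iv) (Y := 0) (x₀ := 0) (8 * J.M + 2) (by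
      intro x h1 h2
      simp [hE]; omega) X hX
    rw [zero_add] at h1
    exact ⟨0, by omega, by omega, h1.symm.trans v0⟩
  · have hc : X = 0 ∨ X = 8 * J.M + 2 := by simpa [cell, hX] using h
    exact ⟨X, hX, by omega, (bot01 hc (Or.inr rfl)).trans (v1 X hX (by omega))⟩
  · have hc : X = 0 ∨ X = 8 * J.M + 2 ∨ (2 ≤ X ∧ X ≤ 8 * J.M ∧ X % 8 ≠ 1) := by
      simpa [cell, hX] using h
    by_cases h8 : X % 8 = 0
    · exact ⟨X, hX, by omega, v1 X hX (Or.inl h8)⟩
    · by_cases hL : X = 8 * J.M + 2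
      · exact ⟨X, hX, by omega, v1 X hX (Or.inr (by omega))⟩
      · have h1 := run (J := J) (a := a) (iv := iv) (Y := 2) (x₀ := 8 * (X / 8) + 2) 6 (by
          intro x h1 h2
          simp [hE]; omega) (X - (8 * (X / 8) + 2)) (by omega)
        have e : 8 * (X / 8) + 2 + (X - (8 * (X / 8) + 2)) = X := by omega
        rw [e] at h1
        exact ⟨8 * (X / 8) + 2, by omega, by omega, h1.symm.trans (v1 _ (by omega) (by omega))⟩
  · have hc : X = 0 ∨ X = 8 * J.M + 2 ∨ X % 8 = 2 ∨ X % 8 = 0 := by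
      simpa [cell, hX] using h
    have h8 : X % 8 = 0 ∨ X % 8 = 2 := by omega
    exact ⟨X, hX, by omega, (bot23 hX h8 (Or.inr rfl)).trans (bot4 hX (by omega))⟩
  · have hc : X % 8 = 0 ∨ X % 8 = 2 ∨ X % 8 = 4 ∨ X % 8 = 5 ∨ X % 8 = 6 := by
      simpa [cell, hX] using h
    by_cases h5 : X % 8 = 5
    · obtain ⟨x, rfl⟩ : ∃ x, X = x + 1 := ⟨X - 1, by omega⟩
      have h1 : Con J a iv (x, 4) (x + 1, 4) := con_h (by simp [hE]; omega)
      exact ⟨x, by omega, by omega, h1.symm.trans (bot4 (by omega) (by omega))⟩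
    · exact ⟨X, hX, by omega, bot4 hX (by omega)⟩

/-! ### everything is connected -/

theorem climb {X : ℕ} (m k : ℕ) (hmk : m ≤ k)
    (h : ∀ i, m ≤ i → i < k → Con J a iv (X, 5 + 9 * i) (X, 5 + 9 * (i + 1))) :
    Con J a iv (X, 5 + 9 * m) (X, 5 + 9 * k) := by
  induction k, hmk using Nat.le_induction with
  | base => exact Con.rfl'
  | succ k hk ih =>
    exact (ih (fun i h1 h2 => h i h1 (by omega))).trans (h k hk (by omega))

/-- a strand without exchange -/
theorem full {X : ℕ} (hX : X ≤ 8 * J.M + 2) (h2 : X % 2 = 0)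
    (hex : ∀ j < J.M, a (iv j) = true → X ≠ 8 * j + 2 ∧ X ≠ 8 * j + 4)
    (hex' : ∀ j < J.M, a (iv j) = false → X ≠ 8 * j + 6 ∧ X ≠ 8 * j + 8) {m k : ℕ}
    (hm : m ≤ J.n + 1) (hk : k ≤ J.n + 1) :
    Con J a iv (X, 5 + 9 * m) (X, 5 + 9 * k) := by
  have key : ∀ m k, m ≤ k → k ≤ J.n + 1 → Con J a iv (X, 5 + 9 * m) (X, 5 + 9 * k) := by
    intro m k hmk hk
    apply climb m k hmk
    intro i h1 h3
    apply strand_step hX h2 (by omega)
    · intro j hj hi ha
      exact hex j hj (by rw [← hi]; exact ha)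
    · intro j hj hi ha
      exact hex' j hj (by rw [← hi]; exact ha)
  rcases le_total m k with h | h
  · exact key m k h hk
  · exact (key k m h hm).symm

/-- a strand with an exchange of the clause `j₀`, below and above it -/
theorem part {X j₀ : ℕ} (hj₀ : j₀ < J.M) (hX : X = 8 * j₀ + 2 ∨ X = 8 * j₀ + 4 ∨
    X = 8 * j₀ + 6 ∨ X = 8 * j₀ + 8) {m k : ℕ} (hk : k ≤ J.n + 1) (hmk : m ≤ k)
    (hs : k ≤ iv j₀ ∨ iv j₀ + 1 ≤ m) : Con J a iv (X, 5 + 9 * m) (X, 5 + 9 * k) := by
  apply climb m k hmk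
  intro i h1 h3
  apply strand_step (by omega) (by omega) (by omega)
  · intro j hj hi ha
    by_cases hjj : j = j₀
    · subst hjj; omega
    · omega
  · intro j hj hi ha
    by_cases hjj : j = j₀
    · subst hjj; omega
    · omega

/-- The strands of a clause. -/
theorem block (H : Hyp J a iv) {j : ℕ} (hj : j < J.M)
    (h0 : Con J a iv (8 * j + 2, 5 + 9 * (J.n + 1)) (0, 5)) :
    ∀ X, (X = 8 * j + 2 ∨ X = 8 * j + 4 ∨ X = 8 * j + 6 ∨ X = 8 * j + 8) →
      ∀ i ≤ J.n + 1, Con J a iv (X, 5 + 9 * i) (0, 5) := by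
  have hI := (H j hj).1
  have jC := joinC (J := J) (a := a) (iv := iv) hj
  have jW := joinW (J := J) (a := a) (iv := iv) hj
  have tJ := topJ (J := J) (a := a) (iv := iv) (k := 2 * j + 1) (by omega)
  have e1 : 4 * (2 * j + 1) = 8 * j + 4 := by ring
  have e2 : 8 * j + 4 + 2 = 8 * j + 6 := by ring
  rw [e1, e2] at tJ
  have key : ∀ X, (X = 8 * j + 2 ∨ X = 8 * j + 4 ∨ X = 8 * j + 6 ∨ X = 8 * j + 8) →
      Con J a iv (X, 5 + 9 * iv j) (0, 5) → Con J a iv (X, 5 + 9 * (iv j + 1)) (0, 5) →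
      ∀ i ≤ J.n + 1, Con J a iv (X, 5 + 9 * i) (0, 5) := by
    intro X hX hl hu i hi
    by_cases h : i ≤ iv j
    · exact (part hj hX (by omega) h (Or.inl le_rfl)).trans hl
    · exact (part hj hX (by omega) (by omega) (Or.inr le_rfl)).symm.trans hu
  cases ha : a (iv j)
  · obtain ⟨x1, x2⟩ := exchF H hj ha
    have f2 : ∀ m ≤ J.n + 1, ∀ k ≤ J.n + 1,
        Con J a iv (8 * j + 2, 5 + 9 * m) (8 * j + 2, 5 + 9 * k) := by
      intro m hm k hk
      refine full (by omega) (by omega) ?_ ?_ hm hk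
      · intro j' hj' ha'
        by_cases hjj : j' = j
        · subst hjj; rw [ha] at ha'; exact absurd ha' (by simp)
        · omega
      · intro j' hj' ha'; omega
    have f4 : ∀ m ≤ J.n + 1, ∀ k ≤ J.n + 1,
        Con J a iv (8 * j + 4, 5 + 9 * m) (8 * j + 4, 5 + 9 * k) := by
      intro m hm k hk
      refine full (by omega) (by omega) ?_ ?_ hm hk
      · intro j' hj' ha'
        by_cases hjj : j' = j
        · subst hjj; rw [ha] at ha'; exact absurd ha' (by simp)
        · omega
      · intro j' hj' ha'; omega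
    have c2 : ∀ i ≤ J.n + 1, Con J a iv (8 * j + 2, 5 + 9 * i) (0, 5) := fun i hi =>
      (f2 i hi (J.n + 1) le_rfl).trans h0
    have c80 : Con J a iv (8 * j + 8, 5 + 9 * 0) (0, 5) := jW.symm.trans (c2 0 (by omega))
    have c8I : Con J a iv (8 * j + 8, 5 + 9 * iv j) (0, 5) :=
      (part hj (by omega) (by omega) (by omega) (Or.inl le_rfl)).symm.trans c80
    have c6I : Con J a iv (8 * j + 6, 5 + 9 * iv j) (0, 5) := x1.symm.trans c8I
    have c60 : Con J a iv (8 * j + 6, 5 + 9 * 0) (0, 5) :=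
      (part hj (by omega) (by omega) (by omega) (Or.inl le_rfl)).trans c6I
    have c40 : Con J a iv (8 * j + 4, 5 + 9 * 0) (0, 5) := jC.trans c60
    have c4 : ∀ i ≤ J.n + 1, Con J a iv (8 * j + 4, 5 + 9 * i) (0, 5) := fun i hi =>
      (f4 i hi 0 (by omega)).trans c40
    have c6n : Con J a iv (8 * j + 6, 5 + 9 * (J.n + 1)) (0, 5) :=
      tJ.symm.trans (c4 _ le_rfl)
    have c6I' : Con J a iv (8 * j + 6, 5 + 9 * (iv j + 1)) (0, 5) :=
      (part hj (by omega) le_rfl (by omega) (Or.inr le_rfl)).trans c6n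
    have c8I' : Con J a iv (8 * j + 8, 5 + 9 * (iv j + 1)) (0, 5) := x2.trans c6I'
    intro X hX
    rcases hX with rfl | rfl | rfl | rfl
    · exact c2
    · exact c4
    · exact key _ (by omega) c6I c6I'
    · exact key _ (by omega) c8I c8I'
  · obtain ⟨x1, x2⟩ := exchT H hj ha
    have f6 : ∀ m ≤ J.n + 1, ∀ k ≤ J.n + 1,
        Con J a iv (8 * j + 6, 5 + 9 * m) (8 * j + 6, 5 + 9 * k) := by
      intro m hm k hk
      refine full (by omega) (by omega) ?_ ?_ hm hk
      · intro j' hj' ha'; omega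
      · intro j' hj' ha'
        by_cases hjj : j' = j
        · subst hjj; rw [ha] at ha'; exact absurd ha' (by simp)
        · omega
    have f8 : ∀ m ≤ J.n + 1, ∀ k ≤ J.n + 1,
        Con J a iv (8 * j + 8, 5 + 9 * m) (8 * j + 8, 5 + 9 * k) := by
      intro m hm k hk
      refine full (by omega) (by omega) ?_ ?_ hm hk
      · intro j' hj' ha'; omega
      · intro j' hj' ha'
        by_cases hjj : j' = j
        · subst hjj; rw [ha] at ha'; exact absurd ha' (by simp)
        · omega
    have c2I' : Con J a iv (8 * j + 2, 5 + 9 * (iv j + 1)) (0, 5) :=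
      (part hj (by omega) le_rfl (by omega) (Or.inr le_rfl)).trans h0
    have c4I' : Con J a iv (8 * j + 4, 5 + 9 * (iv j + 1)) (0, 5) := x2.symm.trans c2I'
    have c4n : Con J a iv (8 * j + 4, 5 + 9 * (J.n + 1)) (0, 5) :=
      (part hj (by omega) le_rfl (by omega) (Or.inr le_rfl)).symm.trans c4I'
    have c6 : ∀ i ≤ J.n + 1, Con J a iv (8 * j + 6, 5 + 9 * i) (0, 5) := fun i hi =>
      (f6 i hi (J.n + 1) le_rfl).trans (tJ.symm.trans c4n)
    have c40 : Con J a iv (8 * j + 4, 5 + 9 * 0) (0, 5) := jC.trans (c6 0 (by omega))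
    have c4I : Con J a iv (8 * j + 4, 5 + 9 * iv j) (0, 5) :=
      (part hj (by omega) (by omega) (by omega) (Or.inl le_rfl)).symm.trans c40
    have c2I : Con J a iv (8 * j + 2, 5 + 9 * iv j) (0, 5) := x1.trans c4I
    have c20 : Con J a iv (8 * j + 2, 5 + 9 * 0) (0, 5) :=
      (part hj (by omega) (by omega) (by omega) (Or.inl le_rfl)).trans c2I
    have c8 : ∀ i ≤ J.n + 1, Con J a iv (8 * j + 8, 5 + 9 * i) (0, 5) := fun i hi =>
      (f8 i hi 0 (by omega)).trans (jW.symm.trans c20)
    intro X hX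
    rcases hX with rfl | rfl | rfl | rfl
    · exact key _ (by omega) c2I c2I'
    · exact key _ (by omega) c4I c4I'
    · exact c6
    · exact c8

theorem left_con {i : ℕ} (hi : i ≤ J.n + 1) : Con J a iv (0, 5 + 9 * i) (0, 5) :=
  full (m := i) (k := 0) (by omega) (by omega) (fun j _ _ => by omega) (fun j _ _ => by omega) hi
    (by omega)

theorem start (H : Hyp J a iv) (j : ℕ) (hj : j ≤ J.M) :
    Con J a iv (8 * j + 2, 5 + 9 * (J.n + 1)) (0, 5) := by
  induction j with
  | zero =>
    exact (topJ (J := J) (a := a) (iv := iv) (k := 0) (by omega)).symm.trans (left_con le_rfl)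
  | succ j ih =>
    have h := block H (by omega) (ih (by omega)) (8 * j + 8) (by omega) (J.n + 1) le_rfl
    have t := topJ (J := J) (a := a) (iv := iv) (k := 2 * j + 2) (by omega)
    have e1 : 4 * (2 * j + 2) = 8 * j + 8 := by ring
    have e2 : 8 * j + 8 + 2 = 8 * (j + 1) + 2 := by ring
    rw [e1, e2] at t
    exact t.symm.trans h

theorem T_con (H : Hyp J a iv) {X i : ℕ} (hX : X ≤ 8 * J.M + 2) (h2 : X % 2 = 0)
    (hi : i ≤ J.n + 1) : Con J a iv (X, 5 + 9 * i) (0, 5) := by
  by_cases h0 : X = 0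
  · subst h0; exact left_con hi
  by_cases hR : X = 8 * J.M + 2
  · subst hR
    refine (full (k := J.n + 1) (by omega) (by omega) (fun j _ _ => by omega)
      (fun j _ _ => by omega) hi le_rfl).trans (start H J.M le_rfl)
  · have hj : (X - 2) / 8 < J.M := by omega
    exact block H hj (start H _ hj.le) X (by omega) i hi

theorem all_con (H : Hyp J a iv) {X Y : ℕ} (h : cell J X Y = true) :
    Con J a iv (X, Y) (0, 5) := by
  have hX : X ≤ 8 * J.M + 2 := by
    unfold cell at h
    simp only [Bool.and_eq_true, decide_eq_true_eq] at h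
    exact h.1
  have low : Y ≤ 4 → Con J a iv (X, Y) (0, 5) := by
    intro hY
    obtain ⟨X', h1, h2, h3⟩ := bot_cell (a := a) (iv := iv) hY h
    exact h3.trans (T_con H (i := 0) h1 h2 (by omega))
  rcases rows J Y with rfl | rfl | rfl | rfl | rfl | ⟨i, r, hi, hr, rfl⟩ | rfl | rfl | hY
  · exact low (by omega)
  · exact low (by omega)
  · exact low (by omega)
  · exact low (by omega)
  · exact low (by omega)
  · by_cases hr0 : r = 0
    · subst hr0
      rw [add_zero] at h ⊢
      exact T_con H hX (cell_T' (by omega) h).2 (by omega)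
    · obtain ⟨X', i', h1, h2, h3, h4⟩ := band_cell (iv := iv) H hi (by omega) (by omega) h
      exact h4.trans (T_con H h1 h2 h3)
  · exact T_con H hX (cell_T' (by omega) h).2 (by omega)
  · obtain ⟨X', i', h1, h2, h3, h4⟩ := top_cell (a := a) (iv := iv) h
    exact h4.trans (T_con H h1 h2 h3)
  · exfalso
    unfold cell at h
    rw [if_neg (by omega), if_neg (by omega), if_neg (by omega), if_neg (by omega),
      if_neg (by omega), if_neg (by omega), if_pos (by omega)] at h
    simp at h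

/-! ### the tour -/

theorem E_cell (H : Hyp J a iv) {p q : ℕ × ℕ} (h : E J a iv p q) : cell J q.1 q.2 = true := by
  obtain ⟨p1, p2⟩ := p
  obtain ⟨q1, q2⟩ := q
  rcases h with ⟨h1, ⟨h2, h3⟩ | ⟨h2, h3⟩⟩ | ⟨h1, ⟨h2, h3⟩ | ⟨h2, h3⟩⟩
  · simp only at h1 h2 h3
    subst h1 h2
    exact (hE_cell H h3).2
  · simp only at h1 h2 h3
    subst h1 h2
    exact (hE_cell H h3).1
  · simp only at h1 h2 h3
    subst h1 h2
    exact (vE_cell H h3).2
  · simp only at h1 h2 h3
    subst h1 h2
    exact (vE_cell H h3).1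

theorem E_irrefl {p : ℕ × ℕ} : ¬ E J a iv p p := by
  rintro (⟨h1, ⟨h2, h3⟩ | ⟨h2, h3⟩⟩ | ⟨h1, ⟨h2, h3⟩ | ⟨h2, h3⟩⟩) <;> omega

variable (J a iv) in
/-- The tour. -/
def tour : SimpleGraph {p : ℕ × ℕ // cell J p.1 p.2 = true} where
  Adj p q := E J a iv p.1 q.1
  symm := ⟨fun p q h => E_symm h⟩
  loopless := ⟨fun p h => E_irrefl h⟩

theorem tour_le : tour J a iv ≤ gridG J := by
  intro p q h
  rcases h with ⟨h1, ⟨h2, h3⟩ | ⟨h2, h3⟩⟩ | ⟨h1, ⟨h2, h3⟩ | ⟨h2, h3⟩⟩
  · exact Or.inr ⟨h1, Or.inr h2⟩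
  · exact Or.inr ⟨h1, Or.inl h2⟩
  · exact Or.inl ⟨h1, Or.inr h2⟩
  · exact Or.inl ⟨h1, Or.inl h2⟩

theorem tour_reach (H : Hyp J a iv) {p q : ℕ × ℕ} (h : Con J a iv p q)
    (hp : cell J p.1 p.2 = true) :
    ∃ hq : cell J q.1 q.2 = true, (tour J a iv).Reachable ⟨p, hp⟩ ⟨q, hq⟩ := by
  induction h with
  | refl => exact ⟨hp, SimpleGraph.Reachable.refl _⟩
  | @tail b c _ h2 ih =>
    obtain ⟨hb, h3⟩ := ih
    have hc := E_cell H h2
    refine ⟨hc, h3.trans (SimpleGraph.Adj.reachable ?_)⟩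
    exact h2

theorem tour_conn (H : Hyp J a iv) : (tour J a iv).Connected := by
  have h5 : cell J 0 5 = true := cell_T (i := 0) (by omega) (by omega) (by omega)
  haveI : Nonempty {p : ℕ × ℕ // cell J p.1 p.2 = true} := ⟨⟨(0, 5), h5⟩⟩
  refine SimpleGraph.Connected.mk ?_
  intro p q
  obtain ⟨h1, h2⟩ := tour_reach H (all_con H p.2) p.2
  obtain ⟨h3, h4⟩ := tour_reach H (all_con H q.2) q.2
  exact h2.trans h4.symm

theorem tour_deg (H : Hyp J a iv) (v : {p : ℕ × ℕ // cell J p.1 p.2 = true}) :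
    ((tour J a iv).neighborSet v).ncard = 2 := by
  obtain ⟨⟨X, Y⟩, hv⟩ := v
  have hd := deg H hv
  simp only at hv hd
  -- the neighbours as a set of pairs
  have himg : Subtype.val '' ((tour J a iv).neighborSet ⟨(X, Y), hv⟩) =
      {q | E J a iv (X, Y) q} := by
    ext q
    constructor
    · rintro ⟨q', h, rfl⟩
      exact h
    · intro h
      exact ⟨⟨q, E_cell H h⟩, h, rfl⟩
  rw [← Set.ncard_image_of_injective _ Subtype.val_injective, himg]
  have hset : {q | E J a iv (X, Y) q} =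
      {q | (0 < X ∧ hE J a iv (X - 1) Y = true) ∧ q = (X - 1, Y)} ∪
      {q | hE J a iv X Y = true ∧ q = (X + 1, Y)} ∪
      {q | (0 < Y ∧ vE J a iv X (Y - 1) = true) ∧ q = (X, Y - 1)} ∪
      {q | vE J a iv X Y = true ∧ q = (X, Y + 1)} := by
    ext ⟨x, y⟩
    simp only [Set.mem_setOf_eq, Set.mem_union, E, Prod.mk.injEq]
    constructor
    · rintro (⟨h1, ⟨h2, h3⟩ | ⟨h2, h3⟩⟩ | ⟨h1, ⟨h2, h3⟩ | ⟨h2, h3⟩⟩)
      · exact Or.inl (Or.inl (Or.inr ⟨h3, h2, h1.symm⟩))
      · refine Or.inl (Or.inl (Or.inl ⟨⟨by omega, ?_⟩, by omega, h1.symm⟩))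
        have : X - 1 = x := by omega
        rw [this, h1]; exact h3
      · exact Or.inr ⟨h3, h1.symm, h2⟩
      · refine Or.inl (Or.inr ⟨⟨by omega, ?_⟩, h1.symm, by omega⟩)
        have : Y - 1 = y := by omega
        rw [this, h1]; exact h3
    · rintro (((⟨⟨h1, h2⟩, h3, h4⟩ | ⟨h1, h3, h4⟩) | ⟨⟨h1, h2⟩, h3, h4⟩) | ⟨h1, h3, h4⟩)
      · refine Or.inl ⟨h4.symm, Or.inr ⟨by omega, ?_⟩⟩
        rw [h3, h4]; exact h2
      · exact Or.inl ⟨h4.symm, Or.inl ⟨h3, h1⟩⟩
      · refine Or.inr ⟨h3.symm, Or.inr ⟨by omega, ?_⟩⟩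
        rw [h3, h4]; exact h2
      · exact Or.inr ⟨h3.symm, Or.inl ⟨h4, h1⟩⟩
  rw [hset]
  unfold dg at hd
  by_cases hX0 : 0 < X <;> by_cases hY0 : 0 < Y <;> cases h1 : hE J a iv (X - 1) Y <;>
    cases h2 : hE J a iv X Y <;> cases h3 : vE J a iv X (Y - 1) <;> cases h4 : vE J a iv X Y <;>
    simp only [hX0, hY0, h1, h2, h3, h4, decide_true, decide_false, Bool.true_and,
      Bool.false_and, Bool.toNat_true, Bool.toNat_false, true_and, false_and, and_true,
      and_false, Set.setOf_false, Set.empty_union, Set.union_empty, reduceCtorEq,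
      Set.setOf_eq_eq_singleton, Set.singleton_union] at hd ⊢ <;>
    first
    | omega
    | (rw [Set.ncard_pair]; simp only [ne_eq, Prod.mk.injEq]; omega)

end

end GC

theorem gridComp : StmtGridComp := by
  intro J ⟨a, ha⟩
  choose! iv hiv using ha
  have H : GC.Hyp J a iv := fun k hk => hiv k hk
  exact ⟨GC.tour J a iv, GC.tour_le, GC.tour_conn H, GC.tour_deg H⟩

end Pool.Agent.Psp81
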