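import Pool.Agent.Lib_MP_95a0ff_lc.Stmts

/-!
# A Hamiltonian cycle of the grid layout gives a satisfying assignment
-/

namespace Pool.Agent.Psp81

open Pool.Agent.Bx81

section

variable {J : Ins}

/-- There is an edge of `F` between two positions. -/
def FA (F : SimpleGraph {p : ℕ × ℕ // cell J p.1 p.2 = true}) (p q : ℕ × ℕ) : Prop :=
  ∃ h1 h2, F.Adj ⟨p, h1⟩ ⟨q, h2⟩

open Classical in
/-- Horizontal edges. -/
noncomputable def Hh (F : SimpleGraph {p : ℕ × ℕ // cell J p.1 p.2 = true}) (X Y : ℕ) : ℕ :=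
  if FA F (X, Y) (X + 1, Y) then 1 else 0

open Classical in
/-- Vertical edges. -/
noncomputable def Vv (F : SimpleGraph {p : ℕ × ℕ // cell J p.1 p.2 = true}) (X Y : ℕ) : ℕ :=
  if FA F (X, Y) (X, Y + 1) then 1 else 0

variable {F : SimpleGraph {p : ℕ × ℕ // cell J p.1 p.2 = true}}

theorem FA.symm {p q : ℕ × ℕ} (h : FA F p q) : FA F q p := by
  obtain ⟨h1, h2, h⟩ := h
  exact ⟨h2, h1, h.symm⟩

theorem Hh_le (X Y : ℕ) : Hh F X Y ≤ 1 := by
  unfold Hh; split_ifs <;> omega

theorem Vv_le (X Y : ℕ) : Vv F X Y ≤ 1 := by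
  unfold Vv; split_ifs <;> omega

theorem Hh_z1 {X Y : ℕ} (h : cell J X Y = false) : Hh F X Y = 0 := by
  unfold Hh
  rw [if_neg]
  rintro ⟨h1, _, _⟩
  simp [h] at h1

theorem Hh_z2 {X Y : ℕ} (h : cell J (X + 1) Y = false) : Hh F X Y = 0 := by
  unfold Hh
  rw [if_neg]
  rintro ⟨_, h1, _⟩
  simp [h] at h1

theorem Vv_z1 {X Y : ℕ} (h : cell J X Y = false) : Vv F X Y = 0 := by
  unfold Vv
  rw [if_neg]
  rintro ⟨h1, _, _⟩
  simp [h] at h1

theorem Vv_z2 {X Y : ℕ} (h : cell J X (Y + 1) = false) : Vv F X Y = 0 := by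
  unfold Vv
  rw [if_neg]
  rintro ⟨_, h1, _⟩
  simp [h] at h1

theorem FA_cases (hF : F ≤ gridG J) {X Y : ℕ} {q : ℕ × ℕ} (h : FA F (X, Y) q) :
    q = (X + 1, Y) ∨ q = (X, Y + 1) ∨ (1 ≤ X ∧ q = (X - 1, Y)) ∨ (1 ≤ Y ∧ q = (X, Y - 1)) := by
  obtain ⟨h1, h2, h⟩ := h
  have h3 := hF h
  obtain ⟨a, b⟩ := q
  simp only [gridG] at h3
  simp only [Prod.mk.injEq]
  omega

open Classical in
theorem deg_eq (hF : F ≤ gridG J) (hT : IsTour F) {X Y : ℕ} (hc : cell J X Y = true) :
    Hh F X Y + Vv F X Y + (if X = 0 then 0 else Hh F (X - 1) Y) +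
      (if Y = 0 then 0 else Vv F X (Y - 1)) = 2 := by
  have h0 := hT.2 ⟨(X, Y), hc⟩
  have e1 : (F.neighborSet ⟨(X, Y), hc⟩).ncard = {q : ℕ × ℕ | FA F (X, Y) q}.ncard := by
    rw [← Set.ncard_image_of_injective _ Subtype.val_injective]
    congr 1
    ext q
    simp only [Set.mem_image, SimpleGraph.mem_neighborSet, Set.mem_setOf_eq, FA]
    constructor
    · rintro ⟨⟨q', hq⟩, h1, rfl⟩
      exact ⟨hc, hq, h1⟩
    · rintro ⟨_, h2, h3⟩
      exact ⟨⟨q, h2⟩, h3, rfl⟩
  rw [e1] at h0
  have e2 : {q : ℕ × ℕ | FA F (X, Y) q} = ↑((({(X + 1, Y), (X, Y + 1)} : Finset (ℕ × ℕ)) ∪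
      (if X = 0 then ∅ else {(X - 1, Y)}) ∪ (if Y = 0 then ∅ else {(X, Y - 1)})).filter
      (fun q => FA F (X, Y) q)) := by
    ext q
    simp only [Set.mem_setOf_eq, Finset.coe_filter, Finset.mem_union, Finset.mem_insert,
      Finset.mem_singleton]
    constructor
    · intro h
      refine ⟨?_, h⟩
      rcases FA_cases hF h with h1 | h1 | ⟨h1, h2⟩ | ⟨h1, h2⟩
      · simp [h1]
      · simp [h1]
      · rw [if_neg (by omega : ¬ X = 0)]; simp [h2]
      · rw [if_neg (by omega : ¬ Y = 0)]; simp [h2]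
    · exact fun h => h.2
  rw [e2, Set.ncard_coe_finset, Finset.filter_union, Finset.filter_union,
    Finset.card_union_of_disjoint, Finset.card_union_of_disjoint] at h0
  · have a1 : (Finset.filter (fun q => FA F (X, Y) q) {(X + 1, Y), (X, Y + 1)}).card =
        Hh F X Y + Vv F X Y := by
      rw [Finset.filter_insert, Finset.filter_singleton]
      unfold Hh Vv
      split_ifs <;> simp
    have a2 : (Finset.filter (fun q => FA F (X, Y) q) (if X = 0 then ∅ else {(X - 1, Y)})).card =
        (if X = 0 then 0 else Hh F (X - 1) Y) := by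
      by_cases hX : X = 0
      · simp [hX]
      · rw [if_neg hX, if_neg hX, Finset.filter_singleton]
        unfold Hh
        rw [show X - 1 + 1 = X by omega]
        by_cases h : FA F (X, Y) (X - 1, Y)
        · rw [if_pos h, if_pos h.symm]; rfl
        · rw [if_neg h, if_neg (fun h' => h h'.symm)]; rfl
    have a3 : (Finset.filter (fun q => FA F (X, Y) q) (if Y = 0 then ∅ else {(X, Y - 1)})).card =
        (if Y = 0 then 0 else Vv F X (Y - 1)) := by
      by_cases hX : Y = 0
      · simp [hX]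
      · rw [if_neg hX, if_neg hX, Finset.filter_singleton]
        unfold Vv
        rw [show Y - 1 + 1 = Y by omega]
        by_cases h : FA F (X, Y) (X, Y - 1)
        · rw [if_pos h, if_pos h.symm]; rfl
        · rw [if_neg h, if_neg (fun h' => h h'.symm)]; rfl
    omega
  · rw [Finset.disjoint_left]
    intro q hq hq'
    rw [Finset.mem_filter] at hq hq'
    by_cases hX : X = 0
    · simp [hX] at hq'
    · rw [if_neg hX] at hq'
      simp only [Finset.mem_singleton, Finset.mem_insert] at hq hq'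
      obtain ⟨hq, _⟩ := hq
      obtain ⟨hq', _⟩ := hq'
      rw [hq'] at hq
      simp only [Prod.mk.injEq] at hq
      omega
  · rw [Finset.disjoint_left]
    intro q hq hq'
    rw [Finset.mem_union, Finset.mem_filter, Finset.mem_filter] at hq
    rw [Finset.mem_filter] at hq'
    by_cases hY : Y = 0
    · simp [hY] at hq'
    · rw [if_neg hY] at hq'
      by_cases hX : X = 0
      · rw [if_pos hX] at hq
        simp only [Finset.mem_singleton, Finset.mem_insert, Finset.notMem_empty, false_and,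
          or_false] at hq hq'
        obtain ⟨hq, _⟩ := hq
        obtain ⟨hq', _⟩ := hq'
        rw [hq'] at hq
        simp only [Prod.mk.injEq] at hq
        omega
      · rw [if_neg hX] at hq
        simp only [Finset.mem_singleton, Finset.mem_insert] at hq hq'
        obtain ⟨hq', _⟩ := hq'
        rw [hq'] at hq
        simp only [Prod.mk.injEq] at hq
        omega

end

/-! ### The cells -/

theorem cell_le {J : Ins} {X Y : ℕ} (h : cell J X Y = true) : X ≤ 8 * J.M + 2 := by
  unfold cell at h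
  simp only [Bool.and_eq_true, decide_eq_true_eq] at h
  exact h.1

/-- The cells of a band. -/
theorem cell_band (J : Ins) {X i r : ℕ} (hi : i ≤ J.n) (h1 : 1 ≤ r) (h2 : r ≤ 8) :
    cell J X (5 + 9 * i + r) = (decide (X ≤ 8 * J.M + 2) && (if X = 0 ∨ X = 8 * J.M + 2 then true
      else if X % 2 = 0 then decide (r = 1 ∨ r = 8) || (decide (3 ≤ r ∧ r ≤ 5) &&
        ((decide (X % 8 = 4) && J.lit i true (X / 8)) ||
          (decide (X % 8 = 6) && J.lit i false (X / 8))))
      else !(decide (r = 4) && ((decide (X % 8 = 3) && J.lit i true (X / 8)) ||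
          (decide (X % 8 = 7) && J.lit i false (X / 8)))))) := by
  have e1 : (5 + 9 * i + r - 5) / 9 = i := by omega
  have e2 : (5 + 9 * i + r - 5) % 9 = r := by omega
  unfold cell
  rw [if_neg (by omega), if_neg (by omega), if_neg (by omega), if_neg (by omega),
    if_neg (by omega), if_neg (by omega), if_neg (by omega), e1, e2, if_neg (by omega)]

/-- The cells of a T row. -/
theorem cell_T (J : Ins) {X i : ℕ} (hi : i ≤ J.n + 1) :
    cell J X (5 + 9 * i) = decide (X ≤ 8 * J.M + 2 ∧ X % 2 = 0) := by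
  have e2 : (5 + 9 * i - 5) % 9 = 0 := by omega
  unfold cell
  rw [if_neg (by omega), if_neg (by omega), if_neg (by omega), if_neg (by omega),
    if_neg (by omega), if_neg (by omega), if_neg (by omega), if_pos e2]
  rw [Bool.eq_iff_iff]
  simp

/-- The rows from number five on. -/
theorem row_cases (J : Ins) {X Y : ℕ} (hc : cell J X Y = true) (hY : 5 ≤ Y) :
    (∃ i ≤ J.n + 1, Y = 5 + 9 * i) ∨ (∃ i ≤ J.n, ∃ r, 1 ≤ r ∧ r ≤ 8 ∧ Y = 5 + 9 * i + r) ∨
      (Y = 9 * (J.n + 1) + 6 ∧ X % 4 ≠ 3) := by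
  by_cases h1 : Y = 9 * (J.n + 1) + 6
  · right; right
    refine ⟨h1, ?_⟩
    unfold cell at hc
    rw [if_neg (by omega), if_neg (by omega), if_neg (by omega), if_neg (by omega),
      if_neg (by omega), if_pos h1] at hc
    simp only [Bool.and_eq_true, decide_eq_true_eq] at hc
    exact hc.2
  · by_cases h2 : 9 * (J.n + 1) + 6 < Y
    · exfalso
      unfold cell at hc
      rw [if_neg (by omega), if_neg (by omega), if_neg (by omega), if_neg (by omega),
        if_neg (by omega), if_neg (by omega), if_pos h2] at hc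
      simp at hc
    · by_cases h3 : (Y - 5) % 9 = 0
      · left
        exact ⟨(Y - 5) / 9, by omega, by omega⟩
      · right; left
        exact ⟨(Y - 5) / 9, by omega, (Y - 5) % 9, by omega, by omega, by omega⟩

section

variable {J : Ins} {F : SimpleGraph {p : ℕ × ℕ // cell J p.1 p.2 = true}}

/-- The vertical edges at a T cell are forced. -/
theorem forced_T (hF : F ≤ gridG J) (hT : IsTour F) {X i : ℕ} (hX : X ≤ 8 * J.M + 2)
    (h2 : X % 2 = 0) (hi : i ≤ J.n + 1) : Vv F X (5 + 9 * i) = 1 ∧ Vv F X (4 + 9 * i) = 1 := by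
  have h := deg_eq hF hT (X := X) (Y := 5 + 9 * i) (by rw [cell_T J hi]; simp [hX, h2])
  have a1 : Hh F X (5 + 9 * i) = 0 := Hh_z2 (by rw [cell_T J hi]; simp; omega)
  have a2 : (if X = 0 then 0 else Hh F (X - 1) (5 + 9 * i)) = 0 := by
    split_ifs with h0
    · rfl
    · exact Hh_z1 (by rw [cell_T J hi]; simp; omega)
  have b1 := Vv_le (F := F) X (5 + 9 * i)
  have b2 := Vv_le (F := F) X (4 + 9 * i)
  rw [a1, a2, if_neg (by omega), show 5 + 9 * i - 1 = 4 + 9 * i by omega] at h
  omega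

/-- The cell below the top cell, and above the bottom cell, of a column in a band. -/
theorem row8 (hF : F ≤ gridG J) (hT : IsTour F) {X i : ℕ} (h2 : 2 ≤ X) (hX : X ≤ 8 * J.M)
    (hi : i ≤ J.n) :
    Hh F X (5 + 9 * i + 8) + Hh F (X - 1) (5 + 9 * i + 8) = 1 ∧
    Hh F X (5 + 9 * i + 1) + Hh F (X - 1) (5 + 9 * i + 1) = 1 := by
  by_cases hp : X % 2 = 0
  · -- a strand
    have f1 := (forced_T hF hT (X := X) (i := i + 1) (by omega) hp (by omega)).2
    have f2 := (forced_T hF hT (X := X) (i := i) (by omega) hp (by omega)).1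
    have d1 := deg_eq hF hT (X := X) (Y := 5 + 9 * i + 8) (by
      rw [cell_band J hi (by omega) (by omega), if_neg (by omega), if_pos hp]
      simp; omega)
    have d2 := deg_eq hF hT (X := X) (Y := 5 + 9 * i + 1) (by
      rw [cell_band J hi (by omega) (by omega), if_neg (by omega), if_pos hp]
      simp; omega)
    have z1 : Vv F X (5 + 9 * i + 7) = 0 := Vv_z1 (by
      rw [cell_band J hi (by omega) (by omega), if_neg (by omega), if_pos hp]
      simp)
    have z2 : Vv F X (5 + 9 * i + 1) = 0 := Vv_z2 (by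
      rw [show 5 + 9 * i + 1 + 1 = 5 + 9 * i + 2 by omega,
        cell_band J hi (by omega) (by omega), if_neg (by omega), if_pos hp]
      simp)
    rw [show 4 + 9 * (i + 1) = 5 + 9 * i + 8 by omega] at f1
    rw [if_neg (by omega), if_neg (by omega), show 5 + 9 * i + 8 - 1 = 5 + 9 * i + 7 by omega] at d1
    rw [if_neg (by omega), if_neg (by omega), show 5 + 9 * i + 1 - 1 = 5 + 9 * i by omega] at d2
    omega
  · -- a chain
    have hX3 : 3 ≤ X := by omega
    have hX4 : X + 1 ≤ 8 * J.M := by omega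
    have side : ∀ r X', (r = 2 ∨ r = 7) → 2 ≤ X' → X' ≤ 8 * J.M → X' % 2 = 0 →
        cell J X' (5 + 9 * i + r) = false := by
      intro r X' hr h1 h2 h3
      rw [cell_band J hi (by omega) (by omega), if_neg (by omega), if_pos h3]
      rcases hr with rfl | rfl <;> simp
    have pres : ∀ r, (r = 1 ∨ r = 2 ∨ r = 7 ∨ r = 8) → cell J X (5 + 9 * i + r) = true := by
      intro r hr
      rw [cell_band J hi (by omega) (by omega), if_neg (by omega), if_neg hp]
      rcases hr with rfl | rfl | rfl | rfl <;> simp <;> omega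
    have d7 := deg_eq hF hT (pres 7 (by omega))
    have d2 := deg_eq hF hT (pres 2 (by omega))
    have d8 := deg_eq hF hT (pres 8 (by omega))
    have d1 := deg_eq hF hT (pres 1 (by omega))
    have a1 : Hh F X (5 + 9 * i + 7) = 0 := Hh_z2 (side 7 (X + 1) (by omega) (by omega) hX4 (by omega))
    have a2 : Hh F (X - 1) (5 + 9 * i + 7) = 0 := Hh_z1 (side 7 _ (by omega) (by omega) (by omega) (by omega))
    have a3 : Hh F X (5 + 9 * i + 2) = 0 := Hh_z2 (side 2 (X + 1) (by omega) (by omega) hX4 (by omega))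
    have a4 : Hh F (X - 1) (5 + 9 * i + 2) = 0 := Hh_z1 (side 2 _ (by omega) (by omega) (by omega) (by omega))
    have a5 : Vv F X (5 + 9 * i + 8) = 0 := Vv_z2 (by
      rw [show 5 + 9 * i + 8 + 1 = 5 + 9 * (i + 1) by omega, cell_T J (by omega)]
      simp; omega)
    have a6 : Vv F X (5 + 9 * i) = 0 := Vv_z1 (by
      rw [cell_T J (by omega)]
      simp; omega)
    have b1 := Vv_le (F := F) X (5 + 9 * i + 7)
    have b2 := Vv_le (F := F) X (5 + 9 * i + 6)
    have b3 := Vv_le (F := F) X (5 + 9 * i + 2)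
    have b4 := Vv_le (F := F) X (5 + 9 * i + 1)
    rw [if_neg (by omega), if_neg (by omega), show 5 + 9 * i + 7 - 1 = 5 + 9 * i + 6 by omega] at d7
    rw [if_neg (by omega), if_neg (by omega), show 5 + 9 * i + 2 - 1 = 5 + 9 * i + 1 by omega] at d2
    rw [if_neg (by omega), if_neg (by omega), show 5 + 9 * i + 8 - 1 = 5 + 9 * i + 7 by omega] at d8
    rw [if_neg (by omega), if_neg (by omega), show 5 + 9 * i + 1 - 1 = 5 + 9 * i by omega] at d1
    omega

/-- The ladder at the left end. -/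
theorem ladder (hF : F ≤ gridG J) (hT : IsTour F) {i : ℕ} (hM : 1 ≤ J.M) (hi : i ≤ J.n) :
    Hh F 1 (5 + 9 * i + 8) = Hh F 1 (5 + 9 * i + 1) := by
  have f1 := (forced_T hF hT (X := 0) (i := i + 1) (by omega) rfl (by omega)).2
  have f2 := (forced_T hF hT (X := 0) (i := i) (by omega) rfl (by omega)).1
  rw [show 4 + 9 * (i + 1) = 5 + 9 * i + 8 by omega] at f1
  have c0 : ∀ r, 1 ≤ r → r ≤ 8 → cell J 0 (5 + 9 * i + r) = true := by
    intro r h1 h2
    rw [cell_band J hi h1 h2]
    simp
  have c1 : ∀ r, 1 ≤ r → r ≤ 8 → cell J 1 (5 + 9 * i + r) = true := by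
    intro r h1 h2
    rw [cell_band J hi h1 h2, if_neg (by omega), if_neg (by omega)]
    simp
  have c2 : ∀ r, 2 ≤ r → r ≤ 7 → cell J 2 (5 + 9 * i + r) = false := by
    intro r h1 h2
    rw [cell_band J hi (by omega) (by omega), if_neg (by omega), if_pos (by omega)]
    have : ¬ (r = 1 ∨ r = 8) := by omega
    simp [this]
  have e0 : ∀ r, 1 ≤ r → r ≤ 8 → Hh F 0 (5 + 9 * i + r) + Vv F 0 (5 + 9 * i + r) +
      Vv F 0 (5 + 9 * i + (r - 1)) = 2 := by
    intro r h1 h2
    have := deg_eq hF hT (c0 r h1 h2)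
    rw [if_pos rfl, if_neg (by omega), show 5 + 9 * i + r - 1 = 5 + 9 * i + (r - 1) by omega] at this
    omega
  have e1 : ∀ r, 1 ≤ r → r ≤ 8 → Hh F 1 (5 + 9 * i + r) + Hh F 0 (5 + 9 * i + r) +
      Vv F 1 (5 + 9 * i + r) + Vv F 1 (5 + 9 * i + (r - 1)) = 2 := by
    intro r h1 h2
    have := deg_eq hF hT (c1 r h1 h2)
    rw [if_neg (by omega), if_neg (by omega), show 5 + 9 * i + r - 1 = 5 + 9 * i + (r - 1) by omega,
      show 1 - 1 = 0 by omega] at this
    omega
  have z : ∀ r, 2 ≤ r → r ≤ 7 → Hh F 1 (5 + 9 * i + r) = 0 := fun r h1 h2 => Hh_z2 (c2 r h1 h2)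
  have z8 : Vv F 1 (5 + 9 * i + 8) = 0 := Vv_z2 (by
    rw [show 5 + 9 * i + 8 + 1 = 5 + 9 * (i + 1) by omega, cell_T J (by omega)]
    simp)
  have z0 : Vv F 1 (5 + 9 * i + 0) = 0 := Vv_z1 (by
    rw [show 5 + 9 * i + 0 = 5 + 9 * i by omega, cell_T J (by omega)]
    simp)
  have f2' : Vv F 0 (5 + 9 * i + 0) = 1 := f2
  have g1 := e0 1 (by omega) (by omega)
  have g2 := e0 2 (by omega) (by omega)
  have g3 := e0 3 (by omega) (by omega)
  have g4 := e0 4 (by omega) (by omega)
  have g5 := e0 5 (by omega) (by omega)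
  have g6 := e0 6 (by omega) (by omega)
  have g7 := e0 7 (by omega) (by omega)
  have g8 := e0 8 (by omega) (by omega)
  have k1 := e1 1 (by omega) (by omega)
  have k2 := e1 2 (by omega) (by omega)
  have k3 := e1 3 (by omega) (by omega)
  have k4 := e1 4 (by omega) (by omega)
  have k5 := e1 5 (by omega) (by omega)
  have k6 := e1 6 (by omega) (by omega)
  have k7 := e1 7 (by omega) (by omega)
  have k8 := e1 8 (by omega) (by omega)
  have y2 := z 2 (by omega) (by omega)
  have y3 := z 3 (by omega) (by omega)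
  have y4 := z 4 (by omega) (by omega)
  have y5 := z 5 (by omega) (by omega)
  have y6 := z 6 (by omega) (by omega)
  have y7 := z 7 (by omega) (by omega)
  norm_num at g1 g2 g3 g4 g5 g6 g7 g8 k1 k2 k3 k4 k5 k6 k7 k8 z0 f2'
  omega

/-- The state of the top and bottom rows of a band. -/
theorem rows_state (hF : F ≤ gridG J) (hT : IsTour F) {i : ℕ} (hM : 1 ≤ J.M) (hi : i ≤ J.n) :
    ∀ X, 1 ≤ X → X ≤ 8 * J.M →
      Hh F X (5 + 9 * i + 8) = (if X % 2 = 0 then 1 - Hh F 1 (5 + 9 * i + 8)
        else Hh F 1 (5 + 9 * i + 8)) ∧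
      Hh F X (5 + 9 * i + 1) = (if X % 2 = 0 then 1 - Hh F 1 (5 + 9 * i + 8)
        else Hh F 1 (5 + 9 * i + 8)) := by
  have hl := ladder hF hT hM hi
  have hle := Hh_le (F := F) 1 (5 + 9 * i + 8)
  intro X h1
  induction X, h1 using Nat.le_induction with
  | base =>
    intro _
    rw [if_neg (by omega)]
    exact ⟨rfl, hl.symm⟩
  | succ X hX ih =>
    intro h2
    have ih := ih (by omega)
    have h := row8 hF hT (X := X + 1) (by omega) h2 hi
    rw [show X + 1 - 1 = X by omega] at h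
    rw [ih.1, ih.2] at h
    split_ifs at h ⊢ <;> omega

end


section

variable {J : Ins} {F : SimpleGraph {p : ℕ × ℕ // cell J p.1 p.2 = true}}

/-- The zone of clause `k`. -/
def zone (a : ℕ → Bool) (k : ℕ) (p : ℕ × ℕ) : Prop :=
  4 ≤ p.2 ∧ ((8 * k + 4 ≤ p.1 ∧ p.1 ≤ 8 * k + 6) ∨ (p.1 = 8 * k + 3 ∧ a ((p.2 - 5) / 9) = false) ∨
    (p.1 = 8 * k + 7 ∧ a ((p.2 - 5) / 9) = true))

/-- Cells in odd columns next to the zone are in the bands. -/
theorem cell_odd {k X Y : ℕ} (hk : k < J.M) (hX : X = 8 * k + 3 ∨ X = 8 * k + 7) (hY : 4 ≤ Y)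
    (hc : cell J X Y = true) : ∃ i ≤ J.n, ∃ r, 1 ≤ r ∧ r ≤ 8 ∧ Y = 5 + 9 * i + r := by
  by_cases h4 : Y = 4
  · exfalso
    subst h4
    unfold cell at hc
    simp only [Bool.and_eq_true, decide_eq_true_eq] at hc
    norm_num at hc
    omega
  · rcases row_cases J hc (by omega) with ⟨i, hi, rfl⟩ | h | ⟨_, h⟩
    · rw [cell_T J hi] at hc
      simp at hc
      omega
    · exact h
    · omega

theorem zone_V {k : ℕ} (hk : ∀ i < J.n, J.lit i ((fun i => decide (Hh F 1 (5 + 9 * i + 8) = 0)) i) k = false)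
    (hkM : k < J.M) {X Y : ℕ} (h1 : cell J X Y = true) (h2 : cell J X (Y + 1) = true) :
    zone (fun i => decide (Hh F 1 (5 + 9 * i + 8) = 0)) k (X, Y) ↔
      zone (fun i => decide (Hh F 1 (5 + 9 * i + 8) = 0)) k (X, Y + 1) := by
  unfold zone
  by_cases hY : 4 ≤ Y
  · by_cases hX : X = 8 * k + 3 ∨ X = 8 * k + 7
    · obtain ⟨i, hi, r, r1, r2, e⟩ := cell_odd hkM hX hY h1
      obtain ⟨i', hi', r', r1', r2', e'⟩ := cell_odd hkM hX (by omega) h2
      have e1 : (Y - 5) / 9 = i := by omega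
      have e2 : (Y + 1 - 5) / 9 = i := by omega
      simp only [e1, e2]
      constructor
      · rintro ⟨_, h⟩
        exact ⟨by omega, h⟩
      · rintro ⟨_, h⟩
        exact ⟨by omega, h⟩
    · constructor
      · rintro ⟨_, h⟩
        exact ⟨by simp only; omega, by
          simp only at h ⊢
          rcases h with h | ⟨h, _⟩ | ⟨h, _⟩
          · exact Or.inl h
          · exact absurd (Or.inl h) hX
          · exact absurd (Or.inr h) hX⟩
      · rintro ⟨_, h⟩
        exact ⟨hY, by
          simp only at h ⊢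
          rcases h with h | ⟨h, _⟩ | ⟨h, _⟩
          · exact Or.inl h
          · exact absurd (Or.inl h) hX
          · exact absurd (Or.inr h) hX⟩
  · constructor
    · rintro ⟨h, _⟩
      exact absurd h hY
    · rintro ⟨h, h'⟩
      exfalso
      simp only at h h'
      have e : Y = 3 := by omega
      subst e
      unfold cell at h1
      simp only [Bool.and_eq_true, decide_eq_true_eq] at h1
      norm_num at h1
      omega

theorem zone_H {k : ℕ} (hF : F ≤ gridG J) (hT : IsTour F)
    (hk : ∀ i < J.n, J.lit i (decide (Hh F 1 (5 + 9 * i + 8) = 0)) k = false)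
    (hkM : k < J.M) {X Y : ℕ} (h1 : cell J X Y = true) (h2 : cell J (X + 1) Y = true)
    (h : Hh F X Y = 1) :
    zone (fun i => decide (Hh F 1 (5 + 9 * i + 8) = 0)) k (X, Y) ↔
      zone (fun i => decide (Hh F 1 (5 + 9 * i + 8) = 0)) k (X + 1, Y) := by
  unfold zone
  by_cases hY : 4 ≤ Y
  swap
  · constructor
    · rintro ⟨h, _⟩; exact absurd h hY
    · rintro ⟨h, _⟩; exact absurd h hY
  by_cases hX : X = 8 * k + 2 ∨ X = 8 * k + 3 ∨ X = 8 * k + 6 ∨ X = 8 * k + 7
  swap
  · simp only [hY, true_and]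
    have n1 : ¬ X = 8 * k + 3 := by omega
    have n2 : ¬ X = 8 * k + 7 := by omega
    have n3 : ¬ X + 1 = 8 * k + 3 := by omega
    have n4 : ¬ X + 1 = 8 * k + 7 := by omega
    simp only [n1, n2, n3, n4, false_and, or_false]
    omega
  · -- one of the two cells is in an odd column next to the zone
    obtain ⟨i, hi, r, r1, r2, e⟩ : ∃ i ≤ J.n, ∃ r, 1 ≤ r ∧ r ≤ 8 ∧ Y = 5 + 9 * i + r := by
      rcases hX with rfl | rfl | rfl | rfl
      · exact cell_odd hkM (Or.inl rfl) hY h2
      · exact cell_odd hkM (Or.inl rfl) hY h1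
      · exact cell_odd hkM (Or.inr rfl) hY h2
      · exact cell_odd hkM (Or.inr rfl) hY h1
    have e1 : (Y - 5) / 9 = i := by omega
    simp only [hY, true_and, e1]
    have hM : 1 ≤ J.M := by omega
    have hle := Hh_le (F := F) 1 (5 + 9 * i + 8)
    -- the state of the band
    have st : (r = 1 ∨ r = 8) → Hh F X Y = (if X % 2 = 0 then 1 - Hh F 1 (5 + 9 * i + 8)
        else Hh F 1 (5 + 9 * i + 8)) := by
      intro hr
      have := rows_state hF hT hM hi X (by omega) (by omega)
      rcases hr with rfl | rfl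
      · rw [e]; exact this.2
      · rw [e]; exact this.1
    have hcb1 := h1
    have hcb2 := h2
    rw [e, cell_band J hi r1 r2] at hcb1 hcb2
    have lt : ∀ b, J.lit i b k = true → b = !(decide (Hh F 1 (5 + 9 * i + 8) = 0)) := by
      intro b hb
      have h3 := hk i (J.hlit _ _ _ hb)
      cases hd : decide (Hh F 1 (5 + 9 * i + 8) = 0) <;> rw [hd] at h3 <;> cases b <;> simp_all
    rcases hX with rfl | rfl | rfl | rfl
    · -- 8k+2
      have m : (8 * k + 2) % 2 = 0 := by omega
      rw [if_neg (by omega), if_pos m] at hcb1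
      have m8 : (8 * k + 2) % 8 = 2 := by omega
      simp only [m8] at hcb1
      norm_num at hcb1
      have := st hcb1.2
      rw [h, if_pos m] at this
      have hz : Hh F 1 (5 + 9 * i + 8) = 0 := by omega
      simp [hz]
    · -- 8k+3
      have m : (8 * k + 3 + 1) % 2 = 0 := by omega
      rw [if_neg (by omega), if_pos m] at hcb2
      have m8 : (8 * k + 3 + 1) % 8 = 4 := by omega
      have d8 : (8 * k + 3 + 1) / 8 = k := by omega
      simp only [m8, d8] at hcb2
      norm_num at hcb2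
      rcases hcb2.2 with hr | ⟨_, hl⟩
      · have := st hr
        rw [h, if_neg (by omega)] at this
        simp [← this]
      · have := lt _ hl
        have hz : ¬ Hh F 1 (5 + 9 * i + 8) = 0 := by
          intro hz
          rw [hz] at this
          simp at this
        simp [hz]
    · -- 8k+6
      have m : (8 * k + 6) % 2 = 0 := by omega
      rw [if_neg (by omega), if_pos m] at hcb1
      have m8 : (8 * k + 6) % 8 = 6 := by omega
      have d8 : (8 * k + 6) / 8 = k := by omega
      simp only [m8, d8] at hcb1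
      norm_num at hcb1
      rcases hcb1.2 with hr | ⟨_, hl⟩
      · have := st hr
        rw [h, if_pos m] at this
        have hz : Hh F 1 (5 + 9 * i + 8) = 0 := by omega
        simp [hz]
      · have := lt _ hl
        have hz : Hh F 1 (5 + 9 * i + 8) = 0 := by
          by_contra hz
          simp [hz] at this
        simp [hz]
    · -- 8k+7
      have m : (8 * k + 7 + 1) % 2 = 0 := by omega
      rw [if_neg (by omega), if_pos m] at hcb2
      have m8 : (8 * k + 7 + 1) % 8 = 0 := by omega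
      simp only [m8] at hcb2
      norm_num at hcb2
      have := st hcb2.2
      rw [h, if_neg (by omega)] at this
      simp [← this]

end

theorem gridSound : StmtGridSound := by
  classical
  intro J ⟨F, hF, hT⟩
  refine ⟨fun i => decide (Hh F 1 (5 + 9 * i + 8) = 0), fun k hk => ?_⟩
  by_contra hcon
  push Not at hcon
  have hk' : ∀ i < J.n, J.lit i (decide (Hh F 1 (5 + 9 * i + 8) = 0)) k = false := by
    intro i hi
    have := hcon i hi
    simpa using this
  -- the zone is closed
  have step : ∀ p q : {p : ℕ × ℕ // cell J p.1 p.2 = true}, F.Adj p q →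
      (zone (fun i => decide (Hh F 1 (5 + 9 * i + 8) = 0)) k p.1 ↔
        zone (fun i => decide (Hh F 1 (5 + 9 * i + 8) = 0)) k q.1) := by
    have key : ∀ p q : {p : ℕ × ℕ // cell J p.1 p.2 = true}, F.Adj p q →
        (q.1 = (p.1.1 + 1, p.1.2) ∨ q.1 = (p.1.1, p.1.2 + 1)) →
        (zone (fun i => decide (Hh F 1 (5 + 9 * i + 8) = 0)) k p.1 ↔
        zone (fun i => decide (Hh F 1 (5 + 9 * i + 8) = 0)) k q.1) := by
      rintro ⟨⟨X, Y⟩, h1⟩ ⟨q, h2⟩ hadj (e | e)
      · simp only at e h1
        subst e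
        refine zone_H hF hT hk' hk h1 h2 ?_
        unfold Hh
        rw [if_pos ⟨h1, h2, hadj⟩]
      · simp only at e h1
        subst e
        exact zone_V hk' hk h1 h2
    intro p q hadj
    obtain ⟨⟨X, Y⟩, h1⟩ := p
    obtain ⟨⟨X', Y'⟩, h2⟩ := q
    have h3 := hF hadj
    simp only [gridG] at h3
    rcases h3 with ⟨e1, e2 | e2⟩ | ⟨e1, e2 | e2⟩
    · exact (key _ _ hadj.symm (Or.inr (by simp only; rw [Prod.mk.injEq]; omega))).symm
    · exact key _ _ hadj (Or.inr (by simp only; rw [Prod.mk.injEq]; omega))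
    · exact (key _ _ hadj.symm (Or.inl (by simp only; rw [Prod.mk.injEq]; omega))).symm
    · exact key _ _ hadj (Or.inl (by simp only; rw [Prod.mk.injEq]; omega))
  have reach : ∀ p q, F.Reachable p q → (zone (fun i => decide (Hh F 1 (5 + 9 * i + 8) = 0)) k p.1 ↔
        zone (fun i => decide (Hh F 1 (5 + 9 * i + 8) = 0)) k q.1) := by
    rintro p q ⟨w⟩
    induction w with
    | nil => rfl
    | cons h _ ih => exact (step _ _ h).trans ih
  have c1 : cell J (8 * k + 4) 5 = true := by
    rw [show 5 = 5 + 9 * 0 by omega, cell_T J (by omega)]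
    simp; omega
  have c2 : cell J 0 5 = true := by
    rw [show 5 = 5 + 9 * 0 by omega, cell_T J (by omega)]
    simp
  have := reach ⟨(8 * k + 4, 5), c1⟩ ⟨(0, 5), c2⟩ (hT.1.preconnected _ _)
  unfold zone at this
  simp only at this
  have h3 := this.1 ⟨by omega, Or.inl (by omega)⟩
  omega

end Pool.Agent.Psp81
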