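import Pool.Agent.Lib_MP_95a0ff_lc.Defs
import Mathlib.Combinatorics.SimpleGraph.Hamiltonian
import Mathlib.Combinatorics.SimpleGraph.Matching

/-!
# `IsTour` describes exactly the Hamiltonian cycles of the complete graph
-/

namespace Pool.Agent.Psp81

open SimpleGraph

/-- The graphs with `IsTour` are exactly the edge sets of the Hamiltonian cycles (in the sense of
Mathlib) of the complete graph. -/
theorem isTour_iff_hamiltonian {V : Type} [Finite V] [DecidableEq V] (H : SimpleGraph V) :
    IsTour H ↔ ∃ (v : V) (p : (⊤ : SimpleGraph V).Walk v v), p.IsHamiltonianCycle ∧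
      ∀ x y, H.Adj x y ↔ s(x, y) ∈ p.edges := by
  constructor
  · rintro ⟨hc, h2⟩
    obtain ⟨v⟩ := hc.nonempty
    have hcyc : H.IsCycles := fun w _ => h2 w
    have hne : (H.neighborSet v).Nonempty :=
      Set.nonempty_of_ncard_ne_zero (by rw [h2]; omega)
    obtain ⟨p, hp, hpv⟩ := hcyc.exists_cycle_toSubgraph_verts_eq_connectedComponentSupp
      (c := H.connectedComponentMk v) (v := v) rfl hne
    have hall : ∀ w, w ∈ p.support := by
      intro w
      rw [← Walk.mem_verts_toSubgraph, hpv]
      show H.connectedComponentMk w = H.connectedComponentMk v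
      exact ConnectedComponent.sound (hc.preconnected _ _)
    refine ⟨v, p.mapLe le_top, ?_, ?_⟩
    · rw [Walk.isHamiltonianCycle_iff_isCycle_and_support_count_tail_eq_one]
      refine ⟨hp.mapLe le_top, fun a => ?_⟩
      rw [Walk.support_mapLe_eq_support]
      refine List.count_eq_one_of_mem hp.support_nodup ?_
      by_cases ha : a = v
      · subst ha
        exact Walk.end_mem_tail_support hp.not_nil
      · have := hall a
        rw [Walk.support_eq_cons] at this
        exact (List.mem_cons.1 this).resolve_left ha
    · intro x y
      rw [Walk.edges_mapLe_eq_edges]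
      have e1 : p.toSubgraph.neighborSet x = H.neighborSet x := by
        refine Set.eq_of_subset_of_ncard_le (p.toSubgraph.neighborSet_subset x) ?_
          (Set.toFinite _)
        rw [hp.ncard_neighborSet_toSubgraph_eq_two (hall x), h2]
      rw [← Walk.adj_toSubgraph_iff_mem_edges]
      exact (Set.ext_iff.1 e1 y).symm
  · rintro ⟨v, p, hp, he⟩
    have hH : ∀ e ∈ p.edges, e ∈ H.edgeSet := by
      intro e
      induction e using Sym2.ind with
      | _ x y => intro h; exact (he x y).2 h
    refine ⟨?_, ?_⟩
    · have hr : ∀ w, H.Reachable v w := by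
        intro w
        have hw : w ∈ (p.transfer H hH).support := by
          rw [Walk.support_transfer]
          exact hp.mem_support w
        exact ⟨(p.transfer H hH).takeUntil w hw⟩
      exact { preconnected := fun a b => (hr a).symm.trans (hr b), nonempty := ⟨v⟩ }
    · intro x
      have e1 : H.neighborSet x = p.toSubgraph.neighborSet x := by
        ext y
        rw [Subgraph.mem_neighborSet, Walk.adj_toSubgraph_iff_mem_edges]
        exact he x y
      rw [e1]
      exact hp.isCycle.ncard_neighborSet_toSubgraph_eq_two (hp.mem_support x)

end Pool.Agent.Psp81
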