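import Pool.Agent.Lib_MP_95a0ff_lc.Asm
import Pool.Agent.Lib_MP_ce2681_lc.LoopP
import Pool.Agent.Lib_MP_33ea09_lc.CookH
import Pool.Agent.Lib_MP_33ea09_lc.GenP

/-!
# The instance is computed in polynomial time
-/

set_option linter.unusedSectionVars false
set_option linter.unusedVariables false

namespace Pool.Agent.Psp81

open Pool.Agent.PT81 Pool.Agent.IsoImp Pool.Agent.Bx81 Pool.Agent.Dm81 Turing

noncomputable section

/-! ### The string -/

/-- An integer in binary. -/
def encN (neg : Bool) (a : ℕ) : List (Option Bool) :=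
  some (neg && !decide (a = 0)) :: ((Nat.bits a).map some ++ [none, some true, none])

theorem encQ_int (neg : Bool) (a : ℕ) :
    encQ (((if neg then -(a : ℤ) else (a : ℤ)) : ℤ) : ℚ) = encN neg a := by
  unfold encQ encN
  have h1 : ((((if neg then -(a : ℤ) else (a : ℤ)) : ℤ) : ℚ)).den = 1 := Rat.den_intCast _
  have h2 : ((((if neg then -(a : ℤ) else (a : ℤ)) : ℤ) : ℚ)).num =
      (if neg then -(a : ℤ) else (a : ℤ)) := Rat.num_intCast _
  rw [h1, h2]
  have h3 : (if neg then -(a : ℤ) else (a : ℤ)).natAbs = a := by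
    split_ifs <;> simp
  rw [h3]
  have h4 : decide (((((if neg then -(a : ℤ) else (a : ℤ)) : ℤ) : ℚ)) < 0) =
      (neg && !decide (a = 0)) := by
    rw [Bool.eq_iff_iff]
    cases neg
    · simp
    · simp; omega
  rw [h4]
  simp

/-- The string of one coordinate. -/
def coordStr (J : Ins) (p : ℕ × ℕ) (q : Fin 9) (k : ℕ) : List (Option Bool) :=
  if k = 0 then encN (decide (col (posD J p) q % 2 = 1))
    (absX (NN J) (BB J) (col (posD J p) q) (lev (NN J) (posS p) q))
  else if k = 1 then encN (decide (col (posD J p) q % 2 = 1))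
    (absY (NN J) (BB J) (col (posD J p) q) (lev (NN J) (posS p) q))
  else encN false 0

/-- The string of the instance. -/
def gstr (s : ℕ) (J : Ins) : List (Option Bool) :=
  ((cells J).flatMap fun p => (List.finRange 9).flatMap fun q =>
    (List.finRange s).flatMap fun k => coordStr J p q k.val) ++ encN false (LL J)

theorem coordStr_eq {s : ℕ} (J : Ins) (i : Fin (idx (NN J)).length) (k : Fin s) :
    encQ (PP s J i k) = coordStr J ((cells J).get (e9 _ i).1) (e9 _ i).2 k.val := by
  have e0 : encQ (0 : ℚ) = encN false 0 := by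
    have := encQ_int false 0
    simpa using this
  unfold PP coordStr Zp Zc
  by_cases hk0 : k.val = 0
  · simp only [if_pos hk0]
    rw [← encQ_int]
    congr 2
    by_cases hc : col (posD J ((cells J).get (e9 _ i).1)) (e9 _ i).2 % 2 = 0
    · have h1 : decide (col (posD J ((cells J).get (e9 _ i).1)) (e9 _ i).2 % 2 = 1) = false := by
        simp; simpa using hc
      rw [h1, if_pos hc]
      simp
    · have h1 : decide (col (posD J ((cells J).get (e9 _ i).1)) (e9 _ i).2 % 2 = 1) = true := by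
        rw [decide_eq_true_eq]; omega
      rw [h1, if_neg hc]
      simp
  · by_cases hk1 : k.val = 1
    · simp only [if_neg hk0, if_pos hk1]
      rw [← encQ_int]
      congr 2
      by_cases hc : col (posD J ((cells J).get (e9 _ i).1)) (e9 _ i).2 % 2 = 0
      · have h1 : decide (col (posD J ((cells J).get (e9 _ i).1)) (e9 _ i).2 % 2 = 1) = false := by
          simp; simpa using hc
        rw [h1, if_pos hc]
        simp
      · have h1 : decide (col (posD J ((cells J).get (e9 _ i).1)) (e9 _ i).2 % 2 = 1) = true := by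
          rw [decide_eq_true_eq]; omega
        rw [h1, if_neg hc]
        simp
    · simp only [if_neg hk0, if_neg hk1]
      exact e0

theorem flatMap_get {α β : Type} (l : List α) (f : α → List β) :
    (List.finRange l.length).flatMap (fun i => f (l.get i)) = l.flatMap f := by
  have h : (List.finRange l.length).map l.get = l := by
    rw [← List.ofFn_eq_map, List.ofFn_get]
  conv_rhs => rw [← h]
  rw [List.flatMap_map]

theorem gstr_eq (s : ℕ) (J : Ins) : gstr s J = encode (PP s J) (LL J : ℚ) := by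
  unfold gstr encode
  have e1 : encQ ((LL J : ℕ) : ℚ) = encN false (LL J) := by
    have := encQ_int false (LL J)
    simpa using this
  rw [e1]
  congr 1
  simp only [coordStr_eq]
  have e2 := flatMap_get (idx (NN J)) (fun x : Fin (NN J) × Fin 9 =>
    (List.finRange s).flatMap fun k => coordStr J ((cells J).get x.1) x.2 k.val)
  have e3 : (List.finRange (idx (NN J)).length).flatMap (fun i => (List.finRange s).flatMap fun k =>
      coordStr J ((cells J).get (e9 _ i).1) (e9 _ i).2 k.val) =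
      (List.finRange (idx (NN J)).length).flatMap (fun i => (List.finRange s).flatMap fun k =>
      coordStr J ((cells J).get ((idx (NN J)).get i).1) ((idx (NN J)).get i).2 k.val) := rfl
  rw [e3, e2]
  unfold idx
  rw [List.flatMap_assoc]
  simp only [List.flatMap_map]
  exact (flatMap_get (cells J) (fun p => (List.finRange 9).flatMap fun q =>
    (List.finRange s).flatMap fun k => coordStr J p q k.val)).symm

/-! ### Polynomial time -/

theorem Tp_pos' (N B c : ℕ) (hN : 1 ≤ N) : 0 < Tp N B ^ 2 + c ^ 2 := by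
  have : 0 < Tp N B := by
    unfold Tp Wp Lm dl Gm
    positivity
  positivity

section poly

variable {E : PT81.Env} {γ : Type} [Enc E γ] {φ : γ → Cnf} (hφ : Poly E φ)
include hφ

theorem poly_Ymax : Poly E (fun c => Ymax (insOf (φ c))) :=
  Poly.add (Poly.mul (Poly.const 9) (Poly.succ (poly_n hφ))) (Poly.const 6)

theorem poly_cell {X Y : γ → ℕ} (hX : Poly E X) (hY : Poly E Y) :
    Poly E (fun c => cell (insOf (φ c)) (X c) (Y c)) := by
  have hM := poly_M hφ
  have h8M : Poly E (fun c => 8 * (insOf (φ c)).M) := Poly.mul (Poly.const 8) hM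
  have h8M2 : Poly E (fun c => 8 * (insOf (φ c)).M + 2) := Poly.add h8M (Poly.const 2)
  have p8 : ∀ c : γ, 0 < 8 := fun _ => by omega
  have p9 : ∀ c : γ, 0 < 9 := fun _ => by omega
  have p2 : ∀ c : γ, 0 < 2 := fun _ => by omega
  have p4 : ∀ c : γ, 0 < 4 := fun _ => by omega
  have m8 := Poly.mod hX (Poly.const 8) p8
  have d8 := Poly.div hX (Poly.const 8) p8
  have m2 := Poly.mod hX (Poly.const 2) p2
  have m4 := Poly.mod hX (Poly.const 4) p4
  have y5 := Poly.sub hY (Poly.const 5)
  have r9 := Poly.mod y5 (Poly.const 9) p9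
  have i9 := Poly.div y5 (Poly.const 9) p9
  have ym := poly_Ymax hφ
  have eX := fun k : ℕ => Poly.eq hX (Poly.const k)
  have eY := fun k : ℕ => Poly.eq hY (Poly.const k)
  have e8 := fun k : ℕ => Poly.eq m8 (Poly.const k)
  have er := fun k : ℕ => Poly.eq r9 (Poly.const k)
  have hK := Poly.or (eX 0) (Poly.eq hX h8M2)
  have l1 := poly_lit hφ i9 (Poly.const true) d8
  have l2 := poly_lit hφ i9 (Poly.const false) d8
  have b2 := Poly.or hK (Poly.and (Poly.le (Poly.const 2) hX) (Poly.and (Poly.le hX h8M)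
    (Poly.not (e8 1))))
  have b3 := Poly.or hK (Poly.or (e8 2) (e8 0))
  have b4 := Poly.or (e8 0) (Poly.or (e8 2) (Poly.or (e8 4) (Poly.or (e8 5) (e8 6))))
  have b6 := Poly.not (Poly.eq m4 (Poly.const 3))
  have be := Poly.or (Poly.or (er 1) (er 8)) (Poly.and (Poly.and (Poly.le (Poly.const 3) r9)
    (Poly.le r9 (Poly.const 5))) (Poly.or (Poly.and (e8 4) l1) (Poly.and (e8 6) l2)))
  have bo := Poly.not (Poly.and (er 4) (Poly.or (Poly.and (e8 3) l1) (Poly.and (e8 7) l2)))
  refine (Poly.and (Poly.le hX h8M2) (Poly.ite (eY 0) (Poly.const true) (Poly.ite (eY 1) hK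
    (Poly.ite (eY 2) b2 (Poly.ite (eY 3) b3 (Poly.ite (eY 4) b4 (Poly.ite (Poly.eq hY ym) b6
    (Poly.ite (Poly.lt ym hY) (Poly.const false) (Poly.ite (er 0) (Poly.eq m2 (Poly.const 0))
    (Poly.ite hK (Poly.const true) (Poly.ite (Poly.eq m2 (Poly.const 0)) be
      bo))))))))))).congr fun c => ?_
  unfold cell Ymax
  simp only [decide_eq_true_eq, Bool.or_eq_true, Bool.decide_or, Bool.decide_and, ne_eq,
    decide_not, Bool.or_assoc, Bool.and_assoc]

theorem poly_cells : Poly E (fun c => cells (insOf (φ c))) := by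
  have hX : Poly E (fun c => 8 * (insOf (φ c)).M + 3) :=
    Poly.add (Poly.mul (Poly.const 8) (poly_M hφ)) (Poly.const 3)
  refine Poly.flatMap (g := fun p : γ × ℕ => ((List.range (Ymax (insOf (φ p.1)) + 1)).filter
    fun Y => cell (insOf (φ p.1)) p.2 Y).map fun Y => (p.2, Y)) hX.range ?_
  refine Poly.map (g := fun r : (γ × ℕ) × ℕ => (r.1.2, r.2)) ?_
    (Poly.pair (Poly.snd.comp Poly.fst) Poly.snd)
  refine Poly.filter (g := fun r : (γ × ℕ) × ℕ => cell (insOf (φ r.1.1)) r.1.2 r.2)
    (Poly.succ ((poly_Ymax hφ).comp Poly.fst)).range ?_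
  exact poly_cell (hφ.comp (Poly.fst.comp Poly.fst)) (Poly.snd.comp Poly.fst) Poly.snd

theorem poly_NN : Poly E (fun c => NN (insOf (φ c))) := Poly.length (poly_cells hφ)

theorem poly_BB : Poly E (fun c => BB (insOf (φ c))) :=
  Poly.add (Poly.add (Poly.mul (Poly.const 8) (poly_M hφ)) (Poly.const 2)) (poly_Ymax hφ)

theorem poly_pow {f : γ → ℕ} (hf : Poly E f) (k : ℕ) : Poly E (fun c => f c ^ k) := by
  induction k with
  | zero => exact (Poly.const 1).congr fun c => (pow_zero _).symm
  | succ k ih => exact (Poly.mul ih hf).congr fun c => (pow_succ _ _).symm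

omit hφ in
theorem poly_pow' {f : γ → ℕ} (hf : Poly E f) (k : ℕ) : Poly E (fun c => f c ^ k) := by
  induction k with
  | zero => exact (Poly.const 1).congr fun c => (pow_zero _).symm
  | succ k ih => exact (Poly.mul ih hf).congr fun c => (pow_succ _ _).symm

section par

omit hφ

variable {N B : γ → ℕ} (hN : Poly E N) (hB : Poly E B)
include hN

theorem poly_dl : Poly E (fun c => dl (N c)) := Poly.mul (Poly.const 100) hN

include hB

theorem poly_Lm : Poly E (fun c => Lm (N c) (B c)) := Poly.mul (poly_dl hN) (Poly.succ hB)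

theorem poly_Wp : Poly E (fun c => Wp (N c) (B c)) :=
  Poly.mul (Poly.const 1000) (poly_pow' (poly_Lm hN hB) 3)

theorem poly_Gm : Poly E (fun c => Gm (B c)) :=
  Poly.add (Poly.mul (Poly.const 3) hB) (Poly.const 3)

theorem poly_Tp : Poly E (fun c => Tp (N c) (B c)) :=
  Poly.mul (Poly.mul (Poly.const 100) (poly_Wp hN hB)) (poly_Gm hN hB)

theorem poly_Gp : Poly E (fun c => Gp (N c) (B c)) :=
  Poly.mul (Poly.mul (Poly.const 4) (poly_pow' (poly_Tp hN hB) 2)) (poly_Wp hN hB)

variable {c0 l0 : γ → ℕ} (hc : Poly E c0) (hl : Poly E l0)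
include hc hl

theorem poly_rad : Poly E (fun c => rad (N c) (B c) (c0 c) (l0 c)) := by
  refine (Poly.ite (Poly.eq (Poly.mod hc (Poly.const 2) (fun _ => by omega)) (Poly.const 0))
    (Poly.add (poly_Wp hN hB) hl) (Poly.sub (poly_Wp hN hB) hl)).congr fun c => ?_
  unfold rad
  simp only [decide_eq_true_eq]

theorem poly_absX (h0 : ∀ c, 1 ≤ N c) : Poly E (fun c => absX (N c) (B c) (c0 c) (l0 c)) :=
  Poly.div (Poly.mul (Poly.mul (poly_Gp hN hB) (poly_rad hN hB hc hl))
    (Poly.sub (poly_pow' (poly_Tp hN hB) 2) (poly_pow' hc 2)))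
    (Poly.add (poly_pow' (poly_Tp hN hB) 2) (poly_pow' hc 2)) (fun c => Tp_pos' _ _ _ (h0 c))

theorem poly_absY (h0 : ∀ c, 1 ≤ N c) : Poly E (fun c => absY (N c) (B c) (c0 c) (l0 c)) :=
  Poly.div (Poly.mul (Poly.mul (poly_Gp hN hB) (poly_rad hN hB hc hl))
    (Poly.mul (Poly.mul (Poly.const 2) hc) (poly_Tp hN hB)))
    (Poly.add (poly_pow' (poly_Tp hN hB) 2) (poly_pow' hc 2)) (fun c => Tp_pos' _ _ _ (h0 c))

theorem poly_lamc : Poly E (fun c => lamc (N c) (B c) (c0 c) (l0 c)) :=
  Poly.add (Poly.mul (Poly.sub (Poly.mul (Poly.mul (Poly.const 4)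
    (poly_pow' (poly_Tp hN hB) 2)) (poly_Wp hN hB)) (Poly.mul (Poly.const 2) (poly_Wp hN hB)))
    (poly_rad hN hB hc hl)) (Poly.mul (Poly.const 2) (poly_pow' hl 2))

end par

omit hφ in
theorem poly_sum {α : Type} [Enc E α] {f : γ → List α} {g : γ × α → ℕ} (hf : Poly E f)
    (hg : Poly E g) : Poly E (fun c => ((f c).map fun a => g (c, a)).sum) := by
  refine (Poly.length (Poly.flatMap (g := fun p : γ × α => List.replicate (g p) ()) hf
    hg.units)).congr fun c => ?_
  rw [List.length_flatMap]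
  simp

theorem poly_posD {p : γ → ℕ × ℕ} (hp : Poly E p) : Poly E (fun c => posD (insOf (φ c)) (p c)) :=
  Poly.add (Poly.fst.comp hp) (Poly.sub (poly_Ymax hφ) (Poly.snd.comp hp))

omit hφ in
theorem poly_posS {p : γ → ℕ × ℕ} (hp : Poly E p) : Poly E (fun c => posS (p c)) :=
  Poly.add (Poly.fst.comp hp) (Poly.snd.comp hp)

theorem poly_col {p : γ → ℕ × ℕ} (hp : Poly E p) (q : Fin 9) :
    Poly E (fun c => col (posD (insOf (φ c)) (p c)) q) :=
  Poly.add (Poly.mul (Poly.const 3) (poly_posD hφ hp)) (Poly.const (role q))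

theorem poly_lev {p : γ → ℕ × ℕ} (hp : Poly E p) (q : Fin 9) :
    Poly E (fun c => lev (NN (insOf (φ c))) (posS (p c)) q) :=
  Poly.add (Poly.mul (poly_dl (poly_NN hφ)) (poly_posS hp)) (Poly.const (kk q))

theorem poly_lp {p : γ → ℕ × ℕ} (hp : Poly E p) (q : Fin 9) :
    Poly E (fun c => lp (insOf (φ c)) (p c) q) :=
  poly_lamc (poly_NN hφ) (poly_BB hφ) (poly_col hφ hp q) (poly_lev hφ hp q)

theorem poly_lamSum : Poly E (fun c => lamSum (insOf (φ c))) := by
  refine poly_sum (g := fun r : γ × (ℕ × ℕ) =>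
    ((List.finRange 9).map fun q => lp (insOf (φ r.1)) r.2 q).sum) (poly_cells hφ) ?_
  exact poly_sumConst _ fun q => poly_lp (hφ.comp Poly.fst) Poly.snd q

theorem poly_LL : Poly E (fun c => LL (insOf (φ c))) :=
  Poly.sub (Poly.mul (Poly.const 4) (poly_lamSum hφ)) (Poly.add (Poly.mul (Poly.const 20000)
    (poly_pow' (poly_NN hφ) 3)) (Poly.mul (Poly.const 5000) (poly_pow' (poly_NN hφ) 2)))

omit hφ in
theorem poly_encN [Enc E (Option Bool)] {b : γ → Bool} {a : γ → ℕ} (hb : Poly E b)
    (ha : Poly E a) : Poly E (fun c => encN (b c) (a c)) := by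
  have hsome : ∀ {δ : Type} [Enc E δ] {f : δ → Bool}, Poly E f →
      Poly E (fun c => (some (f c) : Option Bool)) := by
    intro δ _ f hf
    exact Poly.comp₁ (fun b : Bool => (some b : Option Bool)) hf
  refine Poly.cons (hsome (Poly.and hb (Poly.not (Poly.eq ha (Poly.const 0))))) (Poly.append ?_
    (Poly.const _))
  exact Poly.map (g := fun q : γ × Bool => some q.2) (poly_binary ha) (hsome Poly.snd)

theorem poly_gstr [Enc E (Option Bool)] (s : ℕ) : Poly E (fun c => gstr s (insOf (φ c))) := by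
  refine Poly.append ?_ (poly_encN (Poly.const false) (poly_LL hφ))
  refine Poly.flatMap (g := fun r : γ × (ℕ × ℕ) => (List.finRange 9).flatMap fun q =>
    (List.finRange s).flatMap fun k => coordStr (insOf (φ r.1)) r.2 q k.val) (poly_cells hφ) ?_
  refine Poly.flatMapConst _ fun q => Poly.flatMapConst _ fun k => ?_
  have hφ' := hφ.comp (Poly.fst (E := E) (α := γ) (β := ℕ × ℕ))
  have hp : Poly E (fun r : γ × (ℕ × ℕ) => r.2) := Poly.snd
  have hc := poly_col hφ' hp q
  have hl := poly_lev hφ' hp q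
  have hb : Poly E (fun r : γ × (ℕ × ℕ) => decide (col (posD (insOf (φ r.1)) r.2) q % 2 = 1)) :=
    Poly.eq (Poly.mod hc (Poly.const 2) (fun _ => by omega)) (Poly.const 1)
  have h0 : ∀ r : γ × (ℕ × ℕ), 1 ≤ NN (insOf (φ r.1)) := fun r => by
    have := NN_ge (insOf (φ r.1)); omega
  have a1 := poly_encN hb (poly_absX (poly_NN hφ') (poly_BB hφ') hc hl h0)
  have a2 := poly_encN hb (poly_absY (poly_NN hφ') (poly_BB hφ') hc hl h0)
  unfold coordStr
  by_cases hk0 : k.val = 0
  · simp only [hk0, if_true]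
    exact a1
  · by_cases hk1 : k.val = 1
    · simp only [hk1, if_true]
      exact a2
    · simp only [hk0, hk1, if_false]
      exact Poly.const _

end poly

/-- The hardness theorem from the modules. -/
theorem hard_of (hSA : StmtSoundA) (hCA : StmtCompA) (hG : StmtGeo)
    (hGS : StmtGridSound) (hGC : StmtGridComp) {s : ℕ} (hs : 2 ≤ s) {Γ : Type} [Fintype Γ]
    (L : Set (List Γ)) (hL : InNP L) : Reduces L (Max2PSP s) := by
  classical
  obtain ⟨R, q, hR, hq⟩ := hL
  obtain ⟨F, hF, hFL⟩ := Cook81.cook_levin hR hq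
  refine ⟨fun x => gstr s (insOf (F x)), ?_, fun x => ?_⟩
  · let _ : Enc (io Γ (Option Bool)) Γ := finEnc _ _
    let _ : Enc (io Γ (Option Bool)) (Option Bool) := finEnc _ _
    exact poly_toTM2 (poly_gstr (hF (io Γ (Option Bool))) s) _ _ _ (fun _ => rfl)
  · show x ∈ L ↔ gstr s (insOf (F x)) ∈ Max2PSP s
    rw [gstr_eq, reduction_correct hSA hCA hG hGS hGC hs, ins_sat, hFL x]
    rfl

end

end Pool.Agent.Psp81
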