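import Pool.Agent.Lib_MP_95a0ff_lc.Defs
import Pool.Agent.Lib_MP_33ea09_lc.Label

/-!
# The statements of the modules
-/

namespace Pool.Agent.Psp81

open Pool.Agent.Bx81

/-! ## The abstract reduction: bars and clusters of nine points -/

/-- The column of a point inside its cluster: `0` = left, `1` = middle, `2` = right. -/
def role : Fin 9 → ℕ := ![0, 0, 1, 1, 1, 1, 2, 2, 2]

/-- The index of a point inside its column. -/
def kk : Fin 9 → ℕ := ![0, 1, 0, 1, 2, 3, 0, 1, 2]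

/-- Ties between bars: horizontal position and level both differ by one. -/
def tieG {N : ℕ} (D S : Fin N → ℕ) : SimpleGraph (Fin N) where
  Adj a b := (D a = D b + 1 ∨ D b = D a + 1) ∧ (S a = S b + 1 ∨ S b = S a + 1)
  symm := ⟨fun a b h => ⟨h.1.symm, h.2.symm⟩⟩
  loopless := ⟨fun a h => by obtain ⟨h1, h2⟩ := h; omega⟩

/-- Bounds on the defects `lam x + lam y - d x y`, where `Δ = 100 N`. -/
structure Geo {N : ℕ} (D S : Fin N → ℕ) (d : Fin N × Fin 9 → Fin N × Fin 9 → ℝ)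
    (lam : Fin N × Fin 9 → ℝ) : Prop where
  inj : ∀ a b, D a = D b → S a = S b → a = b
  symm : ∀ x y, d x y = d y x
  low : ∀ x y, x ≠ y → x.1 = y.1 → -5 ≤ lam x + lam y - d x y
  int : ∀ x y, x.1 = y.1 → (role x.2 = role y.2 + 1 ∨ role y.2 = role x.2 + 1) →
    lam x + lam y - d x y ≤ 20
  cross : ∀ x y, x.1 ≠ y.1 → (100 * N - 3 : ℝ) ^ 2 - 5 ≤ lam x + lam y - d x y
  far : ∀ x y, x.1 ≠ y.1 → ¬ (tieG D S).Adj x.1 y.1 →
    (200 * N - 3 : ℝ) ^ 2 - 5 ≤ lam x + lam y - d x y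
  tie : ∀ x y, (tieG D S).Adj x.1 y.1 → D y.1 = D x.1 + 1 → role x.2 = 2 → role y.2 = 0 →
    lam x + lam y - d x y ≤ (100 * N + 3 : ℝ) ^ 2 + 5

open Classical in
/-- The total weight of the edges of a graph. -/
noncomputable def wt {V : Type} [Fintype V] (d : V → V → ℝ) (H : SimpleGraph V) : ℝ :=
  (∑ x, ∑ y, if H.Adj x y then d x y else 0) / 2

/-- The threshold. -/
noncomputable def thr {N : ℕ} (lam : Fin N × Fin 9 → ℝ) : ℝ :=
  4 * ∑ x, lam x - 2 * N * (100 * N) ^ 2 - (100 * N) ^ 2 / 2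

/-- Module SoundA. -/
def StmtSoundA : Prop := ∀ (N : ℕ) (D S : Fin N → ℕ) (d : Fin N × Fin 9 → Fin N × Fin 9 → ℝ)
  (lam : Fin N × Fin 9 → ℝ), 3 ≤ N → Geo D S d lam →
  (∃ H₁ H₂ : SimpleGraph (Fin N × Fin 9), IsTour H₁ ∧ IsTour H₂ ∧
    (∀ x y, H₁.Adj x y → ¬ H₂.Adj x y) ∧ thr lam ≤ wt d H₁ + wt d H₂) →
  ∃ F : SimpleGraph (Fin N), F ≤ tieG D S ∧ IsTour F

/-- Module CompA. -/
def StmtCompA : Prop := ∀ (N : ℕ) (D S : Fin N → ℕ) (d : Fin N × Fin 9 → Fin N × Fin 9 → ℝ)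
  (lam : Fin N × Fin 9 → ℝ), Geo D S d lam →
  (∃ F : SimpleGraph (Fin N), F ≤ tieG D S ∧ IsTour F) →
  ∃ H₁ H₂ : SimpleGraph (Fin N × Fin 9), IsTour H₁ ∧ IsTour H₂ ∧
    (∀ x y, H₁.Adj x y → ¬ H₂.Adj x y) ∧ thr lam ≤ wt d H₁ + wt d H₂

/-! ## The geometry -/

/-- The levels of different bars differ by multiples of this number. -/
def dl (N : ℕ) : ℕ := 100 * N
/-- A bound on all levels, when the positions of the bars are at most `B`. -/
def Lm (N B : ℕ) : ℕ := dl N * (B + 1)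
/-- A bound on all columns. -/
def Gm (B : ℕ) : ℕ := 3 * B + 3
/-- The radius. -/
def Wp (N B : ℕ) : ℕ := 1000 * Lm N B ^ 3
/-- The cotangent of half of the angle between consecutive columns. -/
def Tp (N B : ℕ) : ℕ := 100 * Wp N B * Gm B
/-- The scale. -/
def Gp (N B : ℕ) : ℕ := 4 * Tp N B ^ 2 * Wp N B

/-- The column of the point `q` of the bar at horizontal position `D`. -/
def col (D : ℕ) (q : Fin 9) : ℕ := 3 * D + role q
/-- The level of the point `q` of the bar at level `S`. -/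
def lev (N S : ℕ) (q : Fin 9) : ℕ := dl N * S + kk q

/-- The radius of a point: even columns are at distance `W + ℓ` and odd columns at distance `W - ℓ`
on the other side. -/
def rad (N B c l : ℕ) : ℕ := if c % 2 = 0 then Wp N B + l else Wp N B - l

/-- The absolute values of the coordinates. -/
def absX (N B c l : ℕ) : ℕ :=
  Gp N B * rad N B c l * (Tp N B ^ 2 - c ^ 2) / (Tp N B ^ 2 + c ^ 2)
def absY (N B c l : ℕ) : ℕ :=
  Gp N B * rad N B c l * (2 * c * Tp N B) / (Tp N B ^ 2 + c ^ 2)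

/-- The coordinates of a point in column `c` at level `l`. -/
def Zc (N B c l : ℕ) : ℤ × ℤ :=
  if c % 2 = 0 then ((absX N B c l : ℤ), (absY N B c l : ℤ))
  else (-(absX N B c l : ℤ), -(absY N B c l : ℤ))

/-- The potential of a point in column `c` at level `l`. -/
def lamc (N B c l : ℕ) : ℕ :=
  (4 * Tp N B ^ 2 * Wp N B - 2 * Wp N B) * rad N B c l + 2 * l ^ 2

/-- The distance of points of the integer grid. -/
noncomputable def dst (x y : ℤ × ℤ) : ℝ :=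
  √(((x.1 : ℝ) - y.1) ^ 2 + ((x.2 : ℝ) - y.2) ^ 2)

/-- Module GeoM: the bounds for the concrete points. -/
def StmtGeo : Prop := ∀ (N B : ℕ) (D S : Fin N → ℕ), 1 ≤ N → (∀ a, D a ≤ B) → (∀ a, S a ≤ B) →
  (∀ a b, D a = D b → S a = S b → a = b) → (∀ a b, (D a + S a) % 2 = (D b + S b) % 2) →
  Geo D S
    (fun x y => dst (Zc N B (col (D x.1) x.2) (lev N (S x.1) x.2))
      (Zc N B (col (D y.1) y.2) (lev N (S y.1) y.2)))
    (fun x => (lamc N B (col (D x.1) x.2) (lev N (S x.1) x.2) : ℝ)) ∧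
  Function.Injective (fun x : Fin N × Fin 9 => Zc N B (col (D x.1) x.2) (lev N (S x.1) x.2))

/-! ## The grid graph -/

/-- The cells of the layout. The columns are `0, …, 8 M + 2` and the rows `0, …, 9 (n + 1) + 6`. -/
def cell (J : Ins) (X Y : ℕ) : Bool :=
  decide (X ≤ 8 * J.M + 2) &&
  (if Y = 0 then true
  else if Y = 1 then decide (X = 0 ∨ X = 8 * J.M + 2)
  else if Y = 2 then decide (X = 0 ∨ X = 8 * J.M + 2 ∨ (2 ≤ X ∧ X ≤ 8 * J.M ∧ X % 8 ≠ 1))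
  else if Y = 3 then decide (X = 0 ∨ X = 8 * J.M + 2 ∨ X % 8 = 2 ∨ X % 8 = 0)
  else if Y = 4 then decide (X % 8 = 0 ∨ X % 8 = 2 ∨ X % 8 = 4 ∨ X % 8 = 5 ∨ X % 8 = 6)
  else if Y = 9 * (J.n + 1) + 6 then decide (X % 4 ≠ 3)
  else if 9 * (J.n + 1) + 6 < Y then false
  else if (Y - 5) % 9 = 0 then decide (X % 2 = 0)
  else if X = 0 ∨ X = 8 * J.M + 2 then true
  else if X % 2 = 0 then
    decide ((Y - 5) % 9 = 1 ∨ (Y - 5) % 9 = 8) ||
      (decide (3 ≤ (Y - 5) % 9 ∧ (Y - 5) % 9 ≤ 5) &&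
        ((decide (X % 8 = 4) && J.lit ((Y - 5) / 9) true (X / 8)) ||
          (decide (X % 8 = 6) && J.lit ((Y - 5) / 9) false (X / 8))))
  else
    !(decide ((Y - 5) % 9 = 4) &&
        ((decide (X % 8 = 3) && J.lit ((Y - 5) / 9) true (X / 8)) ||
          (decide (X % 8 = 7) && J.lit ((Y - 5) / 9) false (X / 8)))))

/-- The grid graph on the cells. -/
def gridG (J : Ins) : SimpleGraph {p : ℕ × ℕ // cell J p.1 p.2 = true} where
  Adj p q := (p.1.1 = q.1.1 ∧ (p.1.2 = q.1.2 + 1 ∨ q.1.2 = p.1.2 + 1)) ∨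
    (p.1.2 = q.1.2 ∧ (p.1.1 = q.1.1 + 1 ∨ q.1.1 = p.1.1 + 1))
  symm := ⟨fun p q h => by
    rcases h with ⟨h1, h2⟩ | ⟨h1, h2⟩
    · exact Or.inl ⟨h1.symm, h2.symm⟩
    · exact Or.inr ⟨h1.symm, h2.symm⟩⟩
  loopless := ⟨fun p h => by rcases h with ⟨h1, h2⟩ | ⟨h1, h2⟩ <;> omega⟩

/-- Module GridSound. -/
def StmtGridSound : Prop := ∀ J : Ins, (∃ F : SimpleGraph _, F ≤ gridG J ∧ IsTour F) →
  ∃ a : ℕ → Bool, ∀ k < J.M, ∃ i < J.n, J.lit i (a i) k = true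

/-- Module GridComp. -/
def StmtGridComp : Prop := ∀ J : Ins, (∃ a : ℕ → Bool, ∀ k < J.M, ∃ i < J.n,
  J.lit i (a i) k = true) → ∃ F : SimpleGraph _, F ≤ gridG J ∧ IsTour F

end Pool.Agent.Psp81
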