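import Mathlib
import Pool.Agent.Lib_MP_95a0ff_lc.Stmts

set_option autoImplicit false

/-!
# Soundness of the abstract reduction: two long tours give a Hamiltonian cycle of the tie graph
-/

namespace Pool.Agent.Psp81

open Finset Classical

section sa
variable {N : ℕ}

/-- the darts of `H` -/
noncomputable def saD (H : SimpleGraph (Fin N × Fin 9)) :
    Finset ((Fin N × Fin 9) × (Fin N × Fin 9)) :=
  univ.filter (fun p => H.Adj p.1 p.2)

theorem saD_mem {H : SimpleGraph (Fin N × Fin 9)} {p : (Fin N × Fin 9) × (Fin N × Fin 9)} :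
    p ∈ saD H ↔ H.Adj p.1 p.2 := by simp [saD]

/-- the darts between different bars -/
noncomputable def saC (H : SimpleGraph (Fin N × Fin 9)) :
    Finset ((Fin N × Fin 9) × (Fin N × Fin 9)) :=
  (saD H).filter (fun p => p.1.1 ≠ p.2.1)

theorem saC_mem {H : SimpleGraph (Fin N × Fin 9)} {p : (Fin N × Fin 9) × (Fin N × Fin 9)} :
    p ∈ saC H ↔ H.Adj p.1 p.2 ∧ p.1.1 ≠ p.2.1 := by simp [saC, saD_mem]

/-- the darts inside bars -/
noncomputable def saI (H : SimpleGraph (Fin N × Fin 9)) :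
    Finset ((Fin N × Fin 9) × (Fin N × Fin 9)) :=
  (saD H).filter (fun p => ¬ p.1.1 ≠ p.2.1)

theorem saI_mem {H : SimpleGraph (Fin N × Fin 9)} {p : (Fin N × Fin 9) × (Fin N × Fin 9)} :
    p ∈ saI H ↔ H.Adj p.1 p.2 ∧ p.1.1 = p.2.1 := by simp [saI, saD_mem]

theorem sa_deg {H : SimpleGraph (Fin N × Fin 9)} (hH : IsTour H) (x : Fin N × Fin 9) :
    (univ.filter (fun y => H.Adj x y)).card = 2 := by
  rw [← hH.2 x, ← Set.ncard_coe_finset]
  congr 1
  ext y
  simp

theorem sa_sum_fst {H : SimpleGraph (Fin N × Fin 9)} (hH : IsTour H) (f : Fin N × Fin 9 → ℝ) :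
    ∑ p ∈ saD H, f p.1 = 2 * ∑ x, f x := by
  unfold saD
  rw [sum_filter, Fintype.sum_prod_type, mul_sum]
  apply sum_congr rfl
  intro x _
  show ∑ y, (if H.Adj x y then f x else 0) = 2 * f x
  rw [← sum_filter, sum_const, sa_deg hH x]
  simp

theorem sa_sum_snd {H : SimpleGraph (Fin N × Fin 9)} (hH : IsTour H) (f : Fin N × Fin 9 → ℝ) :
    ∑ p ∈ saD H, f p.2 = 2 * ∑ x, f x := by
  rw [← sa_sum_fst hH f]
  refine sum_bij' (fun p _ => (p.2, p.1)) (fun p _ => (p.2, p.1)) ?_ ?_ ?_ ?_ ?_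
  · intro p hp; rw [saD_mem] at hp ⊢; exact hp.symm
  · intro p hp; rw [saD_mem] at hp ⊢; exact hp.symm
  · intro p _; rfl
  · intro p _; rfl
  · intro p _; rfl

theorem sa_wt (H : SimpleGraph (Fin N × Fin 9)) (d : Fin N × Fin 9 → Fin N × Fin 9 → ℝ) :
    2 * wt d H = ∑ p ∈ saD H, d p.1 p.2 := by
  unfold wt saD
  have : ∀ a : ℝ, 2 * (a / 2) = a := fun a => by ring
  rw [this, sum_filter]
  exact (Fintype.sum_prod_type (f := fun p : (Fin N × Fin 9) × (Fin N × Fin 9) =>
    if H.Adj p.1 p.2 then d p.1 p.2 else 0)).symm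

/-- a set without fixed points under an involution has even cardinality. -/
theorem sa_even (T : Finset ((Fin N × Fin 9) × (Fin N × Fin 9)))
    (hs : ∀ p ∈ T, (p.2, p.1) ∈ T) (hne : ∀ p ∈ T, p.1 ≠ p.2) : Even T.card := by
  have h : ∑ _p ∈ T, (1 : ZMod 2) = 0 := by
    apply sum_involution (fun p _ => (p.2, p.1))
    · intro p _; decide
    · intro p hp _ h
      apply hne p hp
      exact (congrArg Prod.fst h).symm
    · intro p hp; exact hs p hp
    · intro p _; rfl
  rw [sum_const, nsmul_eq_mul, mul_one, ZMod.natCast_eq_zero_iff] at h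
  exact even_iff_two_dvd.mpr h

theorem sa_closed {V : Type} {H : SimpleGraph V} (hH : H.Connected) (S : Set V)
    (hS : ∀ x ∈ S, ∀ y, H.Adj x y → y ∈ S) {x : V} (hx : x ∈ S) (y : V) : y ∈ S := by
  obtain ⟨w⟩ := hH.preconnected x y
  induction w with
  | nil => exact hx
  | cons h _ ih => exact ih (hS _ hx _ h)

/-- the darts leaving the bar `b` -/
noncomputable def saO (H : SimpleGraph (Fin N × Fin 9)) (b : Fin N) :
    Finset ((Fin N × Fin 9) × (Fin N × Fin 9)) :=
  (saC H).filter (fun p => p.1.1 = b)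

theorem saO_mem {H : SimpleGraph (Fin N × Fin 9)} {b : Fin N}
    {p : (Fin N × Fin 9) × (Fin N × Fin 9)} :
    p ∈ saO H b ↔ H.Adj p.1 p.2 ∧ p.1.1 ≠ p.2.1 ∧ p.1.1 = b := by
  simp [saO, saC_mem, and_assoc]

theorem sa_out_even {H : SimpleGraph (Fin N × Fin 9)} (hH : IsTour H) (b : Fin N) :
    Even (saO H b).card := by
  -- all darts starting in the bar
  have h1 : ((saD H).filter (fun p => p.1.1 = b)).card = 18 := by
    have h2 := sa_sum_fst hH (fun x => if x.1 = b then (1 : ℝ) else 0)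
    have h3 : ∑ x : Fin N × Fin 9, (if x.1 = b then (1 : ℝ) else 0) = 9 := by
      rw [Fintype.sum_prod_type]
      have h4 : ∀ x : Fin N, ∑ _y : Fin 9, (if x = b then (1 : ℝ) else 0) =
          if x = b then 9 else 0 := by
        intro x; split_ifs <;> simp
      calc ∑ x : Fin N, ∑ _y : Fin 9, (if x = b then (1 : ℝ) else 0) =
          ∑ x : Fin N, (if x = b then (9 : ℝ) else 0) := sum_congr rfl (fun x _ => h4 x)
        _ = 9 := by simp
    rw [h3, ← sum_filter, sum_const, nsmul_eq_mul, mul_one] at h2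
    have : (((saD H).filter (fun p => p.1.1 = b)).card : ℝ) = 18 := by rw [h2]; norm_num
    exact_mod_cast this
  have h4 : ((saD H).filter (fun p => p.1.1 = b)).card =
      (saO H b).card + ((saD H).filter (fun p => p.1.1 = b ∧ p.2.1 = b)).card := by
    rw [← card_union_of_disjoint]
    · congr 1
      ext p
      simp only [mem_filter, mem_union, saO_mem, saD_mem]
      constructor
      · rintro ⟨h, h'⟩
        by_cases h5 : p.2.1 = b
        · exact Or.inr ⟨h, h', h5⟩
        · exact Or.inl ⟨h, by rw [h']; exact fun h6 => h5 h6.symm, h'⟩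
      · rintro (⟨h, h', h''⟩ | ⟨h, h', h''⟩)
        · exact ⟨h, h''⟩
        · exact ⟨h, h'⟩
    · rw [disjoint_left]
      intro p hp hp'
      rw [saO_mem] at hp
      rw [mem_filter] at hp'
      exact hp.2.1 (hp'.2.1.trans hp'.2.2.symm)
  have h5 : Even ((saD H).filter (fun p => p.1.1 = b ∧ p.2.1 = b)).card := by
    apply sa_even
    · intro p hp
      rw [mem_filter, saD_mem] at hp ⊢
      exact ⟨hp.1.symm, hp.2.2, hp.2.1⟩
    · intro p hp
      rw [mem_filter, saD_mem] at hp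
      exact hp.1.ne
  rw [h1] at h4
  obtain ⟨k, hk⟩ := h5
  rw [hk] at h4
  exact ⟨9 - k, by omega⟩

theorem sa_out_ge {H : SimpleGraph (Fin N × Fin 9)} (hN : 2 ≤ N) (hH : IsTour H) (b : Fin N) :
    2 ≤ (saO H b).card := by
  have h1 := sa_out_even hH b
  have h2 : (saO H b).card ≠ 0 := by
    intro h0
    rw [card_eq_zero] at h0
    obtain ⟨b', hb'⟩ : ∃ b' : Fin N, b' ≠ b := by
      have : Nontrivial (Fin N) := Fin.nontrivial_iff_two_le.mpr hN
      exact exists_ne b
    have h3 := sa_closed hH.1 {x : Fin N × Fin 9 | x.1 = b} (by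
      intro x hx y hxy
      by_contra hy
      have : (x, y) ∈ saO H b := by
        rw [saO_mem]
        exact ⟨hxy, by rw [show x.1 = b from hx]; exact fun h => hy h.symm, hx⟩
      rw [h0] at this
      exact absurd this (notMem_empty _)) (x := (b, 0)) rfl (b', 0)
    exact hb' h3
  obtain ⟨k, hk⟩ := h1
  omega

theorem sa_C_card (H : SimpleGraph (Fin N × Fin 9)) : (saC H).card = ∑ b, (saO H b).card := by
  unfold saO
  exact card_eq_sum_card_fiberwise (fun p _ => mem_univ (p.1.1))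

theorem sa_C_even (H : SimpleGraph (Fin N × Fin 9)) : Even (saC H).card := by
  apply sa_even
  · intro p hp
    rw [saC_mem] at hp ⊢
    exact ⟨hp.1.symm, hp.2.symm⟩
  · intro p hp
    rw [saC_mem] at hp
    exact hp.1.ne

theorem sa_C_ge {H : SimpleGraph (Fin N × Fin 9)} (hN : 2 ≤ N) (hH : IsTour H) :
    2 * N ≤ (saC H).card := by
  rw [sa_C_card]
  calc 2 * N = ∑ _b : Fin N, 2 := by simp [mul_comm]
    _ ≤ _ := sum_le_sum (fun b _ => sa_out_ge hN hH b)

variable {D S : Fin N → ℕ} {d : Fin N × Fin 9 → Fin N × Fin 9 → ℝ} {lam : Fin N × Fin 9 → ℝ}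

/-- total defect -/
noncomputable def saE (d : Fin N × Fin 9 → Fin N × Fin 9 → ℝ) (lam : Fin N × Fin 9 → ℝ)
    (H : SimpleGraph (Fin N × Fin 9)) : ℝ :=
  ∑ p ∈ saD H, (lam p.1 + lam p.2 - d p.1 p.2)

theorem saE_eq {H : SimpleGraph (Fin N × Fin 9)} (hH : IsTour H) :
    saE d lam H = 4 * ∑ x, lam x - 2 * wt d H := by
  unfold saE
  rw [sum_sub_distrib, sum_add_distrib, sa_sum_fst hH, sa_sum_snd hH, sa_wt]
  ring

theorem sa_int_ge {H : SimpleGraph (Fin N × Fin 9)} (hG : Geo D S d lam) (hH : IsTour H) :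
    -90 * (N : ℝ) ≤ ∑ p ∈ saI H, (lam p.1 + lam p.2 - d p.1 p.2) := by
  have h1 : (saI H).card ≤ 18 * N := by
    have h2 : (saD H).card = 18 * N := by
      have h3 := sa_sum_fst hH (fun _ => 1)
      rw [sum_const, sum_const, card_univ, Fintype.card_prod, Fintype.card_fin,
        Fintype.card_fin, nsmul_eq_mul, nsmul_eq_mul, mul_one, mul_one] at h3
      have h4 : ((saD H).card : ℝ) = ((18 * N : ℕ) : ℝ) := by rw [h3]; push_cast; ring
      exact_mod_cast h4
    rw [← h2]
    exact card_filter_le _ _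
  have h2 : ∑ _p ∈ saI H, (-5 : ℝ) ≤ ∑ p ∈ saI H, (lam p.1 + lam p.2 - d p.1 p.2) := by
    apply sum_le_sum
    intro p hp
    rw [saI_mem] at hp
    exact hG.low p.1 p.2 hp.1.ne hp.2
  rw [sum_const, nsmul_eq_mul] at h2
  have h3 : ((saI H).card : ℝ) ≤ 18 * N := by exact_mod_cast h1
  linarith

theorem saE_split (H : SimpleGraph (Fin N × Fin 9)) : saE d lam H =
    ∑ p ∈ saC H, (lam p.1 + lam p.2 - d p.1 p.2) +
    ∑ p ∈ saI H, (lam p.1 + lam p.2 - d p.1 p.2) := by
  unfold saE saC saI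
  exact (sum_filter_add_sum_filter_not _ _ _).symm

theorem saE_ge {H : SimpleGraph (Fin N × Fin 9)} (hG : Geo D S d lam) (hH : IsTour H) :
    ((saC H).card : ℝ) * ((100 * N - 3 : ℝ) ^ 2 - 5) - 90 * N ≤ saE d lam H := by
  rw [saE_split]
  have h1 := sa_int_ge hG hH
  have h2 : ∑ _p ∈ saC H, ((100 * N - 3 : ℝ) ^ 2 - 5) ≤
      ∑ p ∈ saC H, (lam p.1 + lam p.2 - d p.1 p.2) := by
    apply sum_le_sum
    intro p hp
    rw [saC_mem] at hp
    exact hG.cross p.1 p.2 hp.2
  rw [sum_const, nsmul_eq_mul] at h2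
  linarith

theorem saE_ge_far {H : SimpleGraph (Fin N × Fin 9)} (hG : Geo D S d lam) (hH : IsTour H)
    {x y : Fin N × Fin 9} (hxy : H.Adj x y) (h1 : x.1 ≠ y.1) (h2 : ¬ (tieG D S).Adj x.1 y.1) :
    ((saC H).card - 2 : ℝ) * ((100 * N - 3 : ℝ) ^ 2 - 5) + 2 * ((200 * N - 3 : ℝ) ^ 2 - 5) - 90 * N
      ≤ saE d lam H := by
  rw [saE_split]
  have h3 := sa_int_ge hG hH
  have hxC : (x, y) ∈ saC H := by rw [saC_mem]; exact ⟨hxy, h1⟩
  have hyC : (y, x) ∈ (saC H).erase (x, y) := by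
    rw [mem_erase, saC_mem]
    refine ⟨?_, hxy.symm, h1.symm⟩
    intro h
    exact hxy.ne (congrArg Prod.snd h)
  rw [← add_sum_erase _ _ hxC, ← add_sum_erase _ _ hyC]
  have h4 := hG.far x y h1 h2
  have h5 := hG.far y x h1.symm (fun h => h2 h.symm)
  have h6 : ∑ _p ∈ ((saC H).erase (x, y)).erase (y, x), ((100 * N - 3 : ℝ) ^ 2 - 5) ≤
      ∑ p ∈ ((saC H).erase (x, y)).erase (y, x), (lam p.1 + lam p.2 - d p.1 p.2) := by
    apply sum_le_sum
    intro p hp
    have hp' := mem_of_mem_erase (mem_of_mem_erase hp)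
    rw [saC_mem] at hp'
    exact hG.cross p.1 p.2 hp'.2
  rw [sum_const, nsmul_eq_mul] at h6
  have h7 : (((saC H).erase (x, y)).erase (y, x)).card + 2 = (saC H).card := by
    have e1 := card_erase_add_one hyC
    have e2 := card_erase_add_one hxC
    omega
  have h8 : ((((saC H).erase (x, y)).erase (y, x)).card : ℝ) = (saC H).card - 2 := by
    have : ((((saC H).erase (x, y)).erase (y, x)).card : ℝ) + 2 = (saC H).card := by
      exact_mod_cast h7
    linarith
  rw [h8] at h6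
  simp only
  linarith

/-- Module SoundA. -/
theorem soundA : StmtSoundA := by
  intro N D S d lam hN hG hex
  obtain ⟨H₁, H₂, hH₁, hH₂, -, hthr⟩ := hex
  have hN2 : 2 ≤ N := by omega
  have hNr : (3 : ℝ) ≤ N := by exact_mod_cast hN
  have hE : saE d lam H₁ + saE d lam H₂ ≤ 4 * N * (100 * N) ^ 2 + (100 * N) ^ 2 := by
    rw [saE_eq hH₁, saE_eq hH₂]
    unfold thr at hthr
    linarith
  have c2 := sa_C_ge hN2 hH₂
  have c1 := sa_C_ge hN2 hH₁
  have c2r : (2 * N : ℝ) ≤ (saC H₂).card := by exact_mod_cast c2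
  have m0 : 0 ≤ (100 * N - 3 : ℝ) ^ 2 - 5 := by nlinarith
  have E2 : 2 * N * ((100 * N - 3 : ℝ) ^ 2 - 5) - 90 * N ≤ saE d lam H₂ := by
    have h1 := saE_ge hG hH₂
    have h2 := mul_le_mul_of_nonneg_right c2r m0
    linarith
  -- exactly two darts leave each bar
  have hcard : (saC H₁).card = 2 * N := by
    by_contra hne
    obtain ⟨k, hk⟩ := sa_C_even H₁
    have h1 : 2 * N + 2 ≤ (saC H₁).card := by omega
    have h1r : (2 * N + 2 : ℝ) ≤ (saC H₁).card := by exact_mod_cast h1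
    have h2 := saE_ge hG hH₁
    have h3 := mul_le_mul_of_nonneg_right h1r m0
    nlinarith
  have hout : ∀ b, (saO H₁ b).card = 2 := by
    intro b
    have h1 := sa_C_card H₁
    rw [hcard] at h1
    have h2 : ∑ b : Fin N, ((saO H₁ b).card - 2) = 0 := by
      have h3 : ∑ b : Fin N, ((saO H₁ b).card - 2) + ∑ _b : Fin N, 2 = ∑ b, (saO H₁ b).card := by
        rw [← sum_add_distrib]
        apply sum_congr rfl
        intro b _
        have := sa_out_ge hN2 hH₁ b
        omega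
      rw [← h1] at h3
      simp only [sum_const, card_univ, Fintype.card_fin, smul_eq_mul] at h3
      omega
    rw [sum_eq_zero_iff] at h2
    have h3 := h2 b (mem_univ b)
    have h4 := sa_out_ge hN2 hH₁ b
    omega
  -- all links are ties
  have htie : ∀ x y : Fin N × Fin 9, H₁.Adj x y → x.1 ≠ y.1 → (tieG D S).Adj x.1 y.1 := by
    intro x y hxy h1
    by_contra h2
    have h3 := saE_ge_far hG hH₁ hxy h1 h2
    rw [hcard] at h3
    push_cast at h3
    nlinarith
  -- the graph F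
  let F : SimpleGraph (Fin N) :=
    { Adj := fun b b' => b ≠ b' ∧ ∃ x y : Fin N × Fin 9, x.1 = b ∧ y.1 = b' ∧ H₁.Adj x y
      symm := ⟨by
        rintro b b' ⟨h, x, y, hx, hy, hxy⟩
        exact ⟨h.symm, y, x, hy, hx, hxy.symm⟩⟩
      loopless := ⟨fun b h => h.1 rfl⟩ }
  have hFadj : ∀ b b', F.Adj b b' ↔
      b ≠ b' ∧ ∃ x y : Fin N × Fin 9, x.1 = b ∧ y.1 = b' ∧ H₁.Adj x y := fun b b' => Iff.rfl
  have hFle : F ≤ tieG D S := by
    intro b b' h
    obtain ⟨h0, x, y, rfl, rfl, hxy⟩ := h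
    exact htie x y hxy h0
  have hstep : ∀ x y : Fin N × Fin 9, H₁.Adj x y → F.Reachable x.1 y.1 := by
    intro x y hxy
    by_cases h : x.1 = y.1
    · rw [h]
    · exact SimpleGraph.Adj.reachable ((hFadj _ _).mpr ⟨h, x, y, rfl, rfl, hxy⟩)
  have : Nonempty (Fin N) := ⟨⟨0, by omega⟩⟩
  have hFconn : F.Connected := by
    refine ⟨fun b b' => ?_⟩
    exact sa_closed hH₁.1 {y : Fin N × Fin 9 | F.Reachable b y.1}
      (fun x hx y hxy => SimpleGraph.Reachable.trans hx (hstep x y hxy)) (x := (b, 0))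
      (SimpleGraph.Reachable.refl _) (b', 0)
  refine ⟨F, hFle, hFconn, ?_⟩
  intro b
  -- neighbours of b
  have himg : F.neighborSet b = (((saO H₁ b).image (fun p => p.2.1) : Finset (Fin N)) : Set (Fin N)) := by
    ext b'
    simp only [SimpleGraph.mem_neighborSet, hFadj, coe_image, Set.mem_image, mem_coe, saO_mem]
    constructor
    · rintro ⟨h0, x, y, hx, hy, hxy⟩
      exact ⟨(x, y), ⟨hxy, by rw [hx, hy]; exact h0, hx⟩, hy⟩
    · rintro ⟨⟨x, y⟩, ⟨h1, h2, h3⟩, h4⟩
      simp only at h1 h2 h3 h4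
      exact ⟨by rw [← h3, ← h4]; exact h2, x, y, h3, h4, h1⟩
  rw [himg, Set.ncard_coe_finset]
  have hle : ((saO H₁ b).image (fun p => p.2.1)).card ≤ 2 := by
    rw [← hout b]; exact card_image_le
  have hpos : 0 < ((saO H₁ b).image (fun p => p.2.1)).card := by
    rw [card_pos, image_nonempty, ← card_pos, hout b]; norm_num
  by_contra hne
  have hone : ((saO H₁ b).image (fun p => p.2.1)).card = 1 := by omega
  rw [card_eq_one] at hone
  obtain ⟨c, hc⟩ := hone
  have hbc : ∀ p ∈ saO H₁ b, p.2.1 = c := by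
    intro p hp
    have : p.2.1 ∈ (saO H₁ b).image (fun p => p.2.1) := mem_image_of_mem _ hp
    rw [hc, mem_singleton] at this
    exact this
  -- the darts leaving c all go to b
  have hcb : ∀ p ∈ saO H₁ c, p.2.1 = b := by
    have hsub : (saO H₁ b).image (fun p => (p.2, p.1)) ⊆ saO H₁ c := by
      intro q hq
      rw [mem_image] at hq
      obtain ⟨p, hp, rfl⟩ := hq
      have h1 := hbc p hp
      rw [saO_mem] at hp ⊢
      exact ⟨hp.1.symm, hp.2.1.symm, h1⟩
    have hcd : ((saO H₁ b).image (fun p => (p.2, p.1))).card = 2 := by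
      rw [card_image_of_injective _ (fun p q h => by
        have h1 := congrArg Prod.fst h
        have h2 := congrArg Prod.snd h
        exact Prod.ext h2 h1), hout b]
    have heq := eq_of_subset_of_card_le hsub (by rw [hcd, hout c])
    intro p hp
    rw [← heq, mem_image] at hp
    obtain ⟨q, hq, rfl⟩ := hp
    rw [saO_mem] at hq
    exact hq.2.2
  -- {b, c} is closed
  obtain ⟨a, ha⟩ : ∃ a : Fin N, a ∉ ({b, c} : Finset (Fin N)) := by
    by_contra hcon
    push Not at hcon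
    have h1 : (univ : Finset (Fin N)) ⊆ {b, c} := fun a _ => hcon a
    have h2 := card_le_card h1
    rw [card_univ, Fintype.card_fin] at h2
    have h3 : ({b, c} : Finset (Fin N)).card ≤ 2 := card_le_two
    omega
  have h1 := sa_closed hH₁.1 {x : Fin N × Fin 9 | x.1 = b ∨ x.1 = c} (by
    intro x hx y hxy
    by_cases h0 : x.1 = y.1
    · rw [Set.mem_ofPred_eq, ← h0]; exact hx
    · rcases hx with hx | hx
      · right
        exact hbc (x, y) (by rw [saO_mem]; exact ⟨hxy, h0, hx⟩)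
      · left
        exact hcb (x, y) (by rw [saO_mem]; exact ⟨hxy, h0, hx⟩)) (x := (b, 0)) (Or.inl rfl) (a, 0)
  apply ha
  rw [mem_insert, mem_singleton]
  exact h1

end sa

end Pool.Agent.Psp81
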